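import Pool.Agent.H260.CV.Stm

set_option autoImplicit false

open Complex MeasureTheory Set Filter Topology

namespace Pool.Agent.H390.CVC

open Pool.Agent.H260.CV

theorem local_signs (F : ℝ → ℝ) (y F' : ℝ) (hd : HasDerivAt F F' y) (hF' : 0 < F')
    (hy : F y = 0) : ∃ ε : ℝ, 0 < ε ∧ (∀ x, y - ε < x → x < y → F x < 0) ∧
      (∀ x, y < x → x < y + ε → 0 < F x) := by
  have h1 : ∀ᶠ x in 𝓝[≠] y, 0 < slope F y x :=
    (hasDerivAt_iff_tendsto_slope.1 hd).eventually (lt_mem_nhds hF')
  rw [eventually_nhdsWithin_iff, Metric.eventually_nhds_iff] at h1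
  obtain ⟨ε, hε, h2⟩ := h1
  refine ⟨ε, hε, ?_, ?_⟩
  · intro x hx1 hx2
    have h3 : 0 < slope F y x := by
      refine h2 (y := x) ?_ (ne_of_lt hx2)
      rw [Real.dist_eq, abs_lt]
      constructor <;> linarith
    rw [slope_def_field, hy, sub_zero] at h3
    have h4 : x - y < 0 := by linarith
    by_contra hcon
    push Not at hcon
    have h5 : F x / (x - y) ≤ 0 := div_nonpos_of_nonneg_of_nonpos hcon h4.le
    linarith
  · intro x hx1 hx2
    have h3 : 0 < slope F y x := by
      refine h2 (y := x) ?_ (ne_of_gt hx1)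
      rw [Real.dist_eq, abs_lt]
      constructor <;> linarith
    rw [slope_def_field, hy, sub_zero] at h3
    have h4 : 0 < x - y := by linarith
    by_contra hcon
    push Not at hcon
    have h5 : F x / (x - y) ≤ 0 := div_nonpos_of_nonpos_of_nonneg hcon h4.le
    linarith

theorem t_CROSS : S_CROSS := by
  intro F y F' hc hd hF' hy hneg halt
  obtain ⟨ε, hε, hL, hR⟩ := local_signs F y F' hd hF' hy
  -- the contradiction from `F u1 < 0 < F u2`, `u1 < u2 < y`
  have key : ∀ u1 u2 : ℝ, u1 < u2 → u2 < y → F u1 < 0 → 0 < F u2 → False := by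
    intro u1 u2 h12 h2y h1 h2
    obtain ⟨z, hz1, hz2⟩ := hneg u1
    have hm : max u2 (y - ε) < y := max_lt h2y (by linarith)
    set z3 := (max u2 (y - ε) + y) / 2 with hz3
    have ha : u2 < z3 := by
      have := le_max_left u2 (y - ε)
      rw [hz3]; linarith
    have hb : y - ε < z3 := by
      have := le_max_right u2 (y - ε)
      rw [hz3]; linarith
    have hcc : z3 < y := by rw [hz3]; linarith
    exact halt z u1 u2 z3 (y + ε / 2) hz1 h12 ha (by linarith) hz2 h1 h2
      (hL z3 hb hcc) (hR _ (by linarith) (by linarith))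
  set S : Set ℝ := {u | u < y ∧ F u < 0} with hS
  have hne : (y - ε / 2) ∈ S := ⟨by linarith, hL _ (by linarith) (by linarith)⟩
  have hbdd : BddBelow S := by
    obtain ⟨z, hz1, hz2⟩ := hneg y
    refine ⟨z, ?_⟩
    intro u hu
    by_contra hcon
    push Not at hcon
    exact key u z hcon hz1 hu.2 hz2
  have hinf : ∀ x, sInf S < x → ∃ u ∈ S, u < x := fun x hx =>
    exists_lt_of_csInf_lt ⟨_, hne⟩ hx
  have hlow : ∀ x, x < sInf S → 0 ≤ F x := by
    intro x hx
    by_contra hcon
    push Not at hcon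
    have hxy : x < y := hx.trans_le ((csInf_le hbdd hne).trans (by linarith))
    exact absurd (csInf_le hbdd (show x ∈ S from ⟨hxy, hcon⟩)) (not_le.2 hx)
  refine ⟨sInf S, ?_, ?_, ?_⟩
  · exact (csInf_le hbdd hne).trans_lt (by linarith)
  · intro x hx
    rcases hx.lt_or_eq with h | h
    · exact hlow x h
    · rw [h]
      have h1 : closure (Iio (sInf S)) ⊆ {x | 0 ≤ F x} :=
        closure_minimal (fun x hx => hlow x hx) (isClosed_le continuous_const hc)
      rw [closure_Iio] at h1
      exact h1 (mem_Iic.2 le_rfl)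
  · intro x hx1 hx2
    by_contra hcon
    push Not at hcon
    have hxy : x < y := by
      rcases hx2.lt_or_eq with h | h
      · exact h
      · rw [h, hy] at hcon
        exact absurd hcon (lt_irrefl _)
    have h1 : ∀ᶠ x' in 𝓝 x, 0 < F x' := (hc.tendsto x).eventually (lt_mem_nhds hcon)
    rw [Metric.eventually_nhds_iff] at h1
    obtain ⟨δ, hδ, h2⟩ := h1
    set m := min δ (y - x) with hm
    have hm0 : 0 < m := lt_min hδ (by linarith)
    have hm1 : m ≤ δ := min_le_left _ _
    have hm2 : m ≤ y - x := min_le_right _ _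
    have h3 : 0 < F (x + m / 2) := by
      refine h2 (y := x + m / 2) ?_
      rw [Real.dist_eq, abs_lt]
      constructor <;> linarith
    obtain ⟨u, hu, hux⟩ := hinf (x + m / 2) (by linarith)
    exact key u (x + m / 2) hux (by linarith) hu.2 h3

end Pool.Agent.H390.CVC
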