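import Pool.Graph.R_seed8.R748.CH.Stm

/-!
# Project CV (MP_0e7bd3_pr): convexity of the normal-to-Chernoff transform.  Statements.

Notation of project CH: `Ai` the Airy function (entire), `ph0 ω = 1/Ai(iω)`,
`Tr φ j x = ∫ (iω)^j e^{iωx} φ(ω) dω`, `RT φ j x` its real part, `p = RT ph0 0 > 0`,
`p^(j) = RT ph0 j`; Chernoff's density is `f_Z(t) = b p(-kt) p(kt)`.
-/

set_option autoImplicit false

open Complex MeasureTheory Set Filter Topology Polynomial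
open Pool.Agent.H140R2.FR (Ai)
open Pool.Agent.R748.CH

namespace Pool.Agent.H260.CV

/-- `c0 f + c1 f' + c2 f'' + c3 f'''` for the transform `f = RT φ 0` -/
noncomputable def LL (φ : ℝ → ℂ) (c0 c1 c2 c3 x : ℝ) : ℝ :=
  c0 * RT φ 0 x + c1 * RT φ 1 x + c2 * RT φ 2 x + c3 * RT φ 3 x

/-- variation diminution: no combination `c0 f + c1 f' + c2 f'' + c3 f'''` takes the signs
`+ - + - +` at five increasing points -/
def VD (φ : ℝ → ℂ) : Prop := ∀ c0 c1 c2 c3 z0 z1 z2 z3 z4 : ℝ, z0 < z1 → z1 < z2 → z2 < z3 →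
  z3 < z4 → 0 < LL φ c0 c1 c2 c3 z0 → LL φ c0 c1 c2 c3 z1 < 0 → 0 < LL φ c0 c1 c2 c3 z2 →
  LL φ c0 c1 c2 c3 z3 < 0 → 0 < LL φ c0 c1 c2 c3 z4 → False

/-- `ph0 / (1 + iω/a)` -/
noncomputable def d1 (a ω : ℝ) : ℂ := ph0 ω / (1 + I * (ω : ℂ) / (a : ℂ))

/-- `ph0 / (1 + iω/a)^2` -/
noncomputable def d2 (a ω : ℝ) : ℂ := d1 a ω / (1 + I * (ω : ℂ) / (a : ℂ))

/-- the logarithmic derivative of `Ai` on the imaginary axis -/
noncomputable def qA (ω : ℝ) : ℂ := deriv Ai (I * (ω : ℂ)) / Ai (I * (ω : ℂ))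

/-- `(Ai'/Ai (iω) - Ai'/Ai (0)) / Ai (iω)` -/
noncomputable def Z1 (ω : ℝ) : ℂ := ph0 ω * (qA ω - qA 0)

/-- `((Ai'/Ai)^2 (iω) - iω) / Ai (iω)`, that is `-(Ai'/Ai)' / Ai` at `iω` -/
noncomputable def Z2 (ω : ℝ) : ℂ := ph0 ω * (qA ω ^ 2 - I * (ω : ℂ))

/-- the standard normal distribution function -/
noncomputable def Phi (x : ℝ) : ℝ :=
  ∫ t in Set.Iic x, (Real.sqrt (2 * Real.pi))⁻¹ * Real.exp (-(t ^ 2) / 2)

/-- VG: the Gaussian base.  `RT (exp (-δω²)) 0 x = const · exp(-x²/(4δ))` (see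
`Pool.Graph.R_seed8.R748.CH.GAUSS`, lemma `tr_gauss`), the higher transforms are its derivatives
(`S_TR`), so `LL` is a polynomial of degree at most three times a positive function; five
alternating signs give four zeros and the polynomial vanishes. -/
def S_VG : Prop := ∀ δ : ℝ, 0 < δ → VD (fun ω : ℝ => cexp (-(δ : ℂ) * (ω : ℂ) ^ 2))

/-- VC: closure under division by `1 + iω/α`.  With `ψ = φ/(1+iω/α)`, `F = LL φ c`, `H = LL ψ c`: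
`F = H + H'/α` (relation `hrel` in `Pool.Graph.R_seed8.R748.CH.CLOSE`), `M(x) = e^{αx} H(x)` has
`M' = α e^{αx} F` and tends to `0` at `-∞` (`α > 0`) or `+∞` (`α < 0`) because `H` is bounded.
If `H` has the signs `+ - + - +` at `z0 < ... < z4` then, for `α > 0`, the mean value theorem gives
points `ξ0 < z0 < ξ1 < z1 < ... < ξ4 < z4` where `M'`, hence `F`, has the signs `+ - + - +`; for
`α < 0` it gives points `z0 < ξ0 < z1 < ... < ξ3 < z4 < ξ4` where `M'` has the signs `- + - + -`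
and again `F` has the signs `+ - + - +`. -/
def S_VC : Prop := ∀ φ : ℝ → ℂ, Mom φ → VD φ → ∀ α : ℝ, α ≠ 0 →
  VD (fun ω : ℝ => φ ω / (1 + I * (ω : ℂ) / (α : ℂ)))

/-- V: the property for `ph0` (limit of Gaussians divided by real rooted polynomials, exactly as in
`POLY`, `LIMIT` of project CH; the property only involves strict inequalities at finitely many
points, so it passes to pointwise limits of the transforms). -/
def S_V : Prop := VD ph0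

/-- SGN: the sign at `-∞` of a monic third order combination.  Let `C(s) = s^3+c2 s^2+c1 s+c0` and
suppose `F = C(D)p ≤ 0` on `(-∞, x1)`.  For `l > 0` let `B(s) = s²+(l+c2)s+(l²+c2 l+c1)`, so
`C(s) - C(l) = (s-l)B(s)`, and `U(x) = e^{-lx} (B(D)p)(x)`; `U' = e^{-lx}(F - C(l) p) ≤
-C(l) e^{-lx} p < 0` on `(-∞,x1)` for `l` large (`C(l) > 0`), `U → 0` at `-∞` (`S_FAST` with
exponent `l+1`), so `U(x1-2) ≤ 0` and, with `m = min p` on `[x1-2,x1-1]`,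
`U(x1-1) ≤ U(x1-2) - C(l) m e^{-l(x1-1)}`, `U(x1) ≤ U(x1-1)` so
`(B(D)p)(x1) ≤ -C(l) m e^{l}`: impossible for large `l`, the left side is a quadratic
polynomial in `l`. -/
def S_SGN : Prop := ∀ c0 c1 c2 x1 : ℝ, ∃ z : ℝ, z < x1 ∧ 0 < LL ph0 c0 c1 c2 1 z

/-- CROSS: an elementary lemma.  Left of `y` near `y` the function is negative, right of `y`
positive.  If `u1 < u2 < y`, `F u1 < 0`, `0 < F u2`, then with a point `z < u1`, `F z > 0`, there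
are five alternations.  So `xs = inf {u < y, F u < 0}` works. -/
def S_CROSS : Prop := ∀ (F : ℝ → ℝ) (y F' : ℝ), Continuous F → HasDerivAt F F' y → 0 < F' →
  F y = 0 → (∀ x1 : ℝ, ∃ z : ℝ, z < x1 ∧ 0 < F z) →
  (∀ z0 z1 z2 z3 z4 : ℝ, z0 < z1 → z1 < z2 → z2 < z3 → z3 < z4 → 0 < F z0 → F z1 < 0 →
    0 < F z2 → F z3 < 0 → 0 < F z4 → False) →
  ∃ xs : ℝ, xs < y ∧ (∀ x : ℝ, x ≤ xs → 0 ≤ F x) ∧ (∀ x : ℝ, xs ≤ x → x ≤ y → F x ≤ 0)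

/-- KER: the kernel inequality.  With `F = LL ph0 c0 c1 c2 1`, `H1 = LL (d1 a) c0 c1 c2 1 / a`,
`H2 = LL (d2 a) c0 c1 c2 1 / a²` we have `a H1 + H1' = F`, `a H2 + H2' = H1` (relation `hrel` in
CLOSE), `W(x) = e^{ax}(H2(x) - (x - xs) H1(x))` has `W' = -(x - xs) e^{ax} F(x) ≥ 0` on `(-∞, y]`
and tends to `0` at `-∞` (`H1`, `H2` are bounded), so `W(y) ≥ 0`. -/
def S_KER : Prop := ∀ c0 c1 c2 a xs y : ℝ, 0 < a → xs ≤ y →
  (∀ x : ℝ, x ≤ xs → 0 ≤ LL ph0 c0 c1 c2 1 x) →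
  (∀ x : ℝ, xs ≤ x → x ≤ y → LL ph0 c0 c1 c2 1 x ≤ 0) →
  (y - xs) * (LL (d1 a) c0 c1 c2 1 y / a) ≤ LL (d2 a) c0 c1 c2 1 y / a ^ 2

/-- HADA: Mittag-Leffler expansions of `Ai'/Ai` and of its derivative (sets `S N` of zeros `-a`
with multiplicities). -/
def S_HADA : Prop := ∃ (S : ℕ → Finset ℝ) (m : ℕ → ℝ → ℕ), (∀ N, ∀ a ∈ S N, 0 < a) ∧
  (∃ B : ℝ, ∀ N, ∑ a ∈ S N, (m N a : ℝ) / a ^ 2 ≤ B) ∧
  (∀ ω : ℝ, Tendsto (fun N => ∑ a ∈ S N, (m N a : ℂ) * (1 / (I * (ω : ℂ) + (a : ℂ)) - 1 / (a : ℂ)))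
    atTop (𝓝 (qA ω - qA 0))) ∧
  (∀ ω : ℝ, Tendsto (fun N => ∑ a ∈ S N, (m N a : ℂ) / (I * (ω : ℂ) + (a : ℂ)) ^ 2)
    atTop (𝓝 (qA ω ^ 2 - I * (ω : ℂ))))

/-- MZ: `Z1`, `Z2` have all moments.  `|qA ω| ≤ C (1+|ω|)^2` from `deriv_Ai_sq_bound`
(`Pool.Graph.R_seed8.H140R2.FR.T01Airy`) and `S_AILOW` with `p² = iω`, `p.re = |p.im|`,
`(p^3).re = -...` cancels in the quotient; for `|ω| ≤ 1` by continuity; then `S_DECAY`. -/
def S_MZ : Prop := Mom Z1 ∧ Mom Z2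

/-- SUM: summation of the transforms of `d1 a`, `d2 a` over the zeros, dominated convergence:
`(1/(a(1+iω/a)) - 1/a) = 1/(iω+a) - 1/a`, `|∑ m (1/(iω+a) - 1/a)| ≤ |ω| ∑ m/a² ≤ B|ω|`,
`|∑ m/(iω+a)²| ≤ B`. -/
def S_SUM : Prop := ∀ (S : ℕ → Finset ℝ) (m : ℕ → ℝ → ℕ), (∀ N, ∀ a ∈ S N, 0 < a) →
  (∃ B : ℝ, ∀ N, ∑ a ∈ S N, (m N a : ℝ) / a ^ 2 ≤ B) →
  (∀ ω : ℝ, Tendsto (fun N => ∑ a ∈ S N, (m N a : ℂ) * (1 / (I * (ω : ℂ) + (a : ℂ)) - 1 / (a : ℂ)))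
    atTop (𝓝 (qA ω - qA 0))) →
  (∀ ω : ℝ, Tendsto (fun N => ∑ a ∈ S N, (m N a : ℂ) / (I * (ω : ℂ) + (a : ℂ)) ^ 2)
    atTop (𝓝 (qA ω ^ 2 - I * (ω : ℂ)))) →
  ∀ (j : ℕ) (y : ℝ),
    Tendsto (fun N => ∑ a ∈ S N, (m N a : ℝ) * (RT (d1 a) j y / a - RT ph0 j y / a)) atTop
      (𝓝 (RT Z1 j y)) ∧
    Tendsto (fun N => ∑ a ∈ S N, (m N a : ℝ) * (RT (d2 a) j y / a ^ 2)) atTop (𝓝 (RT Z2 j y))

/-- PARTS: integration by parts.  `ph0' = -i Ai'/Ai² ` and `ph0'' = iω/Ai - 2 Ai'²/Ai³` (at `iω`,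
by `Ai'' = z Ai`, `Ai_ode`), so `ph0 qA = i ph0'` and `ph0 (qA² - iω) = -(ph0'' + iω ph0)/2`;
integrate by parts against `(iω)^j e^{iωy}`. -/
def S_PARTS : Prop := ∀ (j : ℕ) (y : ℝ),
  RT Z1 j y = (y - (qA 0).re) * RT ph0 j y + j * RT ph0 (j - 1) y ∧
  RT Z2 j y = (y ^ 2 * RT ph0 j y + 2 * y * j * RT ph0 (j - 1) y +
    j * ((j : ℝ) - 1) * RT ph0 (j - 2) y) / 2 - RT ph0 (j + 1) y / 2

/-- K4: the fourth derivative of `log p` is nonpositive. -/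
def S_K4 : Prop := ∀ y : ℝ,
  RT ph0 0 y ^ 3 * RT ph0 4 y - 4 * RT ph0 0 y ^ 2 * RT ph0 1 y * RT ph0 3 y -
    3 * RT ph0 0 y ^ 2 * RT ph0 2 y ^ 2 + 12 * RT ph0 0 y * RT ph0 1 y ^ 2 * RT ph0 2 y -
    6 * RT ph0 1 y ^ 4 ≤ 0

/-- VZE: existence and uniqueness of the transform: `Phi` is a continuous strictly increasing
bijection from the reals onto `(0,1)` and `0 < ∫_{Iic w} f < 1`. -/
def S_VZE : Prop := ∀ f : ℝ → ℝ, (∀ x, 0 < f x) → Integrable f → (∫ x, f x) = 1 →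
  ∃! S : ℝ → ℝ, ∀ w, Phi (S w) = ∫ t in Iic w, f t

/-- VZC: an even density `f = e^{-V}` whose `h = V'` is convex on `[0,∞)` precedes the normal law in
van Zwet's order on `[0,∞)`.  Proof: `S` is `C^1` (inverse function theorem or
`HasDerivAt.of_local_left_inverse`), `phi(S) S' = f`, so `S'` is differentiable and
`S'' = S' (S S' - h)`; the claim is `S S' ≥ h` on `(0,∞)`.  Suppose `S S' < h` at `w0 > 0`; put
`a = S'(w0) > 0`, `s = S(w0) > 0`, `L(w) = s + a (w - w0)`, `fL = a phi(L)`, `δ = log f - log fL`,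
`δ' = a L - h`, concave on `[0,∞)`, `δ(w0) = 0`, `δ'(w0) < 0`.  Both tails beyond `w0` have mass
`1 - Phi(s)`, so `δ' ≤ 0` on `[w0,∞)` is impossible: `δ'(w1) > 0` for some `w1 > w0`.  By concavity
`δ' < 0` on `[0,w0]`, so `f > fL` on `[0,w0)`.  Also `h 0 = 0` (`f` even), so `a L(0) = δ'(0) < 0`,
`L(0) < 0`, and `Phi(s) - 1/2 = ∫_0^{w0} f ≥ ∫_0^{w0} fL = Phi(s) - Phi(L(0)) > Phi(s) - 1/2`,
a contradiction. -/
def S_VZC : Prop := ∀ (f h : ℝ → ℝ), (∀ x, HasDerivAt f (-(h x) * f x) x) → (∀ x, 0 < f x) →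
  (∀ x, f (-x) = f x) → Integrable f → (∫ x, f x) = 1 → Continuous h →
  ConvexOn ℝ (Ici (0 : ℝ)) h →
  ∀ S : ℝ → ℝ, (∀ w, Phi (S w) = ∫ t in Iic w, f t) → ConvexOn ℝ (Ici (0 : ℝ)) S

/-- the cube root of unity `e^{2πi/3}` -/
noncomputable def om : ℂ := cexp (2 * (Real.pi : ℂ) * I / 3)

/-- WR1: `Ai(0) Ai'(0) = -1/(2π√3)`.  Wronskian: `W = Ai(z) (om Ai'(om z)) - Ai'(z) Ai(om z)` is
constant (`Ai_ode`), `= (om - 1) Ai(0) Ai'(0)` at `z = 0`.  On the other hand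
`R(z) = Ai(z)/Ai(om z)` has `R' = -W/Ai(om z)²`, and by `Ai_sq`, `BB_expansion`
(`Ai(p²) = (1/2π) e^{-2p³/3} 𝒜(p)`, `√(p/π) 𝒜(p) → 1` in the sector `p.re ≥ |p|/2`) with `p = x` and
`p = e^{iπ/3} x` one gets `W = e^{-iπ/6}/(2π)`.  (Or by Gamma integrals.) -/
def S_WR1 : Prop := Ai 0 * deriv Ai 0 = ((-(1 / (2 * Real.pi * Real.sqrt 3)) : ℝ) : ℂ)

/-- WR2: `Ai(om² iy)/Ai(iy) → 0` as `y → +∞` (`om² i y = (e^{-iπ/12} √y)²` in the sector of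
exponential decay, `1/Ai(iy) → 0` by `S_DECAY`). -/
def S_WR2 : Prop := Tendsto (fun y : ℝ => Ai (om ^ 2 * (I * (y : ℂ))) / Ai (I * (y : ℂ))) atTop (𝓝 0)

/-- WR: `∫ dω / Ai(iω)² = 2π`.  `(Ai(om² s)/Ai(s))' = W'/Ai(s)²` with the constant Wronskian
`W' = Ai(s) om² Ai'(om² s) - Ai'(s) Ai(om² s) = (om² - 1) Ai(0) Ai'(0)`, so
`∫_0^∞ i dω/Ai(iω)² = (0 - 1)/W'` by WR2, and the integral over `(-∞, 0]` is the conjugate
(`Ai_conj`).  With WR1 the sum is `2π`. -/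
def S_WR : Prop := ∫ ω : ℝ, ph0 ω ^ 2 = ((2 * Real.pi : ℝ) : ℂ)

/-- MASS: Chernoff's density integrates to one.  `gG t = (2^{2/3}/2π) Tr ph0 0 (-2^{1/3} t)`
(`t_SCALE`), Parseval `∫ p(u) p(-u) du = 2π ∫ ph0²` (Fubini with `G_fourier`, or
`integral_fourier_mul_eq...`), so `∫ fZ = (1/2)(2^{2/3}/2π)² 2^{-1/3} 2π 2π = 1`. -/
def S_MASS : Prop := Integrable fZ ∧ ∫ t, fZ t = 1

/-- LOGF: the final density `f = fZ` satisfies the hypotheses of VZ. -/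
def S_LOGF : Prop := ∃ h : ℝ → ℝ, (∀ x, HasDerivAt fZ (-(h x) * fZ x) x) ∧ Continuous h ∧
  ConvexOn ℝ (Ici (0 : ℝ)) h

end Pool.Agent.H260.CV
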