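import Pool.Agent.H260.CH.Fou
import Pool.Agent.H260.CV.Stm

/-! Project CV: Mittag-Leffler expansions of `Ai'/Ai` and its derivative -/

set_option autoImplicit false

open Complex MeasureTheory Set Filter Topology Metric Polynomial
open Pool.Agent.H140R2.FR (Ai)
open Pool.Agent.R748.CH

namespace Pool.Agent.H260.CV

/-- second order estimate of the logarithm of a function without zeros in a disc -/
theorem log_second' {g : ℂ → ℂ} {R M : ℝ} (hR : 0 < R) (hM : 0 < M) (hd : Differentiable ℂ g)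
    (h1 : g 0 = 1) (hne : ∀ z ∈ ball (0 : ℂ) R, g z ≠ 0)
    (hb : ∀ z ∈ ball (0 : ℂ) R, ‖g z‖ ≤ Real.exp M) :
    ∃ (t : ℂ) (e : ℂ → ℂ), DifferentiableOn ℂ e (ball 0 (R / 2)) ∧
      (∀ z, ‖z‖ < R / 2 → ‖e z‖ ≤ 16 * M * (‖z‖ / R) ^ 2) ∧
      ∀ z, ‖z‖ < R / 2 → g z = cexp (t * z + e z) := by
  obtain ⟨φ, hφd, hφ0, hexp⟩ := Pool.Agent.NH98.RT.Had.exists_log hR hd hne
  rw [h1] at hexp
  have h0R : (0 : ℂ) ∈ ball (0 : ℂ) R := mem_ball_self hR
  have hmaps : MapsTo φ (ball 0 R) {z | z.re ≤ M} := by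
    intro w hw
    show (φ w).re ≤ M
    have h2 := hb w hw
    rw [hexp w hw, one_mul, Complex.norm_exp] at h2
    exact Real.exp_le_exp.1 h2
  have hbc : ∀ z, ‖z‖ < R / 2 → ‖φ z‖ ≤ 2 * M := by
    intro z hz
    have hzR : z ∈ ball (0:ℂ) R := by rw [mem_ball_zero_iff]; linarith [norm_nonneg z]
    have h1 := borelCaratheodory_zero hM hφd hmaps hR hzR hφ0
    refine h1.trans ?_
    rw [div_le_iff₀ (by linarith)]
    nlinarith [norm_nonneg z]
  have hφat : DifferentiableAt ℂ φ 0 := (hφd 0 h0R).differentiableAt (isOpen_ball.mem_nhds h0R)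
  set t := deriv φ 0 with htdef
  have hφ' : HasDerivAt φ t 0 := hφat.hasDerivAt
  have hR2 : 0 < R / 2 := by linarith
  have hmapsc : MapsTo φ (ball 0 (R / 2)) (closedBall (φ 0) (2 * M)) := by
    intro w hw
    rw [mem_ball_zero_iff] at hw
    rw [hφ0, mem_closedBall_zero_iff]
    exact hbc w hw
  have htb : ‖t‖ ≤ 2 * M / (R / 2) := by
    have h9 := Complex.norm_deriv_le_div_of_mapsTo_ball
      (hφd.mono (ball_subset_ball (by linarith))) hmapsc hR2
    rwa [hφ'.deriv] at h9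
  set f₂ : ℂ → ℂ := fun w => φ w - t * w with hf₂
  have hf20 : f₂ 0 = 0 := by simp [hf₂, hφ0]
  have hmaps2 : MapsTo f₂ (ball 0 (R / 2)) (closedBall (f₂ 0) (4 * M)) := by
    intro w hw
    rw [mem_ball_zero_iff] at hw
    rw [hf20, mem_closedBall_zero_iff]
    calc ‖φ w - t * w‖ ≤ ‖φ w‖ + ‖t * w‖ := norm_sub_le _ _
      _ ≤ 2 * M + 2 * M / (R / 2) * (R / 2) := by
          rw [norm_mul]
          apply add_le_add (hbc w hw)
          exact mul_le_mul htb hw.le (norm_nonneg _) (by positivity)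
      _ = 4 * M := by field_simp; ring
  have hlo : (f₂ · - f₂ 0) =o[𝓝 0] (fun w ↦ ‖w - 0‖ ^ 1) := by
    have h1 := hφ'.isLittleO.norm_right
    have e1 : (fun x => φ x - φ 0 - (x - 0) • t) = (f₂ · - f₂ 0) := by
      funext x
      simp only [hf₂, smul_eq_mul, sub_zero, mul_zero]
      ring
    rw [e1] at h1
    simpa using h1
  have hd2 : DifferentiableOn ℂ f₂ (ball 0 (R / 2)) :=
    (hφd.mono (ball_subset_ball (by linarith))).sub
      ((differentiable_const t).mul differentiable_id).differentiableOn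
  refine ⟨t, f₂, hd2, fun z hz => ?_, fun z hz => ?_⟩
  · have h4 := Complex.dist_le_mul_div_pow_of_mapsTo_ball_of_isLittleO (n := 1) (f := f₂)
      hd2 hmaps2 hlo (mem_ball_zero_iff.2 hz)
    rw [hf20, dist_zero_right, dist_zero_right] at h4
    refine h4.trans (le_of_eq ?_)
    have h6 : ‖z‖ / (R / 2) = 2 * (‖z‖ / R) := by field_simp
    rw [h6]
    ring
  · have hzR : z ∈ ball (0 : ℂ) R := by rw [mem_ball_zero_iff]; linarith [norm_nonneg z]
    rw [hexp z hzR, one_mul]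
    congr 1
    simp only [hf₂]
    ring

/-- the factorisation for one radius -/
theorem one_radius' {F : ℂ → ℂ} (hF : Differentiable ℂ F) (h0 : F 0 = 1)
    {K : ℝ} (hK : 0 ≤ K) (hgr : ∀ z, ‖F z‖ ≤ Real.exp (K * (1 + ‖z‖) ^ (3 / 2 : ℝ)))
    {ρ : ℝ} (hρ : 0 < ρ) :
    ∃ (S : Finset ℂ) (m : ℂ → ℕ) (t : ℂ) (e : ℂ → ℂ), (∀ a ∈ S, F a = 0) ∧
      DifferentiableOn ℂ e (ball 0 (ρ / 2)) ∧
      (∀ z, ‖z‖ < ρ / 2 → ‖e z‖ ≤
        16 * (K * (1 + 4 * ρ) ^ (3 / 2 : ℝ) + 1) * (‖z‖ / ρ) ^ 2) ∧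
      ∀ z, ‖z‖ < ρ / 2 → F z = (∏ a ∈ S, (1 - z / a) ^ m a) * cexp (t * z + e z) := by
  classical
  have hne : ∃ z, F z ≠ 0 := ⟨0, by rw [h0]; exact one_ne_zero⟩
  set S : Finset ℂ := (Pool.Agent.NH98.RT.Had.finite_zeros hF hne ρ).toFinset with hS
  have hmem : ∀ z, z ∈ S ↔ (z ∈ closedBall (0 : ℂ) ρ ∧ F z = 0) := by
    intro z
    rw [hS, Set.Finite.mem_toFinset]
    rfl
  have hS0 : (0 : ℂ) ∉ S := fun h => by
    have := ((hmem 0).1 h).2
    rw [h0] at this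
    exact one_ne_zero this
  obtain ⟨g, hg, hgS, hFg⟩ := Pool.Agent.NH98.RT.Had.exists_div_prod hF hne S hS0
  set m : ℂ → ℕ := fun a => analyticOrderNatAt F a with hm
  have hSn : ∀ a ∈ S, a ≠ 0 := fun a ha h => hS0 (h ▸ ha)
  have hg1 : g 0 = 1 := by
    have := hFg 0
    rw [h0] at this
    simpa using this.symm
  -- no zeros in the ball
  have hgne : ∀ z ∈ ball (0 : ℂ) ρ, g z ≠ 0 := by
    intro z hzb h
    have h2 : F z = 0 := by rw [hFg z, h, mul_zero]
    exact hgS z ((hmem z).2 ⟨ball_subset_closedBall hzb, h2⟩) h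
  -- growth
  have hbound : ∀ z ∈ ball (0 : ℂ) ρ, ‖g z‖ ≤ Real.exp (K * (1 + 4 * ρ) ^ (3 / 2 : ℝ) + 1) := by
    intro z hzb
    have key : ‖g z‖ ≤ Real.exp (K * (1 + 4 * ρ) ^ (3 / 2 : ℝ)) := by
      apply Complex.norm_le_of_forall_mem_frontier_norm_le (U := ball (0 : ℂ) (4 * ρ))
        isBounded_ball hg.diffContOnCl
      · intro w hw
        rw [frontier_ball _ (by positivity), mem_sphere_zero_iff_norm] at hw
        have h1 : 1 ≤ ‖∏ a ∈ S, (1 - w / a) ^ m a‖ := by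
          rw [norm_prod]
          have : ∀ a ∈ S, 1 ≤ ‖(1 - w / a) ^ m a‖ := fun a ha =>
            Pool.Agent.NH98.RT.Had.factor_ge (hSn a ha)
              (mem_closedBall_zero_iff.1 ((hmem a).1 ha).1) hw _
          calc (1 : ℝ) = ∏ a ∈ S, (1 : ℝ) := by simp
            _ ≤ ∏ a ∈ S, ‖(1 - w / a) ^ m a‖ := Finset.prod_le_prod (fun _ _ => zero_le_one) this
        have h2 := hgr w
        rw [hFg w, norm_mul, hw] at h2
        calc ‖g w‖ ≤ ‖∏ a ∈ S, (1 - w / a) ^ m a‖ * ‖g w‖ :=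
              le_mul_of_one_le_left (norm_nonneg _) h1
          _ ≤ _ := h2
      · rw [closure_ball _ (by positivity), mem_closedBall_zero_iff]
        rw [mem_ball_zero_iff] at hzb
        linarith
    exact key.trans (Real.exp_le_exp.2 (by linarith))
  have hM : 0 < K * (1 + 4 * ρ) ^ (3 / 2 : ℝ) + 1 := by positivity
  obtain ⟨t, e, hed, heb, hge⟩ := log_second' hρ hM hg hg1 hgne hbound
  refine ⟨S, m, t, e, fun a ha => ((hmem a).1 ha).2, hed, heb, fun z hz => ?_⟩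
  rw [hFg z, hge z hz]

/-- log-derivatives for one radius -/
theorem one_radius_log {F : ℂ → ℂ} (hF : Differentiable ℂ F) (h0 : F 0 = 1)
    {K : ℝ} (hK : 0 ≤ K) (hgr : ∀ z, ‖F z‖ ≤ Real.exp (K * (1 + ‖z‖) ^ (3 / 2 : ℝ)))
    {ρ : ℝ} (hρ : 0 < ρ) :
    ∃ (S : Finset ℂ) (m : ℂ → ℕ), (∀ a ∈ S, F a = 0) ∧
      ∀ z, F z ≠ 0 → ‖z‖ + 2 < ρ / 2 →
      ‖(∑ a ∈ S, (m a : ℂ) * (1 / (z - a) + 1 / a)) - (deriv F z / F z - deriv F 0 / F 0)‖ ≤
        2 * (16 * (K * (1 + 4 * ρ) ^ (3 / 2 : ℝ) + 1) * ((‖z‖ + 1) / ρ) ^ 2) ∧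
      ‖(∑ a ∈ S, (m a : ℂ) / (z - a) ^ 2) -
        ((deriv F z / F z) ^ 2 - deriv (deriv F) z / F z)‖ ≤
        16 * (K * (1 + 4 * ρ) ^ (3 / 2 : ℝ) + 1) * ((‖z‖ + 2) / ρ) ^ 2 := by
  obtain ⟨S, m, t, e, hSF, hed, heb, hFe⟩ := one_radius' hF h0 hK hgr hρ
  refine ⟨S, m, hSF, ?_⟩
  set A : ℝ := 16 * (K * (1 + 4 * ρ) ^ (3 / 2 : ℝ) + 1) with hA
  have hA0 : 0 ≤ A := by positivity
  have hSn : ∀ a ∈ S, a ≠ 0 := by
    rintro a ha rfl
    rw [hSF 0 ha] at h0
    exact zero_ne_one h0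
  have hed' : ∀ z, ‖z‖ < ρ / 2 → DifferentiableAt ℂ e z := fun z hz =>
    (hed z (mem_ball_zero_iff.2 hz)).differentiableAt (isOpen_ball.mem_nhds (mem_ball_zero_iff.2 hz))
  -- Cauchy estimates
  have he1 : ∀ z, ‖z‖ + 1 < ρ / 2 → ‖deriv e z‖ ≤ A * ((‖z‖ + 1) / ρ) ^ 2 := by
    intro z hz
    have h := Complex.norm_deriv_le_of_forall_mem_sphere_norm_le (c := z) (R := 1)
      (C := A * ((‖z‖ + 1) / ρ) ^ 2) (f := e) one_pos ?_ ?_
    · simpa using h
    · refine DifferentiableOn.diffContOnCl ?_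
      rw [closure_ball _ one_ne_zero]
      refine hed.mono fun w hw => ?_
      rw [mem_closedBall, dist_eq_norm] at hw
      rw [mem_ball_zero_iff]
      have : ‖w‖ ≤ ‖w - z‖ + ‖z‖ := by
        have := norm_add_le (w - z) z
        rwa [sub_add_cancel] at this
      linarith
    · intro w hw
      rw [mem_sphere, dist_eq_norm] at hw
      have hw1 : ‖w‖ ≤ ‖z‖ + 1 := by
        have := norm_add_le (w - z) z
        rw [sub_add_cancel] at this
        linarith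
      refine (heb w (by linarith)).trans ?_
      gcongr
  have he2 : ∀ z, ‖z‖ + 2 < ρ / 2 → ‖deriv (deriv e) z‖ ≤ A * ((‖z‖ + 2) / ρ) ^ 2 := by
    intro z hz
    have h := Complex.norm_deriv_le_of_forall_mem_sphere_norm_le (c := z) (R := 1)
      (C := A * ((‖z‖ + 2) / ρ) ^ 2) (f := deriv e) one_pos ?_ ?_
    · simpa using h
    · refine DifferentiableOn.diffContOnCl ?_
      rw [closure_ball _ one_ne_zero]
      refine (hed.deriv isOpen_ball).mono fun w hw => ?_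
      rw [mem_closedBall, dist_eq_norm] at hw
      rw [mem_ball_zero_iff]
      have : ‖w‖ ≤ ‖w - z‖ + ‖z‖ := by
        have := norm_add_le (w - z) z
        rwa [sub_add_cancel] at this
      linarith
    · intro w hw
      rw [mem_sphere, dist_eq_norm] at hw
      have hw1 : ‖w‖ ≤ ‖z‖ + 1 := by
        have := norm_add_le (w - z) z
        rw [sub_add_cancel] at this
        linarith
      refine (he1 w (by linarith)).trans ?_
      have : ‖w‖ + 1 ≤ ‖z‖ + 2 := by linarith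
      gcongr
  -- the log derivative
  have hlog : ∀ z, F z ≠ 0 → ‖z‖ < ρ / 2 →
      deriv F z / F z = (∑ a ∈ S, (m a : ℂ) * (1 / (z - a))) + t + deriv e z := by
    intro z hFz hz
    have hza : ∀ a ∈ S, z ≠ a := by
      rintro a ha rfl
      exact hFz (hSF z ha)
    have hev : F =ᶠ[𝓝 z] fun z => (∏ a ∈ S, (1 - z / a) ^ m a) * cexp (t * z + e z) := by
      filter_upwards [isOpen_ball.mem_nhds (mem_ball_zero_iff.2 hz)] with w hw
      exact hFe w (mem_ball_zero_iff.1 hw)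
    have hfac : ∀ a ∈ S, 1 - z / a ≠ 0 := by
      intro a ha h
      rw [sub_eq_zero, eq_comm, div_eq_one_iff_eq (hSn a ha)] at h
      exact hza a ha h
    have hd : HasDerivAt (fun z => t * z + e z) (t + deriv e z) z := by
      have h := ((hasDerivAt_id z).const_mul t).add (hed' z hz).hasDerivAt
      refine h.congr_deriv ?_
      rw [mul_one]
    have h1 : logDeriv F z = logDeriv (fun z => (∏ a ∈ S, (1 - z / a) ^ m a) *
        cexp (t * z + e z)) z := by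
      rw [logDeriv_apply, logDeriv_apply, hev.deriv_eq, hev.eq_of_nhds]
    have hdf : ∀ a ∈ S, DifferentiableAt ℂ (fun z : ℂ => (1 - z / a) ^ m a) z := fun a _ => by
      fun_prop
    have h2 : logDeriv (fun z => (∏ a ∈ S, (1 - z / a) ^ m a) * cexp (t * z + e z)) z =
        logDeriv (fun z => ∏ a ∈ S, (1 - z / a) ^ m a) z +
        logDeriv (fun z => cexp (t * z + e z)) z := by
      refine logDeriv_mul z ?_ (Complex.exp_ne_zero _) ?_ hd.cexp.differentiableAt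
      · exact Finset.prod_ne_zero_iff.2 fun a ha => pow_ne_zero _ (hfac a ha)
      · exact DifferentiableAt.fun_finsetProd hdf
    have h3 : logDeriv (fun z => cexp (t * z + e z)) z = t + deriv e z := by
      rw [logDeriv_apply, hd.cexp.deriv]
      field_simp [Complex.exp_ne_zero]
    have h4 : logDeriv (fun z => ∏ a ∈ S, (1 - z / a) ^ m a) z =
        ∑ a ∈ S, (m a : ℂ) * (1 / (z - a)) := by
      have h5 := logDeriv_prod (s := S) (f := fun (a z : ℂ) => (1 - z / a) ^ m a) (x := z)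
        (fun a ha => pow_ne_zero _ (hfac a ha)) hdf
      rw [h5]
      refine Finset.sum_congr rfl fun a ha => ?_
      have hd1 : HasDerivAt (fun z : ℂ => 1 - z / a) (-(1 / a)) z :=
        ((hasDerivAt_id z).div_const a).const_sub 1
      rw [logDeriv_fun_pow hd1.differentiableAt, logDeriv_apply, hd1.deriv]
      have ha0 := hSn a ha
      have hz0 : z - a ≠ 0 := sub_ne_zero.2 (hza a ha)
      have hz1 := hfac a ha
      congr 1
      rw [div_eq_div_iff hz1 hz0]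
      field_simp
      ring
    have h6 : deriv F z / F z = logDeriv F z := (logDeriv_apply F z).symm
    rw [h6, h1, h2, h3, h4]
    ring
  intro z hFz hz
  have hz2 : ‖z‖ < ρ / 2 := by linarith
  have hz0 : ‖(0 : ℂ)‖ < ρ / 2 := by rw [norm_zero]; positivity
  constructor
  · have e1 := hlog z hFz hz2
    have e2 := hlog 0 (by rw [h0]; exact one_ne_zero) hz0
    have e3 : (∑ a ∈ S, (m a : ℂ) * (1 / (z - a) + 1 / a)) - (deriv F z / F z - deriv F 0 / F 0) =
        deriv e 0 - deriv e z := by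
      rw [e1, e2]
      have e4 : ∑ a ∈ S, (m a : ℂ) * (1 / (z - a) + 1 / a) =
          ∑ a ∈ S, (m a : ℂ) * (1 / (z - a)) - ∑ a ∈ S, (m a : ℂ) * (1 / (0 - a)) := by
        rw [← Finset.sum_sub_distrib]
        refine Finset.sum_congr rfl fun a ha => ?_
        rw [zero_sub, div_neg]
        ring
      rw [e4]
      ring
    rw [e3]
    have b1 := he1 z (by linarith)
    have b2 := he1 0 (by rw [norm_zero]; linarith [norm_nonneg z])
    have b3 : A * ((‖(0 : ℂ)‖ + 1) / ρ) ^ 2 ≤ A * ((‖z‖ + 1) / ρ) ^ 2 := by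
      rw [norm_zero]
      have := norm_nonneg z
      gcongr
    calc ‖deriv e 0 - deriv e z‖ ≤ ‖deriv e 0‖ + ‖deriv e z‖ := norm_sub_le _ _
      _ ≤ _ := by linarith
  · have hza : ∀ a ∈ S, z - a ≠ 0 := by
      intro a ha h
      rw [sub_eq_zero] at h
      rw [h] at hFz
      exact hFz (hSF a ha)
    have hev : (fun w => deriv F w / F w) =ᶠ[𝓝 z]
        fun w => (∑ a ∈ S, (m a : ℂ) * (1 / (w - a))) + t + deriv e w := by
      have h1 : ∀ᶠ w in 𝓝 z, F w ≠ 0 := hF.continuous.continuousAt.eventually_ne hFz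
      filter_upwards [h1, isOpen_ball.mem_nhds (mem_ball_zero_iff.2 hz2)] with w hw1 hw2
      exact hlog w hw1 (mem_ball_zero_iff.1 hw2)
    have hdF : Differentiable ℂ (deriv F) := fun w =>
      ((hF.differentiableOn (s := univ)).deriv isOpen_univ w (mem_univ w)).differentiableAt
        univ_mem
    have hL : HasDerivAt (fun w => deriv F w / F w)
        (deriv (deriv F) z / F z - (deriv F z / F z) ^ 2) z := by
      have h := (hdF z).hasDerivAt.div (hF z).hasDerivAt hFz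
      refine h.congr_deriv ?_
      field_simp
    have hde : HasDerivAt (deriv e) (deriv (deriv e) z) z := by
      have h := (hed.deriv isOpen_ball) z (mem_ball_zero_iff.2 hz2)
      exact (h.differentiableAt (isOpen_ball.mem_nhds (mem_ball_zero_iff.2 hz2))).hasDerivAt
    have hR : HasDerivAt (fun w => (∑ a ∈ S, (m a : ℂ) * (1 / (w - a))) + t + deriv e w)
        ((∑ a ∈ S, (m a : ℂ) * (-(1 / (z - a) ^ 2))) + deriv (deriv e) z) z := by
      refine ((HasDerivAt.fun_sum fun a ha => ?_).add_const t).add hde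
      have h1 : HasDerivAt (fun w : ℂ => w - a) 1 z := (hasDerivAt_id z).sub_const a
      have h2 := (h1.inv (hza a ha)).const_mul (m a : ℂ)
      have e : (fun w : ℂ => (m a : ℂ) * (1 / (w - a))) = fun w => (m a : ℂ) * (w - a)⁻¹ := by
        funext w
        rw [one_div]
      rw [e]
      refine h2.congr_deriv ?_
      rw [neg_div]
    have hEq := hL.unique (hR.congr_of_eventuallyEq hev)
    have e3 : (∑ a ∈ S, (m a : ℂ) / (z - a) ^ 2) -
        ((deriv F z / F z) ^ 2 - deriv (deriv F) z / F z) = deriv (deriv e) z := by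
      have e4 : ∑ a ∈ S, (m a : ℂ) / (z - a) ^ 2 = -∑ a ∈ S, (m a : ℂ) * (-(1 / (z - a) ^ 2)) := by
        rw [← Finset.sum_neg_distrib]
        refine Finset.sum_congr rfl fun a ha => ?_
        ring
      rw [e4]
      linear_combination hEq
    rw [e3]
    exact he2 z hz

theorem small_const' (K r : ℝ) (hK : 0 ≤ K) :
    Tendsto (fun n : ℕ => 16 * (K * (1 + 4 * ((n : ℝ) + 1)) ^ (3 / 2 : ℝ) + 1) *
      (r / ((n : ℝ) + 1)) ^ 2) atTop (𝓝 0) := Pool.Agent.H260.CH.small_const K r hK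

/-- Mittag-Leffler expansions for entire functions of order `3/2` -/
theorem mittag {F : ℂ → ℂ} (hF : Differentiable ℂ F) (h0 : F 0 = 1)
    {K : ℝ} (hK : 0 ≤ K) (hgr : ∀ z, ‖F z‖ ≤ Real.exp (K * (1 + ‖z‖) ^ (3 / 2 : ℝ))) :
    ∃ (S : ℕ → Finset ℂ) (m : ℕ → ℂ → ℕ), (∀ N, ∀ a ∈ S N, F a = 0) ∧
      (∀ z, F z ≠ 0 → Tendsto (fun N => ∑ a ∈ S N, (m N a : ℂ) * (1 / (z - a) + 1 / a)) atTop
        (𝓝 (deriv F z / F z - deriv F 0 / F 0))) ∧
      (∀ z, F z ≠ 0 → Tendsto (fun N => ∑ a ∈ S N, (m N a : ℂ) / (z - a) ^ 2) atTop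
        (𝓝 ((deriv F z / F z) ^ 2 - deriv (deriv F) z / F z))) := by
  have H : ∀ n : ℕ, ∃ (S : Finset ℂ) (m : ℂ → ℕ), (∀ a ∈ S, F a = 0) ∧
      ∀ z, F z ≠ 0 → ‖z‖ + 2 < ((n : ℝ) + 1) / 2 →
      ‖(∑ a ∈ S, (m a : ℂ) * (1 / (z - a) + 1 / a)) - (deriv F z / F z - deriv F 0 / F 0)‖ ≤
        2 * (16 * (K * (1 + 4 * ((n : ℝ) + 1)) ^ (3 / 2 : ℝ) + 1) *
          ((‖z‖ + 1) / ((n : ℝ) + 1)) ^ 2) ∧
      ‖(∑ a ∈ S, (m a : ℂ) / (z - a) ^ 2) -
        ((deriv F z / F z) ^ 2 - deriv (deriv F) z / F z)‖ ≤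
        16 * (K * (1 + 4 * ((n : ℝ) + 1)) ^ (3 / 2 : ℝ) + 1) *
          ((‖z‖ + 2) / ((n : ℝ) + 1)) ^ 2 :=
    fun n => one_radius_log hF h0 hK hgr (by positivity)
  choose S m hSF hlim using H
  refine ⟨S, m, hSF, fun z hz => ?_, fun z hz => ?_⟩
  · rw [tendsto_iff_norm_sub_tendsto_zero]
    have h1 := (small_const' K (‖z‖ + 1) hK).const_mul 2
    rw [mul_zero] at h1
    refine squeeze_zero' (Eventually.of_forall fun n => norm_nonneg _) ?_ h1
    have hbig : ∀ᶠ n : ℕ in atTop, 2 * (‖z‖ + 2) < (n : ℝ) :=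
      tendsto_natCast_atTop_atTop.eventually (eventually_gt_atTop _)
    filter_upwards [hbig] with n hn
    exact (hlim n z hz (by linarith)).1
  · rw [tendsto_iff_norm_sub_tendsto_zero]
    have h1 := small_const' K (‖z‖ + 2) hK
    refine squeeze_zero' (Eventually.of_forall fun n => norm_nonneg _) ?_ h1
    have hbig : ∀ᶠ n : ℕ in atTop, 2 * (‖z‖ + 2) < (n : ℝ) :=
      tendsto_natCast_atTop_atTop.eventually (eventually_gt_atTop _)
    filter_upwards [hbig] with n hn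
    exact (hlim n z hz (by linarith)).2

theorem Ai_zero_ne : Ai 0 ≠ 0 := Pool.Agent.H140R2.FR.Ai_ne_zero 0 (Or.inr (by simp))

theorem t_HADA : S_HADA := by
  classical
  have hA0 : Ai 0 ≠ 0 := Ai_zero_ne
  set F : ℂ → ℂ := fun z => Ai z / Ai 0 with hFdef
  have hF : Differentiable ℂ F := Pool.Agent.H140R2.FR.Ai_differentiable.div_const _
  have h0 : F 0 = 1 := div_self hA0
  obtain ⟨K, hK, hgr⟩ := t_GROW
  have hgr' : ∃ K' : ℝ, 0 ≤ K' ∧ ∀ z, ‖F z‖ ≤ Real.exp (K' * (1 + ‖z‖) ^ (3 / 2 : ℝ)) := by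
    refine ⟨K + |Real.log ‖Ai 0‖|, by positivity, fun z => ?_⟩
    have hn : 0 < ‖Ai 0‖ := norm_pos_iff.2 hA0
    rw [hFdef]
    simp only
    rw [norm_div, div_le_iff₀ hn, add_mul, Real.exp_add]
    have h1 : 1 ≤ (1 + ‖z‖) ^ (3 / 2 : ℝ) := by
      refine Real.one_le_rpow (by linarith [norm_nonneg z]) (by norm_num)
    have h2 : 1 ≤ Real.exp (|Real.log ‖Ai 0‖| * (1 + ‖z‖) ^ (3 / 2 : ℝ)) * ‖Ai 0‖ := by
      have h3 : Real.exp (Real.log ‖Ai 0‖) = ‖Ai 0‖ := Real.exp_log hn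
      calc (1 : ℝ) = Real.exp 0 := Real.exp_zero.symm
        _ ≤ Real.exp (|Real.log ‖Ai 0‖| * (1 + ‖z‖) ^ (3 / 2 : ℝ) + Real.log ‖Ai 0‖) := by
            rw [Real.exp_le_exp]
            have h4 := neg_abs_le (Real.log ‖Ai 0‖)
            have h5 := abs_nonneg (Real.log ‖Ai 0‖)
            nlinarith
        _ = _ := by rw [Real.exp_add, h3]
    calc ‖Ai z‖ ≤ Real.exp (K * (1 + ‖z‖) ^ (3 / 2 : ℝ)) := hgr z
      _ ≤ Real.exp (K * (1 + ‖z‖) ^ (3 / 2 : ℝ)) *
          (Real.exp (|Real.log ‖Ai 0‖| * (1 + ‖z‖) ^ (3 / 2 : ℝ)) * ‖Ai 0‖) :=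
          le_mul_of_one_le_right (Real.exp_pos _).le h2
      _ = _ := by ring
  obtain ⟨K', hK', hgr'⟩ := hgr'
  obtain ⟨S, m, hSF, hl1, hl2⟩ := mittag hF h0 hK' hgr'
  -- the zeros
  have hz : ∀ N, ∀ a ∈ S N, a.im = 0 ∧ a.re < 0 := by
    intro N a ha
    have h1 : Ai a = 0 := by
      have := hSF N a ha
      rw [hFdef] at this
      simp only at this
      rcases div_eq_zero_iff.1 this with h | h
      · exact h
      · exact absurd h hA0
    by_contra hcon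
    refine Pool.Agent.H140R2.FR.Ai_ne_zero a ?_ h1
    by_cases him : a.im = 0
    · right
      by_contra hre
      exact hcon ⟨him, not_le.1 hre⟩
    · exact Or.inl him
  have hcast : ∀ N, ∀ a ∈ S N, ((-((-a.re : ℝ)) : ℝ) : ℂ) = a := by
    intro N a ha
    rw [neg_neg]
    exact Complex.ext (by simp) (by simp [(hz N a ha).1])
  have hinj : ∀ N, Set.InjOn (fun a : ℂ => -a.re) (S N : Set ℂ) := by
    intro N a ha b hb hab
    have h1 := hcast N a ha
    have h2 := hcast N b hb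
    simp only at hab
    rw [← h1, ← h2, hab]
  have hsum : ∀ N (f : ℂ → ℂ), ∑ a ∈ (S N).image (fun a : ℂ => -a.re), f ((-a : ℝ) : ℂ) =
      ∑ a ∈ S N, f a := by
    intro N f
    rw [Finset.sum_image (hinj N)]
    exact Finset.sum_congr rfl fun a ha => by rw [hcast N a ha]
  have hderivF : ∀ z, deriv F z = deriv Ai z / Ai 0 := fun z => by
    rw [hFdef]
    exact deriv_div_const _
  have hderivF2 : ∀ z, deriv (deriv F) z = z * Ai z / Ai 0 := fun z => by
    have : deriv F = fun z => deriv Ai z / Ai 0 := funext hderivF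
    rw [this, deriv_div_const, Pool.Agent.H140R2.FR.Ai_ode]
  have hAiw : ∀ ω : ℝ, Ai (I * (ω : ℂ)) ≠ 0 := fun ω =>
    Pool.Agent.H140R2.FR.Ai_ne_zero _ (Or.inr (by simp))
  have hFw : ∀ ω : ℝ, F (I * (ω : ℂ)) ≠ 0 := fun ω => div_ne_zero (hAiw ω) hA0
  have hq : ∀ ω : ℝ, deriv F (I * (ω : ℂ)) / F (I * (ω : ℂ)) = qA ω := by
    intro ω
    rw [hderivF, hFdef]
    unfold qA
    have := hAiw ω
    field_simp
  have hq0 : deriv F 0 / F 0 = qA 0 := by
    have := hq 0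
    simpa using this
  have H1 : ∀ ω : ℝ, Tendsto (fun N => ∑ a ∈ (S N).image (fun a : ℂ => -a.re),
      ((m N ((-a : ℝ) : ℂ)) : ℂ) * (1 / (I * (ω : ℂ) + (a : ℂ)) - 1 / (a : ℂ)))
    atTop (𝓝 (qA ω - qA 0)) := by
    intro ω
    have h := hl1 (I * (ω : ℂ)) (hFw ω)
    rw [hq, hq0] at h
    refine h.congr fun N => ?_
    rw [← hsum N fun a => (m N a : ℂ) * (1 / (I * (ω : ℂ) - a) + 1 / a)]
    refine Finset.sum_congr rfl fun a ha => ?_
    push_cast
    rw [sub_neg_eq_add, div_neg]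
    ring
  have H2 : ∀ ω : ℝ, Tendsto (fun N => ∑ a ∈ (S N).image (fun a : ℂ => -a.re),
      ((m N ((-a : ℝ) : ℂ)) : ℂ) / (I * (ω : ℂ) + (a : ℂ)) ^ 2)
    atTop (𝓝 (qA ω ^ 2 - I * (ω : ℂ))) := by
    intro ω
    have h := hl2 (I * (ω : ℂ)) (hFw ω)
    have e : deriv (deriv F) (I * (ω : ℂ)) / F (I * (ω : ℂ)) = I * (ω : ℂ) := by
      rw [hderivF2, hFdef]
      have := hAiw ω
      field_simp
    rw [hq, e] at h
    refine h.congr fun N => ?_
    rw [← hsum N fun a => (m N a : ℂ) / (I * (ω : ℂ) - a) ^ 2]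
    refine Finset.sum_congr rfl fun a ha => ?_
    push_cast
    rw [sub_neg_eq_add]
  refine ⟨fun N => (S N).image (fun a : ℂ => -a.re), fun N a => m N ((-a : ℝ) : ℂ), ?_, ?_, H1, H2⟩
  · intro N a ha
    obtain ⟨b, hb, rfl⟩ := Finset.mem_image.1 ha
    have := (hz N b hb).2
    linarith
  · have h := H2 0
    have hre := (Complex.continuous_re.tendsto _).comp h
    obtain ⟨B, hB⟩ := hre.bddAbove_range
    refine ⟨B, fun N => ?_⟩
    have h1 := hB (mem_range_self N)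
    refine le_trans (le_of_eq ?_) h1
    simp only [Function.comp_apply, ofReal_zero, mul_zero, zero_add, Complex.re_sum]
    refine Finset.sum_congr rfl fun a _ => ?_
    rw [show ((m N ((-a : ℝ) : ℂ)) : ℂ) / (a : ℂ) ^ 2 =
      (((m N ((-a : ℝ) : ℂ) : ℝ) / a ^ 2 : ℝ) : ℂ) by push_cast; rfl, Complex.ofReal_re]

end Pool.Agent.H260.CV
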