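import Pool.Agent.H260.CV.Stm
import Pool.Agent.H260.CH.Fin

/-! Project CV (helper260), piece KER by helper271: the kernel inequality. -/

set_option autoImplicit false

open Complex MeasureTheory Set Filter Topology Polynomial
open Pool.Agent.H140R2.FR (Ai)
open Pool.Agent.R748.CH

namespace Pool.Agent.H271.CVK

open Pool.Agent.H260.CV

lemma hrel {φ : ℝ → ℂ} (hφ : Mom φ) (α : ℝ) (j : ℕ) (x : ℝ) :
    RT (fun ω : ℝ => φ ω / (1 + I * (ω : ℂ) / (α : ℂ))) j x +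
      RT (fun ω : ℝ => φ ω / (1 + I * (ω : ℂ) / (α : ℂ))) (j + 1) x / α = RT φ j x := by
  set ψ : ℝ → ℂ := fun ω : ℝ => φ ω / (1 + I * (ω : ℂ) / (α : ℂ)) with hψ
  have hM : Mom ψ := CLOSEpf.mom_close hφ α
  obtain ⟨-, a2, -, a4, -⟩ := t_TR ψ hM j
  obtain ⟨-, b2, -, b4, -⟩ := t_TR ψ hM (j + 1)
  obtain ⟨-, c2, -, -, -⟩ := t_TR φ hφ j
  have h : Tr ψ j x + Tr ψ (j + 1) x / (α : ℂ) = Tr φ j x := by
    unfold Tr
    rw [← integral_div, ← integral_add (a4 x) ((b4 x).div_const _)]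
    refine integral_congr_ae (ae_of_all _ fun ω => ?_)
    have h0 := CLOSEpf.den_ne α ω
    have h1 : φ ω = ψ ω * (1 + I * (ω : ℂ) / (α : ℂ)) := by
      rw [hψ]
      exact (div_mul_cancel₀ _ h0).symm
    simp only
    rw [h1]
    ring
  rw [a2, b2, c2] at h
  exact_mod_cast h

/-- derivative of `LL` -/
noncomputable def DL (φ : ℝ → ℂ) (c0 c1 c2 c3 x : ℝ) : ℝ :=
  c0 * RT φ 1 x + c1 * RT φ 2 x + c2 * RT φ 3 x + c3 * RT φ 4 x

lemma LL_der {φ : ℝ → ℂ} (hφ : Mom φ) (c0 c1 c2 c3 x : ℝ) :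
    HasDerivAt (LL φ c0 c1 c2 c3) (DL φ c0 c1 c2 c3 x) x := by
  have hd : ∀ (j : ℕ) (x : ℝ), HasDerivAt (RT φ j) (RT φ (j + 1) x) x := fun j => (t_TR φ hφ j).1
  unfold LL DL
  exact ((((hd 0 x).const_mul c0).add ((hd 1 x).const_mul c1)).add ((hd 2 x).const_mul c2)).add
    ((hd 3 x).const_mul c3)

lemma LL_rel {φ : ℝ → ℂ} (hφ : Mom φ) (α c0 c1 c2 c3 x : ℝ) :
    LL φ c0 c1 c2 c3 x = LL (fun ω : ℝ => φ ω / (1 + I * (ω : ℂ) / (α : ℂ))) c0 c1 c2 c3 x +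
      DL (fun ω : ℝ => φ ω / (1 + I * (ω : ℂ) / (α : ℂ))) c0 c1 c2 c3 x / α := by
  have r0 := hrel hφ α 0 x
  have r1 := hrel hφ α 1 x
  have r2 := hrel hφ α 2 x
  have r3 := hrel hφ α 3 x
  simp only [zero_add, Nat.reduceAdd] at r0 r1 r2 r3
  unfold LL DL
  rw [← r0, ← r1, ← r2, ← r3]
  ring

lemma LL_bd {φ : ℝ → ℂ} (hφ : Mom φ) (c0 c1 c2 c3 : ℝ) :
    ∃ C : ℝ, 0 < C ∧ ∀ x, |LL φ c0 c1 c2 c3 x| ≤ C := by
  obtain ⟨C0, hC0⟩ := (t_TR φ hφ 0).2.2.1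
  obtain ⟨C1, hC1⟩ := (t_TR φ hφ 1).2.2.1
  obtain ⟨C2, hC2⟩ := (t_TR φ hφ 2).2.2.1
  obtain ⟨C3, hC3⟩ := (t_TR φ hφ 3).2.2.1
  refine ⟨|c0| * C0 + |c1| * C1 + |c2| * C2 + |c3| * C3 + 1, ?_, fun x => ?_⟩
  · have a0 := (abs_nonneg _).trans (hC0 0)
    have a1 := (abs_nonneg _).trans (hC1 0)
    have a2 := (abs_nonneg _).trans (hC2 0)
    have a3 := (abs_nonneg _).trans (hC3 0)
    positivity
  · unfold LL
    have b0 : |c0 * RT φ 0 x| ≤ |c0| * C0 := by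
      rw [abs_mul]; exact mul_le_mul_of_nonneg_left (hC0 x) (abs_nonneg _)
    have b1 : |c1 * RT φ 1 x| ≤ |c1| * C1 := by
      rw [abs_mul]; exact mul_le_mul_of_nonneg_left (hC1 x) (abs_nonneg _)
    have b2 : |c2 * RT φ 2 x| ≤ |c2| * C2 := by
      rw [abs_mul]; exact mul_le_mul_of_nonneg_left (hC2 x) (abs_nonneg _)
    have b3 : |c3 * RT φ 3 x| ≤ |c3| * C3 := by
      rw [abs_mul]; exact mul_le_mul_of_nonneg_left (hC3 x) (abs_nonneg _)
    rw [abs_le] at b0 b1 b2 b3 ⊢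
    constructor <;> linarith [b0.1, b0.2, b1.1, b1.2, b2.1, b2.2, b3.1, b3.2]

lemma lim_aux (a K : ℝ) (ha : 0 < a) :
    Tendsto (fun x : ℝ => Real.exp (a * x) * (K + K * |x|)) atBot (𝓝 0) := by
  have h1 : Tendsto (fun t : ℝ => a * t) atTop atTop := tendsto_id.const_mul_atTop ha
  have h2 := (Real.tendsto_pow_mul_exp_neg_atTop_nhds_zero 1).comp h1
  have h3 := (Real.tendsto_pow_mul_exp_neg_atTop_nhds_zero 0).comp h1
  have h4 : Tendsto (fun t : ℝ => K * ((a * t) ^ 0 * Real.exp (-(a * t))) +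
      K / a * ((a * t) ^ 1 * Real.exp (-(a * t)))) atTop (𝓝 (K * 0 + K / a * 0)) :=
    (h3.const_mul K).add (h2.const_mul (K / a))
  rw [mul_zero, mul_zero, add_zero] at h4
  have h5 := h4.comp tendsto_neg_atBot_atTop
  refine h5.congr' ?_
  filter_upwards [eventually_le_atBot (0 : ℝ)] with x hx
  simp only [Function.comp_apply]
  rw [abs_of_nonpos hx]
  have e : -(a * -x) = a * x := by ring
  rw [e]
  field_simp

theorem t_KER : S_KER := by
  intro c0 c1 c2 a xs y ha hxy hF1 hF2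
  have ha0 : a ≠ 0 := ha.ne'
  have hM0 : Mom ph0 := Pool.Agent.H260.CH.hPH.1
  have hM1 : Mom (d1 a) := CLOSEpf.mom_close hM0 a
  have hM2 : Mom (d2 a) := CLOSEpf.mom_close hM1 a
  have r1 : ∀ x, LL ph0 c0 c1 c2 1 x = LL (d1 a) c0 c1 c2 1 x + DL (d1 a) c0 c1 c2 1 x / a :=
    fun x => LL_rel hM0 a c0 c1 c2 1 x
  have r2 : ∀ x, LL (d1 a) c0 c1 c2 1 x = LL (d2 a) c0 c1 c2 1 x + DL (d2 a) c0 c1 c2 1 x / a :=
    fun x => LL_rel hM1 a c0 c1 c2 1 x
  obtain ⟨C1, hC1p, hC1⟩ := LL_bd hM1 c0 c1 c2 1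
  obtain ⟨C2, hC2p, hC2⟩ := LL_bd hM2 c0 c1 c2 1
  set W : ℝ → ℝ := fun x => Real.exp (a * x) * (LL (d2 a) c0 c1 c2 1 x / a ^ 2 -
    (x - xs) * (LL (d1 a) c0 c1 c2 1 x / a)) with hW
  have hW' : ∀ x, HasDerivAt W (-((x - xs) * Real.exp (a * x) * LL ph0 c0 c1 c2 1 x)) x := by
    intro x
    have hexp : HasDerivAt (fun x : ℝ => Real.exp (a * x)) (Real.exp (a * x) * (a * 1)) x :=
      ((hasDerivAt_id x).const_mul a).exp
    have h1 := (LL_der hM2 c0 c1 c2 1 x).div_const (a ^ 2)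
    have h2 := ((hasDerivAt_id x).sub_const xs).mul ((LL_der hM1 c0 c1 c2 1 x).div_const a)
    have h3 := hexp.mul (h1.sub h2)
    refine h3.congr_deriv ?_
    simp only [id, Pi.sub_apply, Pi.mul_apply]
    have e1 := r1 x
    have e2 := r2 x
    rw [e1]
    have e3 : DL (d2 a) c0 c1 c2 1 x = a * (LL (d1 a) c0 c1 c2 1 x - LL (d2 a) c0 c1 c2 1 x) := by
      rw [e2]; field_simp; ring
    rw [e3]
    field_simp
    ring
  have hmono : MonotoneOn W (Iic y) := by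
    refine monotoneOn_of_deriv_nonneg (convex_Iic y)
      (fun x _ => (hW' x).continuousAt.continuousWithinAt)
      (fun x _ => (hW' x).differentiableAt.differentiableWithinAt) (fun x hx => ?_)
    rw [interior_Iic] at hx
    rw [(hW' x).deriv]
    have he := (Real.exp_pos (a * x)).le
    rcases le_total x xs with h | h
    · have h1 := hF1 x h
      have h2 : (x - xs) * Real.exp (a * x) ≤ 0 := mul_nonpos_of_nonpos_of_nonneg (by linarith) he
      have h3 := mul_nonpos_of_nonpos_of_nonneg h2 h1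
      linarith
    · have h1 := hF2 x h (le_of_lt hx)
      have h2 : 0 ≤ (x - xs) * Real.exp (a * x) := mul_nonneg (by linarith) he
      have h3 := mul_nonpos_of_nonneg_of_nonpos h2 h1
      linarith
  have hlim : Tendsto W atBot (𝓝 0) := by
    have hK := lim_aux a (C2 / a ^ 2 + (|xs| + 1) * (C1 / a)) ha
    refine squeeze_zero_norm (fun x => ?_) hK
    simp only [hW]
    rw [Real.norm_eq_abs, abs_mul, abs_of_pos (Real.exp_pos _)]
    refine mul_le_mul_of_nonneg_left ?_ (Real.exp_pos _).le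
    have b1 : |LL (d2 a) c0 c1 c2 1 x / a ^ 2| ≤ C2 / a ^ 2 := by
      rw [abs_div, abs_of_pos (pow_pos ha 2)]
      exact div_le_div_of_nonneg_right (hC2 x) (pow_pos ha 2).le
    have b2 : |LL (d1 a) c0 c1 c2 1 x / a| ≤ C1 / a := by
      rw [abs_div, abs_of_pos ha]
      exact div_le_div_of_nonneg_right (hC1 x) ha.le
    have b3 : |(x - xs) * (LL (d1 a) c0 c1 c2 1 x / a)| ≤ (|x| + |xs|) * (C1 / a) := by
      rw [abs_mul]
      exact mul_le_mul (abs_sub x xs) b2 (abs_nonneg _) (by positivity)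
    have b4 := abs_sub (LL (d2 a) c0 c1 c2 1 x / a ^ 2) ((x - xs) * (LL (d1 a) c0 c1 c2 1 x / a))
    have q1 : 0 < C1 / a := div_pos hC1p ha
    have q2 : 0 < C2 / a ^ 2 := div_pos hC2p (pow_pos ha 2)
    have q3 := abs_nonneg x
    have q4 := abs_nonneg xs
    nlinarith [mul_nonneg q3 q2.le, mul_nonneg (mul_nonneg q4 q3) q1.le, mul_nonneg q3 q1.le,
      mul_nonneg q4 q1.le]
  have hWy : 0 ≤ W y := by
    refine le_of_tendsto hlim ?_
    filter_upwards [eventually_le_atBot y] with x hx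
    exact hmono hx (le_refl y) hx
  have he : 0 < Real.exp (a * y) := Real.exp_pos _
  have h1 : 0 ≤ LL (d2 a) c0 c1 c2 1 y / a ^ 2 - (y - xs) * (LL (d1 a) c0 c1 c2 1 y / a) := by
    by_contra hcon
    push Not at hcon
    have := mul_neg_of_pos_of_neg he hcon
    simp only [hW] at hWy
    linarith
  linarith

end Pool.Agent.H271.CVK
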