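import Pool.Agent.H260.CH.Fou
import Pool.Agent.H260.CV.Stm

/-! Project CV: the logarithmic derivative of Chernoff's density -/

set_option autoImplicit false

open Complex MeasureTheory Set Filter Topology Polynomial
open Pool.Agent.H140R2.FR (Ai)
open Pool.Agent.R748.CH

namespace Pool.Agent.H260.CV

/-- `(log p)'` -/
noncomputable def r0 (x : ℝ) : ℝ := RT ph0 1 x / RT ph0 0 x

/-- `(log p)''` -/
noncomputable def r1 (x : ℝ) : ℝ := RT ph0 2 x / RT ph0 0 x - (RT ph0 1 x / RT ph0 0 x) ^ 2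

/-- `(log p)'''` -/
noncomputable def r2 (x : ℝ) : ℝ := RT ph0 3 x / RT ph0 0 x -
  3 * (RT ph0 1 x / RT ph0 0 x) * (RT ph0 2 x / RT ph0 0 x) + 2 * (RT ph0 1 x / RT ph0 0 x) ^ 3

/-- `(log p)''''` -/
noncomputable def r3 (x : ℝ) : ℝ := (RT ph0 0 x ^ 3 * RT ph0 4 x -
    4 * RT ph0 0 x ^ 2 * RT ph0 1 x * RT ph0 3 x -
    3 * RT ph0 0 x ^ 2 * RT ph0 2 x ^ 2 + 12 * RT ph0 0 x * RT ph0 1 x ^ 2 * RT ph0 2 x -
    6 * RT ph0 1 x ^ 4) / RT ph0 0 x ^ 4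

theorem hasDeriv_quot (j : ℕ) (x : ℝ) : HasDerivAt (fun x => RT ph0 j x / RT ph0 0 x)
    (RT ph0 (j + 1) x / RT ph0 0 x - RT ph0 j x / RT ph0 0 x * (RT ph0 1 x / RT ph0 0 x)) x := by
  have hp : RT ph0 0 x ≠ 0 := (Pool.Agent.H260.CH.hGG.1 x).ne'
  have h := ((t_TR ph0 Pool.Agent.H260.CH.hPH.1 j).1 x).div
    ((t_TR ph0 Pool.Agent.H260.CH.hPH.1 0).1 x) hp
  refine h.congr_deriv ?_
  simp only [zero_add]
  field_simp

theorem hasDeriv_r0 (x : ℝ) : HasDerivAt r0 (r1 x) x := by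
  have h := hasDeriv_quot 1 x
  refine h.congr_deriv ?_
  unfold r1
  ring

theorem hasDeriv_r1 (x : ℝ) : HasDerivAt r1 (r2 x) x := by
  have h := (hasDeriv_quot 2 x).sub ((hasDeriv_quot 1 x).pow 2)
  refine h.congr_deriv ?_
  unfold r2
  simp only [Nat.reduceAdd, Nat.reduceSub, Nat.cast_ofNat, pow_one]
  ring

theorem hasDeriv_r2 (x : ℝ) : HasDerivAt r2 (r3 x) x := by
  have hp : RT ph0 0 x ≠ 0 := (Pool.Agent.H260.CH.hGG.1 x).ne'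
  have h := ((hasDeriv_quot 3 x).sub (((hasDeriv_quot 1 x).const_mul 3).mul
    (hasDeriv_quot 2 x))).add (((hasDeriv_quot 1 x).pow 3).const_mul 2)
  refine h.congr_deriv ?_
  unfold r3
  simp only [Nat.reduceAdd, Nat.reduceSub, Nat.cast_ofNat]
  field_simp
  ring

theorem fZ_eq (t : ℝ) : fZ t = 1 / 2 * ((2 : ℝ) ^ ((2 : ℝ) / 3) / (2 * Real.pi)) ^ 2 *
    (RT ph0 0 (-((2 : ℝ) ^ ((1 : ℝ) / 3) * t)) * RT ph0 0 ((2 : ℝ) ^ ((1 : ℝ) / 3) * t)) := by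
  unfold fZ
  rw [Pool.Agent.H260.CH.gre, Pool.Agent.H260.CH.gre]
  have e : -(2 : ℝ) ^ ((1 : ℝ) / 3) * -t = (2 : ℝ) ^ ((1 : ℝ) / 3) * t := by ring
  have e2 : -(2 : ℝ) ^ ((1 : ℝ) / 3) * t = -((2 : ℝ) ^ ((1 : ℝ) / 3) * t) := by ring
  rw [e, e2]
  ring

theorem fZ_pos (t : ℝ) : 0 < fZ t := by
  rw [fZ_eq]
  have h1 := Pool.Agent.H260.CH.hGG.1 (-((2 : ℝ) ^ ((1 : ℝ) / 3) * t))
  have h2 := Pool.Agent.H260.CH.hGG.1 ((2 : ℝ) ^ ((1 : ℝ) / 3) * t)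
  positivity

theorem fZ_even (t : ℝ) : fZ (-t) = fZ t := by
  unfold fZ
  rw [neg_neg]
  ring

/-- `-(log f_Z)'` -/
noncomputable def hZ (t : ℝ) : ℝ := (2 : ℝ) ^ ((1 : ℝ) / 3) *
  (r0 (-((2 : ℝ) ^ ((1 : ℝ) / 3) * t)) - r0 ((2 : ℝ) ^ ((1 : ℝ) / 3) * t))

theorem hasDeriv_fZ (t : ℝ) : HasDerivAt fZ (-(hZ t) * fZ t) t := by
  set k : ℝ := (2 : ℝ) ^ ((1 : ℝ) / 3) with hk
  have hd : ∀ x, HasDerivAt (RT ph0 0) (RT ph0 1 x) x := (t_TR ph0 Pool.Agent.H260.CH.hPH.1 0).1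
  have h1 : HasDerivAt (fun t : ℝ => RT ph0 0 (k * t)) (RT ph0 1 (k * t) * k) t := by
    have h := (hd (k * t)).comp t ((hasDerivAt_id t).const_mul k)
    refine h.congr_deriv ?_
    simp
  have h2 : HasDerivAt (fun t : ℝ => RT ph0 0 (-(k * t))) (RT ph0 1 (-(k * t)) * (-k)) t := by
    have h := (hd (-(k * t))).comp t (((hasDerivAt_id t).const_mul k).neg)
    refine h.congr_deriv ?_
    simp
  have h3 := (h2.mul h1).const_mul (1 / 2 * ((2 : ℝ) ^ ((2 : ℝ) / 3) / (2 * Real.pi)) ^ 2)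
  have e : fZ = fun t => 1 / 2 * ((2 : ℝ) ^ ((2 : ℝ) / 3) / (2 * Real.pi)) ^ 2 *
    (RT ph0 0 (-(k * t)) * RT ph0 0 (k * t)) := by
    funext t
    rw [fZ_eq]
  rw [e]
  refine h3.congr_deriv ?_
  have hp1 : RT ph0 0 (-(k * t)) ≠ 0 := (Pool.Agent.H260.CH.hGG.1 _).ne'
  have hp2 : RT ph0 0 (k * t) ≠ 0 := (Pool.Agent.H260.CH.hGG.1 _).ne'
  unfold hZ r0
  rw [← hk]
  field_simp
  ring

theorem hasDeriv_hZ (t : ℝ) : HasDerivAt hZ (((2 : ℝ) ^ ((1 : ℝ) / 3)) ^ 2 *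
    (-(r1 (-((2 : ℝ) ^ ((1 : ℝ) / 3) * t))) - r1 ((2 : ℝ) ^ ((1 : ℝ) / 3) * t))) t := by
  set k : ℝ := (2 : ℝ) ^ ((1 : ℝ) / 3) with hk
  have h1 : HasDerivAt (fun t : ℝ => r0 (k * t)) (r1 (k * t) * (k * 1)) t :=
    (hasDeriv_r0 (k * t)).comp t ((hasDerivAt_id t).const_mul k)
  have h0 : HasDerivAt (fun t : ℝ => -(k * t)) (-(k * 1)) t := ((hasDerivAt_id t).const_mul k).neg
  have h2 : HasDerivAt (fun t : ℝ => r0 (-(k * t))) (r1 (-(k * t)) * (-(k * 1))) t :=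
    HasDerivAt.comp (h₂ := r0) (h := fun t : ℝ => -(k * t)) t (hasDeriv_r0 (-(k * t))) h0
  have h3 := (h2.sub h1).const_mul k
  have e : hZ = fun t => k * (r0 (-(k * t)) - r0 (k * t)) := by
    funext t
    rfl
  rw [e]
  refine h3.congr_deriv ?_
  ring

theorem hasDeriv_hZ' (t : ℝ) : HasDerivAt (fun t => ((2 : ℝ) ^ ((1 : ℝ) / 3)) ^ 2 *
    (-(r1 (-((2 : ℝ) ^ ((1 : ℝ) / 3) * t))) - r1 ((2 : ℝ) ^ ((1 : ℝ) / 3) * t)))
    (((2 : ℝ) ^ ((1 : ℝ) / 3)) ^ 3 *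
    (r2 (-((2 : ℝ) ^ ((1 : ℝ) / 3) * t)) - r2 ((2 : ℝ) ^ ((1 : ℝ) / 3) * t))) t := by
  set k : ℝ := (2 : ℝ) ^ ((1 : ℝ) / 3) with hk
  have h1 : HasDerivAt (fun t : ℝ => r1 (k * t)) (r2 (k * t) * (k * 1)) t :=
    (hasDeriv_r1 (k * t)).comp t ((hasDerivAt_id t).const_mul k)
  have h0 : HasDerivAt (fun t : ℝ => -(k * t)) (-(k * 1)) t := ((hasDerivAt_id t).const_mul k).neg
  have h2 : HasDerivAt (fun t : ℝ => r1 (-(k * t))) (r2 (-(k * t)) * (-(k * 1))) t :=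
    HasDerivAt.comp (h₂ := r1) (h := fun t : ℝ => -(k * t)) t (hasDeriv_r1 (-(k * t))) h0
  have h3 := (h2.neg.sub h1).const_mul (k ^ 2)
  refine h3.congr_deriv ?_
  ring

theorem r2_antitone (hK4 : S_K4) : Antitone r2 := by
  refine antitone_of_hasDerivAt_nonpos (fun x => hasDeriv_r2 x) fun x => ?_
  unfold r3
  exact div_nonpos_of_nonpos_of_nonneg (hK4 x) (by positivity)

theorem hZ_convex (hK4 : S_K4) : ConvexOn ℝ (Ici (0 : ℝ)) hZ := by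
  have hk : (0 : ℝ) < (2 : ℝ) ^ ((1 : ℝ) / 3) := by positivity
  refine convexOn_of_hasDerivWithinAt2_nonneg (convex_Ici 0)
    (fun x _ => (hasDeriv_hZ x).continuousAt.continuousWithinAt)
    (fun x _ => (hasDeriv_hZ x).hasDerivWithinAt) (fun x _ => (hasDeriv_hZ' x).hasDerivWithinAt)
    fun x hx => ?_
  rw [interior_Ici, mem_Ioi] at hx
  have h := r2_antitone hK4 (a := -((2 : ℝ) ^ ((1 : ℝ) / 3) * x))
    (b := (2 : ℝ) ^ ((1 : ℝ) / 3) * x) (by nlinarith [mul_pos hk hx])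
  have : 0 ≤ r2 (-((2 : ℝ) ^ ((1 : ℝ) / 3) * x)) - r2 ((2 : ℝ) ^ ((1 : ℝ) / 3) * x) := by linarith
  positivity

theorem t_LOGF (hK4 : S_K4) : S_LOGF :=
  ⟨hZ, hasDeriv_fZ, continuous_iff_continuousAt.2 fun x => (hasDeriv_hZ x).continuousAt,
    hZ_convex hK4⟩

end Pool.Agent.H260.CV
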