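import Pool.Agent.H260.CV.Stm
import Pool.Agent.H260.CH.Fou

/-!
# Project CV, MASS: Chernoff's density integrates to one
-/

set_option autoImplicit false

open Complex MeasureTheory Set Filter Topology
open Pool.Agent.H140R2.FR (Ai)
open Pool.Agent.R748.CH

namespace Pool.Agent.H687.CV

open Pool.Agent.H260.CH (hPH G_int G_fourier ph0_int gre Tr_eq)
open Pool.Agent.H260.CV

theorem prod_int : Integrable (fun z : ℝ × ℝ =>
    cexp (-(I * (z.2 : ℂ) * (z.1 : ℂ))) * (((RT ph0 0 z.1 : ℝ) : ℂ) * ph0 z.2))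
    ((volume : Measure ℝ).prod (volume : Measure ℝ)) := by
  have h1 := (G_int.ofReal (𝕜 := ℂ)).mul_prod ph0_int
  refine h1.bdd_mul (c := 1) ?_ ?_
  · exact (by fun_prop :
      Continuous fun z : ℝ × ℝ => cexp (-(I * (z.2 : ℂ) * (z.1 : ℂ)))).aestronglyMeasurable
  · refine ae_of_all _ fun z => ?_
    have : -(I * (z.2 : ℂ) * (z.1 : ℂ)) = ((-(z.2 * z.1) : ℝ) : ℂ) * I := by push_cast; ring
    rw [this, Complex.norm_exp_ofReal_mul_I]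

theorem parseval (h : S_WR) : ∫ u : ℝ, RT ph0 0 u * RT ph0 0 (-u) =
    (2 * Real.pi) * (2 * Real.pi) := by
  have h0 : (((∫ u : ℝ, RT ph0 0 u * RT ph0 0 (-u)) : ℝ) : ℂ) =
      ∫ u : ℝ, ∫ ω : ℝ, cexp (-(I * (ω : ℂ) * (u : ℂ))) * (((RT ph0 0 u : ℝ) : ℂ) * ph0 ω) := by
    rw [← integral_complex_ofReal]
    refine integral_congr_ae (ae_of_all _ fun u => ?_)
    simp only
    rw [Complex.ofReal_mul, ← Tr_eq (-u)]
    unfold Tr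
    rw [← integral_const_mul]
    refine integral_congr_ae (ae_of_all _ fun ω => ?_)
    simp only [pow_zero, one_mul]
    have : I * (ω : ℂ) * ((-u : ℝ) : ℂ) = -(I * (ω : ℂ) * (u : ℂ)) := by push_cast; ring
    rw [this]
    ring
  have h1 : (∫ u : ℝ, ∫ ω : ℝ, cexp (-(I * (ω : ℂ) * (u : ℂ))) *
      (((RT ph0 0 u : ℝ) : ℂ) * ph0 ω)) =
      ∫ ω : ℝ, ∫ u : ℝ, cexp (-(I * (ω : ℂ) * (u : ℂ))) * (((RT ph0 0 u : ℝ) : ℂ) * ph0 ω) :=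
    integral_integral_swap prod_int
  have h2 : (∫ ω : ℝ, ∫ u : ℝ, cexp (-(I * (ω : ℂ) * (u : ℂ))) *
      (((RT ph0 0 u : ℝ) : ℂ) * ph0 ω)) = ∫ ω : ℝ, ((2 * Real.pi : ℝ) : ℂ) * ph0 ω ^ 2 := by
    refine integral_congr_ae (ae_of_all _ fun ω => ?_)
    simp only
    have e : (fun u : ℝ => cexp (-(I * (ω : ℂ) * (u : ℂ))) * (((RT ph0 0 u : ℝ) : ℂ) * ph0 ω)) =
        fun u : ℝ => (cexp (-(I * (ω : ℂ) * (u : ℂ))) * ((RT ph0 0 u : ℝ) : ℂ)) * ph0 ω := by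
      funext u
      ring
    rw [e, integral_mul_const, G_fourier]
    ring
  have h3 : (((∫ u : ℝ, RT ph0 0 u * RT ph0 0 (-u)) : ℝ) : ℂ) =
      (((2 * Real.pi) * (2 * Real.pi) : ℝ) : ℂ) := by
    rw [h0, h1, h2, integral_const_mul, h]
    push_cast
    ring
  exact Complex.ofReal_injective h3

theorem fZ_eq (t : ℝ) : fZ t = (1 / 2) * ((2 : ℝ) ^ ((2 : ℝ) / 3) / (2 * Real.pi)) ^ 2 *
    (RT ph0 0 ((-(2 : ℝ) ^ ((1 : ℝ) / 3)) * t) * RT ph0 0 (-((-(2 : ℝ) ^ ((1 : ℝ) / 3)) * t))) := by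
  unfold fZ
  rw [gre t, gre (-t)]
  have : -((2 : ℝ) ^ ((1 : ℝ) / 3)) * -t = -((-(2 : ℝ) ^ ((1 : ℝ) / 3)) * t) := by ring
  rw [this]
  ring

theorem pp_int : Integrable (fun u : ℝ => RT ph0 0 u * RT ph0 0 (-u)) := by
  obtain ⟨C, hC⟩ := (t_TR ph0 hPH.1 0).2.2.1
  have hc : Continuous (RT ph0 0) :=
    continuous_iff_continuousAt.2 fun x => ((t_TR ph0 hPH.1 0).1 x).continuousAt
  have h1 : Integrable (fun u : ℝ => RT ph0 0 (-u)) := G_int.comp_neg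
  refine h1.bdd_mul (c := C) hc.aestronglyMeasurable (ae_of_all _ fun u => ?_)
  rw [Real.norm_eq_abs]
  exact hC u

theorem t_MASS (h : S_WR) : S_MASS := by
  have hk0 : (0 : ℝ) < (2 : ℝ) ^ ((1 : ℝ) / 3) := Real.rpow_pos_of_pos zero_lt_two _
  have hk2 : (2 : ℝ) ^ ((2 : ℝ) / 3) = (2 : ℝ) ^ ((1 : ℝ) / 3) * (2 : ℝ) ^ ((1 : ℝ) / 3) := by
    rw [← Real.rpow_add zero_lt_two]; norm_num
  have hk3 : (2 : ℝ) ^ ((1 : ℝ) / 3) * (2 : ℝ) ^ ((1 : ℝ) / 3) * (2 : ℝ) ^ ((1 : ℝ) / 3) = 2 := by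
    rw [← Real.rpow_add zero_lt_two, ← Real.rpow_add zero_lt_two]; norm_num
  have hf : fZ = fun t => (1 / 2) * ((2 : ℝ) ^ ((2 : ℝ) / 3) / (2 * Real.pi)) ^ 2 *
    (RT ph0 0 ((-(2 : ℝ) ^ ((1 : ℝ) / 3)) * t) *
      RT ph0 0 (-((-(2 : ℝ) ^ ((1 : ℝ) / 3)) * t))) := funext fZ_eq
  constructor
  · rw [hf]
    exact (pp_int.comp_mul_left' (neg_ne_zero.2 hk0.ne')).const_mul _
  · rw [hf, integral_const_mul]
    have h2 := MeasureTheory.Measure.integral_comp_mul_left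
      (fun u : ℝ => RT ph0 0 u * RT ph0 0 (-u)) (-(2 : ℝ) ^ ((1 : ℝ) / 3))
    rw [h2, parseval h, hk2]
    generalize (2 : ℝ) ^ ((1 : ℝ) / 3) = k at hk0 hk3 ⊢
    rw [abs_inv, abs_neg, abs_of_pos hk0, smul_eq_mul]
    have hpi := Real.pi_pos
    field_simp
    linarith

end Pool.Agent.H687.CV
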