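import Pool.Agent.H260.CV.Stm
import Pool.Agent.H260.CH.Fin
import Pool.Graph.R_seed8.H140R2.FR.T03Zeros
import Pool.Graph.R_seed8.R748.CH.TR

/-!
# Project CV (helper260), PARTS: integration by parts
-/

set_option autoImplicit false

open Complex MeasureTheory Set Filter Topology
open Pool.Agent.H140R2.FR (Ai)
open Pool.Agent.R748.CH Pool.Agent.H260.CV

namespace Pool.Agent.H740.CVP

/-- the exponential monomial -/
noncomputable def em (y : ℝ) (j : ℕ) (ω : ℝ) : ℂ := (I * (ω : ℂ)) ^ j * cexp (I * (ω : ℂ) * (y : ℂ))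

theorem em_cont (y : ℝ) (j : ℕ) : Continuous (em y j) := by
  unfold em; fun_prop

theorem em_norm (y : ℝ) (j : ℕ) (ω : ℝ) : ‖em y j ω‖ = |ω| ^ j := by
  unfold em
  rw [norm_mul, norm_pow, norm_mul, Complex.norm_I, one_mul, Complex.norm_real, Real.norm_eq_abs]
  have : I * (ω : ℂ) * (y : ℂ) = ((ω * y : ℝ) : ℂ) * I := by push_cast; ring
  rw [this, Complex.norm_exp_ofReal_mul_I, mul_one]

theorem em_deriv (y : ℝ) (j : ℕ) (ω : ℝ) :
    HasDerivAt (em y j) (I * ((j : ℂ) * em y (j - 1) ω + (y : ℂ) * em y j ω)) ω := by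
  have h0 : HasDerivAt (fun ω : ℝ => I * (ω : ℂ)) I ω := by
    simpa using (Complex.ofRealCLM.hasDerivAt (x := ω)).const_mul I
  have h1 : HasDerivAt (fun ω : ℝ => (I * (ω : ℂ)) ^ j) ((j : ℂ) * (I * (ω : ℂ)) ^ (j - 1) * I) ω :=
    h0.pow j
  have h2 : HasDerivAt (fun ω : ℝ => cexp (I * (ω : ℂ) * (y : ℂ)))
      (cexp (I * (ω : ℂ) * (y : ℂ)) * (I * (y : ℂ))) ω := (h0.mul_const (y : ℂ)).cexp
  have h3 := h1.mul h2
  unfold em
  refine h3.congr_deriv ?_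
  ring

/-- moments -/
structure MM (φ : ℝ → ℂ) : Prop where
  cont : Continuous φ
  mom : ∀ j : ℕ, Integrable (fun ω : ℝ => |ω| ^ j * ‖φ ω‖)

theorem MM.em {φ : ℝ → ℂ} (h : MM φ) (y : ℝ) (j : ℕ) : Integrable (fun ω => em y j ω * φ ω) := by
  refine (h.mom j).mono' ((em_cont y j).mul h.cont).aestronglyMeasurable ?_
  refine Eventually.of_forall fun ω => ?_
  rw [norm_mul, em_norm]

theorem MM.add {φ ψ : ℝ → ℂ} (h : MM φ) (h' : MM ψ) : MM (fun ω => φ ω + ψ ω) := by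
  refine ⟨h.cont.add h'.cont, fun j => ?_⟩
  refine ((h.mom j).add (h'.mom j)).mono'
    ((continuous_abs.pow j).mul (h.cont.add h'.cont).norm).aestronglyMeasurable ?_
  refine Eventually.of_forall fun ω => ?_
  have h1 : 0 ≤ |ω| ^ j := by positivity
  rw [Real.norm_of_nonneg (by positivity)]
  show _ ≤ |ω| ^ j * ‖φ ω‖ + |ω| ^ j * ‖ψ ω‖
  rw [← mul_add]
  exact mul_le_mul_of_nonneg_left (norm_add_le _ _) h1

theorem MM.smul {φ : ℝ → ℂ} (h : MM φ) (c : ℂ) : MM (fun ω => c * φ ω) := by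
  refine ⟨h.cont.const_mul c, fun j => ?_⟩
  refine ((h.mom j).const_mul ‖c‖).congr ?_
  refine Eventually.of_forall fun ω => ?_
  simp only [norm_mul]; ring

theorem MM.mulI {φ : ℝ → ℂ} (h : MM φ) : MM (fun ω => I * (ω : ℂ) * φ ω) := by
  refine ⟨by have := h.cont; fun_prop, fun j => ?_⟩
  refine (h.mom (j + 1)).congr ?_
  refine Eventually.of_forall fun ω => ?_
  simp only [norm_mul, Complex.norm_I, Complex.norm_real, Real.norm_eq_abs, one_mul, pow_succ]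
  ring

theorem MM.of {φ : ℝ → ℂ} (h : Mom φ) : MM φ := ⟨h.cont, h.mom⟩

theorem Tr_eq (φ : ℝ → ℂ) (j : ℕ) (y : ℝ) : Tr φ j y = ∫ ω : ℝ, em y j ω * φ ω := rfl

/-- integration by parts -/
theorem parts {φ ψ : ℝ → ℂ} (hφ : MM φ) (hψ : MM ψ) (hd : ∀ ω, HasDerivAt φ (ψ ω) ω) (j : ℕ)
    (y : ℝ) : Tr ψ j y = -I * ((j : ℂ) * Tr φ (j - 1) y + (y : ℂ) * Tr φ j y) := by
  rw [Tr_eq, Tr_eq, Tr_eq]
  have i1 := hψ.em y j
  have i2 := hφ.em y j
  have i3 := hφ.em y (j - 1)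
  have e : ∀ ω, I * ((j : ℂ) * CVP.em y (j - 1) ω + (y : ℂ) * CVP.em y j ω) * φ ω =
      I * (j : ℂ) * (CVP.em y (j - 1) ω * φ ω) + I * (y : ℂ) * (CVP.em y j ω * φ ω) := by
    intro ω; ring
  have i4 : Integrable (fun ω => I * ((j : ℂ) * CVP.em y (j - 1) ω + (y : ℂ) * CVP.em y j ω) *
      φ ω) := by
    simp only [e]
    exact (i3.const_mul _).add (i2.const_mul _)
  have h := integral_mul_deriv_eq_deriv_mul_of_integrable (u := CVP.em y j) (v := φ)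
    (u' := fun ω => I * ((j : ℂ) * CVP.em y (j - 1) ω + (y : ℂ) * CVP.em y j ω)) (v' := ψ)
    (fun ω _ => em_deriv y j ω) (fun ω _ => hd ω) i1 i4 i2
  rw [h]
  simp only [e]
  rw [integral_add (i3.const_mul _) (i2.const_mul _), integral_const_mul, integral_const_mul]
  ring

theorem Tr_add {φ ψ : ℝ → ℂ} (hφ : MM φ) (hψ : MM ψ) (j : ℕ) (y : ℝ) :
    Tr (fun ω => φ ω + ψ ω) j y = Tr φ j y + Tr ψ j y := by
  rw [Tr_eq, Tr_eq, Tr_eq, ← integral_add (hφ.em y j) (hψ.em y j)]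
  congr 1
  funext ω
  ring

theorem Tr_smul (φ : ℝ → ℂ) (c : ℂ) (j : ℕ) (y : ℝ) :
    Tr (fun ω => c * φ ω) j y = c * Tr φ j y := by
  rw [Tr_eq, Tr_eq, ← integral_const_mul]
  congr 1
  funext ω
  ring

theorem Tr_mulI (φ : ℝ → ℂ) (j : ℕ) (y : ℝ) :
    Tr (fun ω => I * (ω : ℂ) * φ ω) j y = Tr φ (j + 1) y := by
  rw [Tr_eq, Tr_eq]
  congr 1
  funext ω
  unfold em
  rw [pow_succ]
  ring

theorem Ai_ne (ω : ℝ) : Ai (I * (ω : ℂ)) ≠ 0 := by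
  apply Pool.Agent.H140R2.FR.Ai_ne_zero
  right
  simp

theorem hI (ω : ℝ) : HasDerivAt (fun ω : ℝ => I * (ω : ℂ)) I ω := by
  simpa using (Complex.ofRealCLM.hasDerivAt (x := ω)).const_mul I

theorem Ai_d (ω : ℝ) : HasDerivAt (fun ω : ℝ => Ai (I * (ω : ℂ)))
    (deriv Ai (I * (ω : ℂ)) * I) ω :=
  HasDerivAt.comp_of_eq (h₂ := Ai) (h := fun ω : ℝ => I * (ω : ℂ)) ω
    (Pool.Agent.H140R2.FR.Ai_differentiable (I * (ω : ℂ))).hasDerivAt (hI ω) rfl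

theorem Ai_d2 (ω : ℝ) : HasDerivAt (fun ω : ℝ => deriv Ai (I * (ω : ℂ)))
    (I * (ω : ℂ) * Ai (I * (ω : ℂ)) * I) ω := by
  have hd : Differentiable ℂ (deriv Ai) := by
    have h1 : DifferentiableOn ℂ Ai univ :=
      Pool.Agent.H140R2.FR.Ai_differentiable.differentiableOn
    exact fun z => ((h1.analyticOnNhd isOpen_univ).deriv z (mem_univ _)).differentiableAt
  have h1 := (hd (I * (ω : ℂ))).hasDerivAt
  rw [Pool.Agent.H140R2.FR.Ai_ode] at h1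
  exact HasDerivAt.comp_of_eq (h₂ := deriv Ai) (h := fun ω : ℝ => I * (ω : ℂ)) ω h1 (hI ω) rfl

theorem ph0_d (ω : ℝ) : HasDerivAt ph0 (-I * (ph0 ω * qA ω)) ω := by
  have h := (Ai_d ω).inv (Ai_ne ω)
  unfold ph0
  refine h.congr_deriv ?_
  unfold qA
  have := Ai_ne ω
  field_simp

theorem qA_d (ω : ℝ) : HasDerivAt qA (I * (I * (ω : ℂ) - qA ω ^ 2)) ω := by
  have h := (Ai_d2 ω).div (Ai_d ω) (Ai_ne ω)
  unfold qA
  refine h.congr_deriv ?_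
  have := Ai_ne ω
  field_simp

theorem ph0_d2 (ω : ℝ) : HasDerivAt (fun ω => -I * (ph0 ω * qA ω))
    (-2 * Z2 ω + -1 * (I * (ω : ℂ) * ph0 ω)) ω := by
  have h := ((ph0_d ω).mul (qA_d ω)).const_mul (-I)
  refine h.congr_deriv ?_
  unfold Z2
  have hI2 : I * I = -1 := Complex.I_mul_I
  linear_combination (qA ω * (ph0 ω * qA ω) - ph0 ω * (I * (ω : ℂ) - qA ω ^ 2)) * hI2

theorem core (hph : Mom ph0) (hTR : S_TR) (hM : S_MZ) : S_PARTS := by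
  have m0 : MM ph0 := MM.of hph
  have mZ1 : MM Z1 := MM.of hM.1
  have mZ2 : MM Z2 := MM.of hM.2
  have eq1 : (fun ω => -I * (ph0 ω * qA ω)) = fun ω => (-I) * (Z1 ω + qA 0 * ph0 ω) := by
    funext ω
    unfold Z1
    ring
  have mq : MM (fun ω => Z1 ω + qA 0 * ph0 ω) := mZ1.add (m0.smul (qA 0))
  have m1 : MM (fun ω => -I * (ph0 ω * qA ω)) := by
    rw [eq1]
    exact mq.smul (-I)
  have m2 : MM (fun ω => -2 * Z2 ω + -1 * (I * (ω : ℂ) * ph0 ω)) :=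
    (mZ2.smul (-2)).add (m0.mulI.smul (-1))
  intro j y
  have hreal : ∀ k, Tr ph0 k y = (RT ph0 k y : ℂ) := fun k => (hTR ph0 hph k).2.1 y
  have p1 : ∀ k, Tr (fun ω => -I * (ph0 ω * qA ω)) k y =
      -I * ((k : ℂ) * Tr ph0 (k - 1) y + (y : ℂ) * Tr ph0 k y) :=
    fun k => parts m0 m1 ph0_d k y
  have p2 := parts m1 m2 ph0_d2 j y
  have t1 : Tr (fun ω => -I * (ph0 ω * qA ω)) j y = -I * (Tr Z1 j y + qA 0 * Tr ph0 j y) := by
    rw [eq1, Tr_smul, Tr_add mZ1 (m0.smul (qA 0)), Tr_smul]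
  have t2 : Tr (fun ω => -2 * Z2 ω + -1 * (I * (ω : ℂ) * ph0 ω)) j y =
      -2 * Tr Z2 j y - Tr ph0 (j + 1) y := by
    rw [Tr_add (mZ2.smul (-2)) (m0.mulI.smul (-1)), Tr_smul, Tr_smul, Tr_mulI]
    ring
  constructor
  · have h1 : Tr Z1 j y = (j : ℂ) * Tr ph0 (j - 1) y + (y : ℂ) * Tr ph0 j y -
        qA 0 * Tr ph0 j y := by
      have h2 : -I * (Tr Z1 j y + qA 0 * Tr ph0 j y) =
          -I * ((j : ℂ) * Tr ph0 (j - 1) y + (y : ℂ) * Tr ph0 j y) := by rw [← t1, p1 j]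
      have h3 := mul_left_cancel₀ (neg_ne_zero.2 Complex.I_ne_zero) h2
      linear_combination h3
    unfold RT
    rw [h1, hreal, hreal]
    simp [Complex.add_re, Complex.sub_re, Complex.mul_re]
    ring
  · have h1 : Tr Z2 j y = (((j : ℂ) * ((j - 1 : ℕ) : ℂ) * Tr ph0 (j - 1 - 1) y +
        2 * y * j * Tr ph0 (j - 1) y + y ^ 2 * Tr ph0 j y) - Tr ph0 (j + 1) y) / 2 := by
      rw [t2, p1 (j - 1), p1 j] at p2
      have hI2 : I * I = -1 := Complex.I_mul_I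
      linear_combination (-1 / 2 : ℂ) * p2 + (-1 / 2 : ℂ) * ((j : ℂ) * (((j - 1 : ℕ) : ℂ) *
        Tr ph0 (j - 1 - 1) y + y * Tr ph0 (j - 1) y) + y * ((j : ℂ) * Tr ph0 (j - 1) y +
        y * Tr ph0 j y)) * hI2
    have h2 : (j : ℂ) * ((j - 1 : ℕ) : ℂ) = (j : ℂ) * ((j : ℂ) - 1) := by
      rcases Nat.eq_zero_or_pos j with h | h
      · rw [h]; simp
      · rw [Nat.cast_sub h, Nat.cast_one]
    rw [h2] at h1
    have e : j - 1 - 1 = j - 2 := by omega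
    rw [e] at h1
    unfold RT
    rw [h1, hreal, hreal, hreal, hreal]
    have h3 : (((j : ℂ) * ((j : ℂ) - 1) * (RT ph0 (j - 2) y : ℂ) +
        2 * y * j * (RT ph0 (j - 1) y : ℂ) + y ^ 2 * (RT ph0 j y : ℂ)) -
        (RT ph0 (j + 1) y : ℂ)) / 2 = (((((j : ℝ) * ((j : ℝ) - 1) * RT ph0 (j - 2) y +
        2 * y * j * RT ph0 (j - 1) y + y ^ 2 * RT ph0 j y) - RT ph0 (j + 1) y) / 2 : ℝ) : ℂ) := by
      push_cast; ring
    rw [h3, Complex.ofReal_re, Complex.ofReal_re, Complex.ofReal_re, Complex.ofReal_re,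
      Complex.ofReal_re]
    ring

theorem t_PARTS (hM : S_MZ) : S_PARTS := core Pool.Agent.H260.CH.hPH.1 t_TR hM

end Pool.Agent.H740.CVP
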