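import Pool.Agent.H260.CV.Stm
import Pool.Agent.H260.CH.Fin

/-!
# CV-SGN (helper870 for helper260): the sign at minus infinity of a third order combination
-/

set_option autoImplicit false

open Complex MeasureTheory Set Filter Topology Polynomial
open Pool.Agent.H140R2.FR (Ai)
open Pool.Agent.R748.CH
open Pool.Agent.H260.CV
open Pool.Agent.H260.CH

namespace Pool.Agent.H870.CV

theorem core (p p1 p2 p3 : ℝ → ℝ) (h0 : ∀ x, HasDerivAt p (p1 x) x)
    (h1 : ∀ x, HasDerivAt p1 (p2 x) x) (h2 : ∀ x, HasDerivAt p2 (p3 x) x) (hpos : ∀ x, 0 < p x)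
    (hf0 : ∀ L : ℝ, 0 ≤ L → ∃ C : ℝ, ∀ x : ℝ, |p x| ≤ C * Real.exp (L * x))
    (hf1 : ∀ L : ℝ, 0 ≤ L → ∃ C : ℝ, ∀ x : ℝ, |p1 x| ≤ C * Real.exp (L * x))
    (hf2 : ∀ L : ℝ, 0 ≤ L → ∃ C : ℝ, ∀ x : ℝ, |p2 x| ≤ C * Real.exp (L * x))
    (c0 c1 c2 x1 : ℝ) : ∃ z : ℝ, z < x1 ∧ 0 < c0 * p z + c1 * p1 z + c2 * p2 z + p3 z := by
  by_contra hcon
  push Not at hcon
  -- the minimum
  have hpc : Continuous p := continuous_iff_continuousAt.2 fun x => (h0 x).continuousAt
  obtain ⟨xm, -, hxm⟩ := (isCompact_Icc (a := x1 - 3) (b := x1 - 2)).exists_isMinOn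
    ⟨x1 - 3, by constructor <;> linarith⟩ hpc.continuousOn
  obtain ⟨m, hm⟩ : ∃ m, m = p xm := ⟨_, rfl⟩
  have hm0 : 0 < m := by rw [hm]; exact hpos xm
  have hmin : ∀ x ∈ Icc (x1 - 3) (x1 - 2), m ≤ p x := by
    intro x hx
    rw [hm]
    exact hxm hx
  obtain ⟨K, hK⟩ : ∃ K, K = |p2 (x1 - 1)| + (1 + |c2|) * |p1 (x1 - 1)| +
    (1 + |c2| + |c1|) * |p (x1 - 1)| := ⟨_, rfl⟩
  have hK0 : 0 ≤ K := by rw [hK]; positivity
  obtain ⟨l, hl⟩ : ∃ l : ℝ, l = 1 + |c2| + |c1| + |c0| + 6 * K / m := ⟨_, rfl⟩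
  have hl1 : 1 + |c2| + |c1| + |c0| ≤ l := by
    rw [hl]
    have : 0 ≤ 6 * K / m := by positivity
    linarith
  have hl0 : 1 ≤ l := by
    have := abs_nonneg c2
    have := abs_nonneg c1
    have := abs_nonneg c0
    linarith
  have hlK : 6 * K < m * l := by
    have h3 : 6 * K / m < l := by
      rw [hl]
      have := abs_nonneg c2
      have := abs_nonneg c1
      have := abs_nonneg c0
      linarith
    rw [div_lt_iff₀ hm0] at h3
    linarith
  obtain ⟨Cl, hCl⟩ : ∃ Cl : ℝ, Cl = l ^ 3 + c2 * l ^ 2 + c1 * l + c0 := ⟨_, rfl⟩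
  have hCl1 : 1 ≤ Cl := by
    have e2 := neg_abs_le c2
    have e1 := neg_abs_le c1
    have e0 := neg_abs_le c0
    have n1 := abs_nonneg c1
    have n0 := abs_nonneg c0
    have q : 0 ≤ l ^ 2 := sq_nonneg l
    have q1 : 1 ≤ l ^ 2 := by nlinarith
    have q2 : l ≤ l ^ 2 := by nlinarith
    have a1 : -(|c2| * l ^ 2) ≤ c2 * l ^ 2 := by nlinarith
    have a2 : -(|c1| * l ^ 2) ≤ c1 * l := by nlinarith
    have a3 : -(|c0| * l ^ 2) ≤ c0 := by nlinarith
    have a4 : (1 + |c2| + |c1| + |c0|) * l ^ 2 ≤ l * l ^ 2 := mul_le_mul_of_nonneg_right hl1 q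
    rw [hCl]
    nlinarith
  -- the function `U`
  obtain ⟨B, hB⟩ : ∃ B : ℝ → ℝ, B = fun x => p2 x + (l + c2) * p1 x + (l ^ 2 + c2 * l + c1) * p x :=
    ⟨_, rfl⟩
  obtain ⟨U, hU⟩ : ∃ U : ℝ → ℝ, U = fun x => Real.exp (-(l * x)) * B x := ⟨_, rfl⟩
  have hUd : ∀ x, HasDerivAt U (Real.exp (-(l * x)) *
      ((c0 * p x + c1 * p1 x + c2 * p2 x + p3 x) - Cl * p x)) x := by
    intro x
    have e1 : HasDerivAt (fun x : ℝ => -(l * x)) (-l) x :=
      HasDerivAt.congr_deriv ((hasDerivAt_id x).const_mul l).neg (by rw [mul_one])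
    have e2 : HasDerivAt B (p3 x + (l + c2) * p2 x + (l ^ 2 + c2 * l + c1) * p1 x) x := by
      rw [hB]
      exact ((h2 x).add ((h1 x).const_mul (l + c2))).add ((h0 x).const_mul (l ^ 2 + c2 * l + c1))
    rw [hU]
    refine (e1.exp.mul e2).congr_deriv ?_
    rw [hB, hCl]
    ring
  have hUneg : ∀ x, x < x1 → Real.exp (-(l * x)) *
      ((c0 * p x + c1 * p1 x + c2 * p2 x + p3 x) - Cl * p x) ≤
      -(Cl * (Real.exp (-(l * x)) * p x)) := by
    intro x hx
    have h3 := hcon x hx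
    have h4 := Real.exp_pos (-(l * x))
    nlinarith
  have hUneg' : ∀ x, x < x1 → Real.exp (-(l * x)) *
      ((c0 * p x + c1 * p1 x + c2 * p2 x + p3 x) - Cl * p x) ≤ 0 := by
    intro x hx
    refine (hUneg x hx).trans ?_
    have h4 := Real.exp_pos (-(l * x))
    have h5 := hpos x
    have : 0 ≤ Cl * (Real.exp (-(l * x)) * p x) := by positivity
    linarith
  -- monotonicity
  have hanti : ∀ x y, x < y → y < x1 → U y ≤ U x := by
    intro x y hxy hy
    obtain ⟨ξ, hξ, hξ'⟩ := exists_hasDerivAt_eq_slope U _ hxy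
      (fun z _ => (hUd z).continuousAt.continuousWithinAt) fun z _ => hUd z
    have h3 := hUneg' ξ (hξ.2.trans hy)
    rw [hξ', div_le_iff₀ (by linarith)] at h3
    linarith
  -- the limit
  have hlim : Tendsto U atBot (𝓝 0) := by
    obtain ⟨C0, hC0⟩ := hf0 (l + 1) (by linarith)
    obtain ⟨C1, hC1⟩ := hf1 (l + 1) (by linarith)
    obtain ⟨C2, hC2⟩ := hf2 (l + 1) (by linarith)
    have h3 : Tendsto (fun x => (C2 + |l + c2| * C1 + |l ^ 2 + c2 * l + c1| * C0) * Real.exp x)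
        atBot (𝓝 0) := by
      have := Real.tendsto_exp_atBot.const_mul (C2 + |l + c2| * C1 + |l ^ 2 + c2 * l + c1| * C0)
      rwa [mul_zero] at this
    refine squeeze_zero_norm (fun x => ?_) h3
    rw [hU, hB]
    simp only [Real.norm_eq_abs]
    rw [abs_mul, abs_of_pos (Real.exp_pos _)]
    have e1 : |p2 x + (l + c2) * p1 x + (l ^ 2 + c2 * l + c1) * p x| ≤
        (C2 + |l + c2| * C1 + |l ^ 2 + c2 * l + c1| * C0) * Real.exp ((l + 1) * x) := by
      refine (abs_add_le _ _).trans ?_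
      refine (add_le_add_left (abs_add_le _ _) _).trans ?_
      rw [abs_mul, abs_mul]
      have g0 := mul_le_mul_of_nonneg_left (hC0 x) (abs_nonneg (l ^ 2 + c2 * l + c1))
      have g1 := mul_le_mul_of_nonneg_left (hC1 x) (abs_nonneg (l + c2))
      have g2 := hC2 x
      nlinarith
    calc Real.exp (-(l * x)) * |p2 x + (l + c2) * p1 x + (l ^ 2 + c2 * l + c1) * p x| ≤
        Real.exp (-(l * x)) * ((C2 + |l + c2| * C1 + |l ^ 2 + c2 * l + c1| * C0) *
          Real.exp ((l + 1) * x)) := mul_le_mul_of_nonneg_left e1 (Real.exp_pos _).le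
      _ = (C2 + |l + c2| * C1 + |l ^ 2 + c2 * l + c1| * C0) *
          (Real.exp (-(l * x)) * Real.exp ((l + 1) * x)) := by ring
      _ = _ := by
          rw [← Real.exp_add]
          congr 2
          ring
  have hU0 : U (x1 - 3) ≤ 0 := by
    refine ge_of_tendsto hlim ?_
    filter_upwards [eventually_lt_atBot (x1 - 3)] with y hy
    exact hanti y (x1 - 3) hy (by linarith)
  -- the decrease
  have hU1 : U (x1 - 2) ≤ -(Cl * (Real.exp (-(l * (x1 - 2))) * m)) := by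
    obtain ⟨ξ, hξ, hξ'⟩ := exists_hasDerivAt_eq_slope U _ (show x1 - 3 < x1 - 2 by linarith)
      (fun z _ => (hUd z).continuousAt.continuousWithinAt) fun z _ => hUd z
    have h3 := hUneg ξ (by linarith [hξ.2])
    rw [hξ', show x1 - 2 - (x1 - 3) = 1 by ring, div_one] at h3
    have h4 : Real.exp (-(l * (x1 - 2))) * m ≤ Real.exp (-(l * ξ)) * p ξ := by
      apply mul_le_mul _ (hmin ξ ⟨hξ.1.le, hξ.2.le⟩) hm0.le (Real.exp_pos _).le
      apply Real.exp_le_exp.2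
      have := hξ.2
      nlinarith
    have h5 := mul_le_mul_of_nonneg_left h4 (by linarith : (0 : ℝ) ≤ Cl)
    linarith
  have hU2 := hanti (x1 - 2) (x1 - 1) (by linarith) (by linarith)
  have h3 : Real.exp (-(l * (x1 - 1))) * B (x1 - 1) ≤ -(Cl * (Real.exp (-(l * (x1 - 2))) * m)) := by
    have e : U (x1 - 1) = Real.exp (-(l * (x1 - 1))) * B (x1 - 1) := by rw [hU]
    rw [← e]
    linarith
  have h4 : Real.exp (-(l * (x1 - 2))) = Real.exp (-(l * (x1 - 1))) * Real.exp l := by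
    rw [← Real.exp_add]
    congr 1
    ring
  rw [h4] at h3
  have h5 : B (x1 - 1) ≤ -(Cl * (Real.exp l * m)) := by
    have h6 := Real.exp_pos (-(l * (x1 - 1)))
    have h7 : Real.exp (-(l * (x1 - 1))) * B (x1 - 1) ≤
        Real.exp (-(l * (x1 - 1))) * -(Cl * (Real.exp l * m)) := by
      refine h3.trans (le_of_eq ?_)
      ring
    exact le_of_mul_le_mul_left h7 h6
  have h6 : -(K * l ^ 2) ≤ B (x1 - 1) := by
    rw [hB, hK]
    simp only
    have q1 : 1 ≤ l ^ 2 := by nlinarith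
    have q2 : l ≤ l ^ 2 := by nlinarith
    have b2 : -(|p2 (x1 - 1)| * l ^ 2) ≤ p2 (x1 - 1) := by
      have := neg_abs_le (p2 (x1 - 1))
      nlinarith [abs_nonneg (p2 (x1 - 1))]
    have b1 : -((1 + |c2|) * |p1 (x1 - 1)| * l ^ 2) ≤ (l + c2) * p1 (x1 - 1) := by
      have g1 : |l + c2| ≤ (1 + |c2|) * l ^ 2 := by
        refine (abs_add_le _ _).trans ?_
        rw [abs_of_pos (by linarith : 0 < l)]
        nlinarith [abs_nonneg c2]
      have g2 := neg_abs_le ((l + c2) * p1 (x1 - 1))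
      rw [abs_mul] at g2
      have g3 := mul_le_mul_of_nonneg_right g1 (abs_nonneg (p1 (x1 - 1)))
      linarith
    have b0 : -((1 + |c2| + |c1|) * |p (x1 - 1)| * l ^ 2) ≤
        (l ^ 2 + c2 * l + c1) * p (x1 - 1) := by
      have g1 : |l ^ 2 + c2 * l + c1| ≤ (1 + |c2| + |c1|) * l ^ 2 := by
        refine (abs_add_le _ _).trans ?_
        refine (add_le_add_left (abs_add_le _ _) _).trans ?_
        rw [abs_mul, abs_of_pos (by linarith : 0 < l), abs_of_nonneg (sq_nonneg l)]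
        nlinarith [abs_nonneg c2, abs_nonneg c1]
      have g2 := neg_abs_le ((l ^ 2 + c2 * l + c1) * p (x1 - 1))
      rw [abs_mul] at g2
      have g3 := mul_le_mul_of_nonneg_right g1 (abs_nonneg (p (x1 - 1)))
      linarith
    linarith
  have h7 : l ^ 3 / 6 ≤ Real.exp l := by
    have := Real.pow_div_factorial_le_exp l (by linarith) 3
    simpa [Nat.factorial] using this
  have h8 : l ^ 3 / 6 * m ≤ K * l ^ 2 := by
    have g1 : l ^ 3 / 6 * m ≤ Real.exp l * m := mul_le_mul_of_nonneg_right h7 hm0.le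
    have g2 : 0 ≤ Real.exp l * m := by positivity
    nlinarith
  have h9 : 0 < l ^ 2 := by positivity
  nlinarith

theorem t_SGN : Pool.Agent.H260.CV.S_SGN := by
  intro c0 c1 c2 x1
  have hd := fun j => (t_TR ph0 hPH.1 j).1
  obtain ⟨z, hz, hz'⟩ := core (RT ph0 0) (RT ph0 1) (RT ph0 2) (RT ph0 3) (hd 0) (hd 1) (hd 2)
    hGG.1 (fun L hL => hFAST L 0 hL) (fun L hL => hFAST L 1 hL) (fun L hL => hFAST L 2 hL)
    c0 c1 c2 x1
  refine ⟨z, hz, ?_⟩
  unfold LL
  rw [one_mul]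
  exact hz'

end Pool.Agent.H870.CV
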