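import Pool.Agent.H260.CV.Stm
import Pool.Agent.H260.CH.Fin

/-!
# CV SUM: summation of the transforms over the zeros (for helper260, MP_0e7bd3_pr)
-/

set_option autoImplicit false

open Complex MeasureTheory Set Filter Topology
open Pool.Agent.H140R2.FR (Ai)
open Pool.Agent.R748.CH
open Pool.Agent.H260.CV

namespace Pool.Agent.H603.CVS

theorem ph0_cont : Continuous ph0 := Pool.Agent.H260.CH.hPH.1.cont

theorem ph0_mom (j : ℕ) : Integrable (fun ω : ℝ => |ω| ^ j * ‖ph0 ω‖) :=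
  Pool.Agent.H260.CH.hPH.1.mom j

theorem norm_ker (j : ℕ) (y ω : ℝ) :
    ‖(I * (ω : ℂ)) ^ j * cexp (I * (ω : ℂ) * (y : ℂ))‖ = |ω| ^ j := by
  rw [norm_mul, norm_pow, norm_mul, Complex.norm_I, one_mul, Complex.norm_real, Real.norm_eq_abs]
  have h : I * (ω : ℂ) * (y : ℂ) = ((ω * y : ℝ) : ℂ) * I := by push_cast; ring
  rw [h, Complex.norm_exp_ofReal_mul_I, mul_one]

theorem bnd_gen (j i : ℕ) (y B : ℝ) (g : ℝ → ℂ) (hb : ∀ ω, ‖g ω‖ ≤ B * |ω| ^ i) (ω : ℝ) :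
    ‖(I * (ω : ℂ)) ^ j * cexp (I * (ω : ℂ) * (y : ℂ)) * (ph0 ω * g ω)‖ ≤
      B * (|ω| ^ (j + i) * ‖ph0 ω‖) := by
  rw [norm_mul, norm_ker, norm_mul]
  have h0 : 0 ≤ |ω| ^ j * ‖ph0 ω‖ := by positivity
  have h1 := mul_le_mul_of_nonneg_left (hb ω) h0
  calc |ω| ^ j * (‖ph0 ω‖ * ‖g ω‖) = |ω| ^ j * ‖ph0 ω‖ * ‖g ω‖ := by ring
    _ ≤ |ω| ^ j * ‖ph0 ω‖ * (B * |ω| ^ i) := h1
    _ = _ := by rw [pow_add]; ring

theorem meas_gen (j : ℕ) (y : ℝ) (g : ℝ → ℂ) (hg : Continuous g) :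
    AEStronglyMeasurable
      (fun ω : ℝ => (I * (ω : ℂ)) ^ j * cexp (I * (ω : ℂ) * (y : ℂ)) * (ph0 ω * g ω)) volume := by
  have h1 : Continuous (fun ω : ℝ => (I * (ω : ℂ)) ^ j * cexp (I * (ω : ℂ) * (y : ℂ))) := by
    fun_prop
  exact (h1.mul (ph0_cont.mul hg)).aestronglyMeasurable

theorem int_gen (j i : ℕ) (y B : ℝ) (g : ℝ → ℂ) (hg : Continuous g)
    (hb : ∀ ω, ‖g ω‖ ≤ B * |ω| ^ i) :
    Integrable (fun ω : ℝ => (I * (ω : ℂ)) ^ j * cexp (I * (ω : ℂ) * (y : ℂ)) * (ph0 ω * g ω)) :=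
  ((ph0_mom (j + i)).const_mul B).mono' (meas_gen j y g hg) (ae_of_all _ (bnd_gen j i y B g hb))

theorem lim_gen (j i : ℕ) (y B : ℝ) (G : ℕ → ℝ → ℂ) (g : ℝ → ℂ) (hG : ∀ N, Continuous (G N))
    (hb : ∀ N ω, ‖G N ω‖ ≤ B * |ω| ^ i) (hl : ∀ ω, Tendsto (fun N => G N ω) atTop (𝓝 (g ω))) :
    Tendsto (fun N => RT (fun ω => ph0 ω * G N ω) j y) atTop
      (𝓝 (RT (fun ω => ph0 ω * g ω) j y)) := by
  refine (Complex.continuous_re.tendsto _).comp ?_
  refine tendsto_integral_of_dominated_convergence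
    (fun ω => B * (|ω| ^ (j + i) * ‖ph0 ω‖)) (fun N => meas_gen j y (G N) (hG N))
    ((ph0_mom (j + i)).const_mul B)
    (fun N => ae_of_all _ (bnd_gen j i y B (G N) (hb N))) (ae_of_all _ fun ω => ?_)
  exact ((hl ω).const_mul _).const_mul _

/-- finite linearity -/
theorem fin_sum (j : ℕ) (y : ℝ) (S : Finset ℝ) (c : ℝ → ℕ) (g : ℝ → ℝ → ℂ)
    (hi : ∀ a ∈ S, Integrable
      (fun ω : ℝ => (I * (ω : ℂ)) ^ j * cexp (I * (ω : ℂ) * (y : ℂ)) * (ph0 ω * g a ω))) :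
    RT (fun ω => ph0 ω * ∑ a ∈ S, (c a : ℂ) * g a ω) j y =
      ∑ a ∈ S, (c a : ℝ) * RT (fun ω => ph0 ω * g a ω) j y := by
  unfold RT Tr
  have h1 : ∀ ω : ℝ, (I * (ω : ℂ)) ^ j * cexp (I * (ω : ℂ) * (y : ℂ)) *
      (ph0 ω * ∑ a ∈ S, (c a : ℂ) * g a ω) =
      ∑ a ∈ S, (c a : ℂ) * ((I * (ω : ℂ)) ^ j * cexp (I * (ω : ℂ) * (y : ℂ)) *
        (ph0 ω * g a ω)) := by
    intro ω
    rw [Finset.mul_sum, Finset.mul_sum]
    refine Finset.sum_congr rfl fun a _ => ?_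
    ring
  simp only [h1]
  rw [integral_finsetSum _ (fun a ha => (hi a ha).const_mul _), Complex.re_sum]
  refine Finset.sum_congr rfl fun a _ => ?_
  rw [integral_const_mul, Complex.mul_re, Complex.natCast_re, Complex.natCast_im, zero_mul,
    sub_zero]

theorem ne_add {a : ℝ} (ha : 0 < a) (ω : ℝ) : I * (ω : ℂ) + (a : ℂ) ≠ 0 := by
  intro h
  have h1 := congrArg Complex.re h
  simp at h1
  exact ha.ne' h1

theorem norm_add_ge {a : ℝ} (ω : ℝ) : a ≤ ‖I * (ω : ℂ) + (a : ℂ)‖ := by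
  have h1 := Complex.re_le_norm (I * (ω : ℂ) + (a : ℂ))
  simpa using h1

/-- the function of the first sum -/
noncomputable def g1 (a ω : ℝ) : ℂ := 1 / (I * (ω : ℂ) + (a : ℂ)) - 1 / (a : ℂ)

/-- the function of the second sum -/
noncomputable def g2 (a ω : ℝ) : ℂ := 1 / (I * (ω : ℂ) + (a : ℂ)) ^ 2

theorem g1_cont {a : ℝ} (ha : 0 < a) : Continuous (g1 a) := by
  unfold g1
  refine Continuous.sub (Continuous.div continuous_const (by fun_prop) (ne_add ha))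
    continuous_const

theorem g2_cont {a : ℝ} (ha : 0 < a) : Continuous (g2 a) := by
  unfold g2
  exact Continuous.div continuous_const (by fun_prop) (fun ω => pow_ne_zero 2 (ne_add ha ω))

theorem g1_norm {a : ℝ} (ha : 0 < a) (ω : ℝ) : ‖g1 a ω‖ ≤ 1 / a ^ 2 * |ω| := by
  have h1 := ne_add ha ω
  have h2 : (a : ℂ) ≠ 0 := by exact_mod_cast ha.ne'
  have h3 : g1 a ω = -(I * (ω : ℂ)) / ((I * (ω : ℂ) + (a : ℂ)) * (a : ℂ)) := by
    unfold g1
    field_simp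
    ring
  rw [h3, norm_div, norm_neg, norm_mul, norm_mul, Complex.norm_I, one_mul, Complex.norm_real,
    Complex.norm_real, Real.norm_eq_abs, Real.norm_eq_abs, abs_of_pos ha]
  have h4 := norm_add_ge (a := a) ω
  rw [div_le_iff₀ (by positivity)]
  have h5 : 0 ≤ 1 / a ^ 2 * |ω| := by positivity
  have h6 : 1 / a ^ 2 * |ω| * (a * a) = |ω| := by field_simp
  calc |ω| = 1 / a ^ 2 * |ω| * (a * a) := h6.symm
    _ ≤ 1 / a ^ 2 * |ω| * (‖I * (ω : ℂ) + (a : ℂ)‖ * a) := by gcongr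

theorem g2_norm {a : ℝ} (ha : 0 < a) (ω : ℝ) : ‖g2 a ω‖ ≤ 1 / a ^ 2 := by
  unfold g2
  rw [norm_div, norm_one, norm_pow]
  have h4 := norm_add_ge (a := a) ω
  gcongr

theorem sum_norm (S : Finset ℝ) (c : ℝ → ℕ) (g : ℝ → ℝ → ℂ) (B : ℝ) (ω t : ℝ) (ht : 0 ≤ t)
    (hB : ∑ a ∈ S, (c a : ℝ) / a ^ 2 ≤ B) (hg : ∀ a ∈ S, ‖g a ω‖ ≤ 1 / a ^ 2 * t) :
    ‖∑ a ∈ S, (c a : ℂ) * g a ω‖ ≤ B * t := by
  calc ‖∑ a ∈ S, (c a : ℂ) * g a ω‖ ≤ ∑ a ∈ S, ‖(c a : ℂ) * g a ω‖ := norm_sum_le _ _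
    _ ≤ ∑ a ∈ S, (c a : ℝ) / a ^ 2 * t := by
        refine Finset.sum_le_sum fun a ha => ?_
        rw [norm_mul, Complex.norm_natCast]
        calc (c a : ℝ) * ‖g a ω‖ ≤ (c a : ℝ) * (1 / a ^ 2 * t) :=
              mul_le_mul_of_nonneg_left (hg a ha) (Nat.cast_nonneg _)
          _ = (c a : ℝ) / a ^ 2 * t := by ring
    _ = (∑ a ∈ S, (c a : ℝ) / a ^ 2) * t := by rw [Finset.sum_mul]
    _ ≤ B * t := mul_le_mul_of_nonneg_right hB ht

theorem t_SUM : S_SUM := by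
  intro S m hpos hB hl1 hl2 j y
  obtain ⟨B, hB⟩ := hB
  constructor
  · have key := lim_gen j 1 y B (fun N ω => ∑ a ∈ S N, (m N a : ℂ) * g1 a ω)
      (fun ω => qA ω - qA 0)
      (fun N => continuous_finsetSum _ fun a ha => continuous_const.mul (g1_cont (hpos N a ha)))
      (fun N ω => by
        rw [pow_one]
        exact sum_norm (S N) (m N) g1 B ω |ω| (abs_nonneg ω) (hB N)
          (fun a ha => g1_norm (hpos N a ha) ω))
      hl1
    refine key.congr fun N => ?_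
    have hint : ∀ a ∈ S N, Integrable
        (fun ω : ℝ => (I * (ω : ℂ)) ^ j * cexp (I * (ω : ℂ) * (y : ℂ)) * (ph0 ω * g1 a ω)) :=
      fun a ha => int_gen j 1 y (1 / a ^ 2) (g1 a) (g1_cont (hpos N a ha)) (fun ω => by
        rw [pow_one]; exact g1_norm (hpos N a ha) ω)
    rw [fin_sum j y (S N) (m N) g1 hint]
    refine Finset.sum_congr rfl fun a ha => ?_
    have ha0 := hpos N a ha
    have hac : (a : ℂ) ≠ 0 := by exact_mod_cast ha0.ne'
    congr 1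
    have hI1 : Integrable
        (fun ω : ℝ => (I * (ω : ℂ)) ^ j * cexp (I * (ω : ℂ) * (y : ℂ)) *
          (ph0 ω * (1 / (a : ℂ)))) :=
      int_gen j 0 y ‖(1 / (a : ℂ))‖ (fun _ => 1 / (a : ℂ)) continuous_const (fun ω => by simp)
    have h1 : ∀ ω : ℝ, (I * (ω : ℂ)) ^ j * cexp (I * (ω : ℂ) * (y : ℂ)) * (ph0 ω * g1 a ω) +
        (I * (ω : ℂ)) ^ j * cexp (I * (ω : ℂ) * (y : ℂ)) * (ph0 ω * (1 / (a : ℂ))) =
        (I * (ω : ℂ)) ^ j * cexp (I * (ω : ℂ) * (y : ℂ)) * d1 a ω * (1 / (a : ℂ)) := by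
      intro ω
      have h2 := ne_add ha0 ω
      have h5 : (1 + I * (ω : ℂ) / (a : ℂ)) * (a : ℂ) = I * (ω : ℂ) + (a : ℂ) := by
        field_simp
        ring
      have h3 : 1 + I * (ω : ℂ) / (a : ℂ) ≠ 0 := by
        intro h
        apply h2
        rw [← h5, h, zero_mul]
      have h4 : ph0 ω * g1 a ω + ph0 ω * (1 / (a : ℂ)) = d1 a ω * (1 / (a : ℂ)) := by
        unfold g1 d1
        rw [← h5]
        field_simp
        ring
      rw [← mul_add, h4, mul_assoc ((I * (ω : ℂ)) ^ j * cexp (I * (ω : ℂ) * (y : ℂ)))]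
    have h6 := integral_add (hint a ha) hI1
    simp only [h1] at h6
    rw [integral_mul_const] at h6
    have h7 : (∫ ω : ℝ, (I * (ω : ℂ)) ^ j * cexp (I * (ω : ℂ) * (y : ℂ)) *
        (ph0 ω * (1 / (a : ℂ)))) = Tr ph0 j y * (1 / (a : ℂ)) := by
      unfold Tr
      rw [← integral_mul_const]
      refine integral_congr_ae (ae_of_all _ fun ω => ?_)
      simp only []
      ring
    rw [h7] at h6
    have h8 : Tr (fun ω => ph0 ω * g1 a ω) j y =
        (Tr (d1 a) j y - Tr ph0 j y) * (((1 / a : ℝ)) : ℂ) := by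
      have h9 : Tr (d1 a) j y * (1 / (a : ℂ)) = Tr (fun ω => ph0 ω * g1 a ω) j y +
        Tr ph0 j y * (1 / (a : ℂ)) := h6
      push_cast
      linear_combination (-1 : ℂ) * h9
    unfold RT
    rw [h8, Complex.re_mul_ofReal, Complex.sub_re]
    ring
  · have key := lim_gen j 0 y B (fun N ω => ∑ a ∈ S N, (m N a : ℂ) * g2 a ω)
      (fun ω => qA ω ^ 2 - I * (ω : ℂ))
      (fun N => continuous_finsetSum _ fun a ha => continuous_const.mul (g2_cont (hpos N a ha)))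
      (fun N ω => by
        rw [pow_zero]
        exact sum_norm (S N) (m N) g2 B ω 1 zero_le_one (hB N)
          (fun a ha => by rw [mul_one]; exact g2_norm (hpos N a ha) ω))
      (fun ω => (hl2 ω).congr fun N => Finset.sum_congr rfl fun a _ => by
        unfold g2; ring)
    refine key.congr fun N => ?_
    have hint : ∀ a ∈ S N, Integrable
        (fun ω : ℝ => (I * (ω : ℂ)) ^ j * cexp (I * (ω : ℂ) * (y : ℂ)) * (ph0 ω * g2 a ω)) :=
      fun a ha => int_gen j 0 y (1 / a ^ 2) (g2 a) (g2_cont (hpos N a ha)) (fun ω => by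
        rw [pow_zero, mul_one]; exact g2_norm (hpos N a ha) ω)
    rw [fin_sum j y (S N) (m N) g2 hint]
    refine Finset.sum_congr rfl fun a ha => ?_
    have ha0 := hpos N a ha
    have hac : (a : ℂ) ≠ 0 := by exact_mod_cast ha0.ne'
    congr 1
    have h8 : Tr (fun ω => ph0 ω * g2 a ω) j y =
        Tr (d2 a) j y * (((1 / a ^ 2 : ℝ)) : ℂ) := by
      unfold Tr
      rw [← integral_mul_const]
      refine integral_congr_ae (ae_of_all _ fun ω => ?_)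
      simp only []
      have h2 := ne_add ha0 ω
      have h5 : (1 + I * (ω : ℂ) / (a : ℂ)) * (a : ℂ) = I * (ω : ℂ) + (a : ℂ) := by
        field_simp
        ring
      have h3 : 1 + I * (ω : ℂ) / (a : ℂ) ≠ 0 := by
        intro h
        apply h2
        rw [← h5, h, zero_mul]
      have h4 : ph0 ω * g2 a ω = d2 a ω * (((1 / a ^ 2 : ℝ)) : ℂ) := by
        unfold g2 d2 d1
        rw [← h5]
        push_cast
        field_simp
      rw [h4]
      ring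
    unfold RT
    rw [h8, Complex.re_mul_ofReal]
    ring

end Pool.Agent.H603.CVS
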