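import Pool.Agent.H260.CV.Stm
import Pool.Agent.H260.CH.Fin

/-!
# Project CV, piece V: variation diminution for `1 / Ai` on the imaginary axis
-/

set_option autoImplicit false

open Complex MeasureTheory Set Filter Topology Polynomial
open Pool.Agent.H140R2.FR (Ai)
open Pool.Agent.R748.CH

namespace Pool.Agent.H260.CV

namespace Vpf

theorem poly_VD (hC : S_VC) : ∀ n : ℕ, ∀ Q : ℂ[X], Q.natDegree = n →
    (∀ w, Q.IsRoot w → w.im = 0) → Q.eval 0 ≠ 0 → ∀ φ : ℝ → ℂ, Mom φ → VD φ →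
    (∀ ω : ℝ, ‖Q.eval 0‖ ≤ ‖Q.eval (I * (ω : ℂ))‖) ∧
    Mom (fun ω : ℝ => φ ω * (Q.eval 0 / Q.eval (I * (ω : ℂ)))) ∧
    VD (fun ω : ℝ => φ ω * (Q.eval 0 / Q.eval (I * (ω : ℂ)))) := by
  intro n
  induction n with
  | zero =>
    intro Q hQ _ h0 φ hφ hV
    rw [Polynomial.natDegree_eq_zero] at hQ
    obtain ⟨a, rfl⟩ := hQ
    simp only [Polynomial.eval_C] at h0 ⊢
    have : (fun ω : ℝ => φ ω * (a / a)) = φ := by
      funext ω
      rw [div_self h0, mul_one]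
    rw [this]
    exact ⟨fun _ => le_rfl, hφ, hV⟩
  | succ n ih =>
    intro Q hQ hr h0 φ hφ hV
    obtain ⟨r, hr0⟩ := Complex.exists_root (f := Q)
      (Polynomial.natDegree_pos_iff_degree_pos.1 (by omega))
    obtain ⟨x, rfl⟩ : ∃ x : ℝ, r = (x : ℂ) :=
      ⟨r.re, Complex.ext (by simp) (by simp [hr r hr0])⟩
    obtain ⟨Q', rfl⟩ := Polynomial.dvd_iff_isRoot.2 hr0
    have hQ'0 : Q' ≠ 0 := by
      rintro rfl
      simp at h0
    have hdeg : Q'.natDegree = n := by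
      rw [Polynomial.natDegree_mul (Polynomial.X_sub_C_ne_zero _) hQ'0,
        Polynomial.natDegree_X_sub_C] at hQ
      omega
    have hr' : ∀ w, Q'.IsRoot w → w.im = 0 := by
      intro w hw
      apply hr w
      rw [Polynomial.IsRoot.def] at hw ⊢
      rw [Polynomial.eval_mul, hw, mul_zero]
    simp only [Polynomial.eval_mul, Polynomial.eval_sub, Polynomial.eval_X,
      Polynomial.eval_C] at h0 ⊢
    have h0' : Q'.eval 0 ≠ 0 := right_ne_zero_of_mul h0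
    have hxc : (x : ℂ) ≠ 0 := by
      intro hx
      rw [hx] at h0
      simp at h0
    have hx : x ≠ 0 := fun hx => hxc (by rw [hx]; simp)
    obtain ⟨i1, i2, i3⟩ := ih Q' hdeg hr' h0' φ hφ hV
    have e : (fun ω : ℝ => φ ω * ((0 - (x : ℂ)) * Q'.eval 0 /
        ((I * (ω : ℂ) - (x : ℂ)) * Q'.eval (I * (ω : ℂ))))) =
        fun ω : ℝ => φ ω * (Q'.eval 0 / Q'.eval (I * (ω : ℂ))) /
          (1 + I * (ω : ℂ) / ((-x : ℝ) : ℂ)) := by
      funext ω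
      have h1 : I * (ω : ℂ) - x = (-(x : ℂ)) * (1 + I * (ω : ℂ) / ((-x : ℝ) : ℂ)) := by
        push_cast
        field_simp
        ring
      rw [h1, zero_sub, mul_assoc, mul_div_mul_left _ _ (neg_ne_zero.2 hxc),
        mul_div_assoc (φ ω), div_div, mul_comm (eval (I * (ω : ℂ)) Q')]
    refine ⟨fun ω => ?_, ?_, ?_⟩
    · rw [norm_mul, norm_mul]
      refine mul_le_mul ?_ (i1 ω) (norm_nonneg _) (norm_nonneg _)
      have e : ‖(0 : ℂ) - (x : ℂ)‖ = |x| := by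
        rw [zero_sub, norm_neg, Complex.norm_real, Real.norm_eq_abs]
      rw [e]
      have h2 := Complex.abs_re_le_norm (I * (ω : ℂ) - (x : ℂ))
      have h3 : (I * (ω : ℂ) - (x : ℂ)).re = -x := by simp
      rw [h3, abs_neg] at h2
      exact h2
    · rw [e]
      exact CLOSEpf.mom_close i2 (-x)
    · rw [e]
      exact hC _ i2 i3 (-x) (neg_ne_zero.2 hx)

theorem VD_lim {ι : Type} {l : Filter ι} [l.NeBot] {φn : ι → ℝ → ℂ} {φ : ℝ → ℂ}
    (hT : ∀ j x, Tendsto (fun n => RT (φn n) j x) l (𝓝 (RT φ j x)))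
    (hV : ∀ᶠ n in l, VD (φn n)) : VD φ := by
  intro c0 c1 c2 c3 z0 z1 z2 z3 z4 h01 h12 h23 h34 p0 p1 p2 p3 p4
  have hL : ∀ z, Tendsto (fun n => LL (φn n) c0 c1 c2 c3 z) l (𝓝 (LL φ c0 c1 c2 c3 z)) :=
    fun z => ((((hT 0 z).const_mul c0).add ((hT 1 z).const_mul c1)).add
      ((hT 2 z).const_mul c2)).add ((hT 3 z).const_mul c3)
  have e0 := (hL z0).eventually (lt_mem_nhds p0)
  have e1 := (hL z1).eventually (gt_mem_nhds p1)
  have e2 := (hL z2).eventually (lt_mem_nhds p2)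
  have e3 := (hL z3).eventually (gt_mem_nhds p3)
  have e4 := (hL z4).eventually (lt_mem_nhds p4)
  obtain ⟨n, hn, k0, k1, k2, k3, k4⟩ := (hV.and (e0.and (e1.and (e2.and (e3.and e4))))).exists
  exact hn c0 c1 c2 c3 z0 z1 z2 z3 z4 h01 h12 h23 h34 k0 k1 k2 k3 k4

theorem gauss_mom {δ : ℝ} (hδ : 0 < δ) : Mom (fun ω : ℝ => cexp (-(δ : ℂ) * (ω : ℂ) ^ 2)) :=
  (t_GAUSS t_TR δ hδ).toMom

theorem lim_VD (hG : S_VG) (hC : S_VC) (F : ℂ → ℂ) (hF0 : F 0 = 1)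
    (hQ0 : ∃ Q : ℕ → ℂ[X], (∀ N w, (Q N).IsRoot w → w.im = 0) ∧
      TendstoLocallyUniformly (fun (N : ℕ) (w : ℂ) => (Q N).eval w) F atTop)
    (hMom : Mom (fun ω : ℝ => (F (I * (ω : ℂ)))⁻¹)) :
    VD (fun ω : ℝ => (F (I * (ω : ℂ)))⁻¹) := by
  obtain ⟨Q, hQr, hQ⟩ := hQ0
  set φ : ℝ → ℂ := fun ω => (F (I * (ω : ℂ)))⁻¹ with hφ
  have hpt : ∀ w, Tendsto (fun N => (Q N).eval w) atTop (𝓝 (F w)) := fun w =>
    (tendstoLocallyUniformlyOn_univ.2 hQ).tendsto_at (mem_univ w)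
  have hne : ∀ᶠ N in atTop, (Q N).eval 0 ≠ 0 := by
    have h1 := hpt 0
    rw [hF0] at h1
    exact h1.eventually_ne one_ne_zero
  have hP : ∀ (δ : ℝ), 0 < δ → ∀ N, (Q N).eval 0 ≠ 0 →
      (∀ ω : ℝ, ‖(Q N).eval 0‖ ≤ ‖(Q N).eval (I * (ω : ℂ))‖) ∧
      Mom (fun ω : ℝ => cexp (-(δ : ℂ) * (ω : ℂ) ^ 2) *
        ((Q N).eval 0 / (Q N).eval (I * (ω : ℂ)))) ∧
      VD (fun ω : ℝ => cexp (-(δ : ℂ) * (ω : ℂ) ^ 2) *
        ((Q N).eval 0 / (Q N).eval (I * (ω : ℂ)))) := fun δ hδ N hN =>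
    poly_VD hC _ (Q N) rfl (hQr N) hN _ (gauss_mom hδ) (hG δ hδ)
  have hle : ∀ ω : ℝ, 1 ≤ ‖F (I * (ω : ℂ))‖ := by
    intro ω
    have h1 : Tendsto (fun N => ‖(Q N).eval 0‖) atTop (𝓝 ‖F 0‖) := (hpt 0).norm
    have h2 : Tendsto (fun N => ‖(Q N).eval (I * (ω : ℂ))‖) atTop (𝓝 ‖F (I * (ω : ℂ))‖) :=
      (hpt _).norm
    have h3 := le_of_tendsto_of_tendsto h1 h2 (by
      filter_upwards [hne] with N hN
      exact (hP 1 one_pos N hN).1 ω)
    rwa [hF0, norm_one] at h3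
  have hFne : ∀ ω : ℝ, F (I * (ω : ℂ)) ≠ 0 := fun ω h => by
    have := hle ω
    rw [h, norm_zero] at this
    linarith
  set ψ : ℝ → ℝ → ℂ := fun δ ω => cexp (-(δ : ℂ) * (ω : ℂ) ^ 2) * φ ω with hψ
  have key : ∀ δ : ℝ, 0 < δ → VD (ψ δ) := by
    intro δ hδ
    set χ : ℕ → ℝ → ℂ := fun N ω => cexp (-(δ : ℂ) * (ω : ℂ) ^ 2) *
      ((Q N).eval 0 / (Q N).eval (I * (ω : ℂ))) with hχ
    have hMM : ∀ᶠ N in atTop, Mom (χ N) := by
      filter_upwards [hne] with N hN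
      exact (hP δ hδ N hN).2.1
    have hVV : ∀ᶠ N in atTop, VD (χ N) := by
      filter_upwards [hne] with N hN
      exact (hP δ hδ N hN).2.2
    have hb : ∀ᶠ N in atTop, ∀ ω, ‖χ N ω‖ ≤ ‖cexp (-(δ : ℂ) * (ω : ℂ) ^ 2)‖ := by
      filter_upwards [hne] with N hN ω
      simp only [hχ]
      rw [norm_mul]
      refine mul_le_of_le_one_right (norm_nonneg _) ?_
      rw [norm_div]
      exact div_le_one_of_le₀ ((hP δ hδ N hN).1 ω) (norm_nonneg _)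
    have hlim : ∀ ω, Tendsto (fun N => χ N ω) atTop (𝓝 (ψ δ ω)) := by
      intro ω
      have h1 := (hpt 0).div (hpt (I * (ω : ℂ))) (hFne ω)
      have h2 := h1.const_mul (cexp (-(δ : ℂ) * (ω : ℂ) ^ 2))
      rw [hF0, one_div] at h2
      exact h2
    have hT : ∀ j x, Tendsto (fun N => RT (χ N) j x) atTop (𝓝 (RT (ψ δ) j x)) := fun j x =>
      LIMIT.conv (hMM.mono fun N h => h.cont) hb hlim j ((gauss_mom hδ).mom j) x
    exact VD_lim hT hVV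
  have hpos : ∀ n : ℕ, (0 : ℝ) < 1 / ((n : ℝ) + 1) := fun n => by positivity
  have hT : ∀ j x, Tendsto (fun n : ℕ => RT (ψ (1 / ((n : ℝ) + 1))) j x) atTop
      (𝓝 (RT φ j x)) := by
    intro j x
    refine LIMIT.conv (g := fun ω => ‖φ ω‖) ?_ ?_ ?_ j (hMom.mom j) x
    · refine Eventually.of_forall fun n => ?_
      exact (by fun_prop : Continuous fun ω : ℝ =>
        cexp (-((1 / ((n : ℝ) + 1) : ℝ) : ℂ) * (ω : ℂ) ^ 2)).mul hMom.cont
    · refine Eventually.of_forall fun n ω => ?_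
      simp only [hψ]
      rw [norm_mul]
      refine mul_le_of_le_one_left (norm_nonneg _) ?_
      have h1 : (-((1 / ((n : ℝ) + 1) : ℝ) : ℂ) * (ω : ℂ) ^ 2) =
          ((-(1 / ((n : ℝ) + 1)) * ω ^ 2 : ℝ) : ℂ) := by push_cast; ring
      rw [h1, Complex.norm_exp, Complex.ofReal_re, Real.exp_le_one_iff]
      have := hpos n
      nlinarith [sq_nonneg ω]
    · intro ω
      have h1 : Tendsto (fun n : ℕ => (1 / ((n : ℝ) + 1) : ℝ)) atTop (𝓝 0) :=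
        tendsto_one_div_add_atTop_nhds_zero_nat
      have h2 : Continuous fun δ : ℝ => cexp (-(δ : ℂ) * (ω : ℂ) ^ 2) * φ ω := by fun_prop
      have h3 := (h2.tendsto 0).comp h1
      have h4 : cexp (-((0 : ℝ) : ℂ) * (ω : ℂ) ^ 2) * φ ω = φ ω := by simp
      rw [h4] at h3
      exact h3
  exact VD_lim hT (Eventually.of_forall fun n => key _ (hpos n))

theorem RT_smul (r : ℝ) (φ : ℝ → ℂ) (j : ℕ) (x : ℝ) :
    RT (fun ω => (r : ℂ) * φ ω) j x = r * RT φ j x := by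
  have h : Tr (fun ω => (r : ℂ) * φ ω) j x = (r : ℂ) * Tr φ j x := by
    unfold Tr
    rw [← integral_const_mul]
    refine integral_congr_ae (ae_of_all _ fun ω => ?_)
    simp only
    ring
  unfold RT
  rw [h, Complex.re_ofReal_mul]

theorem VD_smul (r : ℝ) {φ : ℝ → ℂ} (hV : VD φ) : VD (fun ω => (r : ℂ) * φ ω) := by
  have hL : ∀ c0 c1 c2 c3 x : ℝ, LL (fun ω => (r : ℂ) * φ ω) c0 c1 c2 c3 x =
      LL φ (c0 * r) (c1 * r) (c2 * r) (c3 * r) x := by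
    intro c0 c1 c2 c3 x
    unfold LL
    rw [RT_smul, RT_smul, RT_smul, RT_smul]
    ring
  intro c0 c1 c2 c3 z0 z1 z2 z3 z4 h01 h12 h23 h34 p0 p1 p2 p3 p4
  rw [hL] at p0 p1 p2 p3 p4
  exact hV _ _ _ _ z0 z1 z2 z3 z4 h01 h12 h23 h34 p0 p1 p2 p3 p4

theorem mom_smul (r : ℝ) {φ : ℝ → ℂ} (hφ : Mom φ) : Mom (fun ω => (r : ℂ) * φ ω) := by
  refine ⟨continuous_const.mul hφ.cont, fun j => ?_, fun ω => ?_⟩
  · have h := (hφ.mom j).const_mul |r|
    refine h.congr (ae_of_all _ fun ω => ?_)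
    simp only
    rw [norm_mul, Complex.norm_real, Real.norm_eq_abs]
    ring
  · rw [hφ.sym, map_mul, Complex.conj_ofReal]

end Vpf

open Vpf

theorem t_V (hG : S_VG) (hC : S_VC) : S_V := by
  have hA0 : Ai 0 ≠ 0 := Ai_zero_ne
  have hA0c : (starRingEnd ℂ) (Ai 0) = Ai 0 := by
    have := Pool.Agent.H140R2.FR.Ai_conj 0
    rw [map_zero] at this
    exact this.symm
  set r : ℝ := (Ai 0).re with hr
  have hAr : Ai 0 = (r : ℂ) := (Complex.conj_eq_iff_re.1 hA0c).symm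
  have hr0 : r ≠ 0 := by
    intro h
    rw [h] at hAr
    exact hA0 (by rw [hAr]; simp)
  set F : ℂ → ℂ := fun z => Ai z / Ai 0 with hF
  have hFd : Differentiable ℂ F := Pool.Agent.H140R2.FR.Ai_differentiable.div_const _
  have hF0 : F 0 = 1 := div_self hA0
  have hFs : ∀ z, F ((starRingEnd ℂ) z) = (starRingEnd ℂ) (F z) := by
    intro z
    simp only [hF]
    rw [map_div₀, hA0c, Pool.Agent.H140R2.FR.Ai_conj]
  have hFz : ∀ z, F z = 0 → z.im = 0 := by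
    intro z hz
    by_contra him
    rcases div_eq_zero_iff.1 hz with h | h
    · exact Pool.Agent.H140R2.FR.Ai_ne_zero z (Or.inl him) h
    · exact hA0 h
  obtain ⟨K₀, hK₀, hK⟩ := t_GROW
  have hA0n : 0 < ‖Ai 0‖ := norm_pos_iff.mpr hA0
  have hgr : ∀ z, ‖F z‖ ≤ Real.exp ((K₀ + |Real.log ‖Ai 0‖|) * (1 + ‖z‖) ^ (3 / 2 : ℝ)) := by
    intro z
    have hz0 := norm_nonneg z
    have hP : (1 : ℝ) ≤ (1 + ‖z‖) ^ (3 / 2 : ℝ) := Real.one_le_rpow (by linarith) (by norm_num)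
    have hKz := hK z
    simp only [hF]
    rw [norm_div]
    generalize (1 + ‖z‖) ^ (3 / 2 : ℝ) = P at *
    have h3 : ‖Ai z‖ / ‖Ai 0‖ ≤ Real.exp (K₀ * P) * Real.exp |Real.log ‖Ai 0‖| := by
      rw [div_eq_mul_inv]
      have h4 : ‖Ai 0‖⁻¹ ≤ Real.exp |Real.log ‖Ai 0‖| := by
        have : ‖Ai 0‖⁻¹ = Real.exp (-Real.log ‖Ai 0‖) := by
          rw [Real.exp_neg, Real.exp_log hA0n]
        rw [this]
        exact Real.exp_le_exp.mpr (neg_le_abs _)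
      exact mul_le_mul hKz h4 (by positivity) (by positivity)
    refine h3.trans ?_
    rw [← Real.exp_add]
    apply Real.exp_le_exp.mpr
    have h5 : |Real.log ‖Ai 0‖| ≤ |Real.log ‖Ai 0‖| * P :=
      le_mul_of_one_le_right (abs_nonneg _) hP
    nlinarith
  have hQ := Pool.Agent.H260.CH.exists_polys F hFd hF0 hFs hFz
    (K := K₀ + |Real.log ‖Ai 0‖|) (by positivity) hgr
  have e1 : (fun ω : ℝ => (F (I * (ω : ℂ)))⁻¹) = fun ω : ℝ => (r : ℂ) * ph0 ω := by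
    funext ω
    simp only [hF, ph0]
    rw [inv_div, hAr, div_eq_mul_inv]
  have hMomF : Mom (fun ω : ℝ => (F (I * (ω : ℂ)))⁻¹) := by
    rw [e1]
    exact mom_smul r Pool.Agent.H260.CH.hPH.1
  have hV := lim_VD hG hC F hF0 hQ hMomF
  rw [e1] at hV
  have hV2 := VD_smul r⁻¹ hV
  have e2 : (fun ω : ℝ => ((r⁻¹ : ℝ) : ℂ) * ((r : ℂ) * ph0 ω)) = ph0 := by
    funext ω
    rw [← mul_assoc, Complex.ofReal_inv, inv_mul_cancel₀ (by exact_mod_cast hr0), one_mul]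
  rw [e2] at hV2
  exact hV2

end Pool.Agent.H260.CV
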