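import Pool.Agent.H260.CV.Stm
import Pool.Graph.R_seed8.R748.CH.CLOSE
import Pool.Graph.R_seed8.R748.CH.TR

/-! Project CV (helper260), piece VC by helper271: closure under division by a linear factor. -/

set_option autoImplicit false

open Complex MeasureTheory Set Filter Topology Polynomial
open Pool.Agent.H140R2.FR (Ai)
open Pool.Agent.R748.CH

namespace Pool.Agent.H271.CV

open Pool.Agent.H260.CV

lemma mvt_pos {M M' : ℝ → ℝ} (h : ∀ x, HasDerivAt M (M' x) x) {a b : ℝ} (hab : a < b)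
    (hM : M a < M b) : ∃ c, a < c ∧ c < b ∧ 0 < M' c := by
  obtain ⟨c, hc, he⟩ := exists_hasDerivAt_eq_slope M M' hab
    (fun x _ => (h x).continuousAt.continuousWithinAt) (fun x _ => h x)
  refine ⟨c, hc.1, hc.2, ?_⟩
  rw [he]
  exact div_pos (by linarith) (by linarith)

lemma mvt_neg {M M' : ℝ → ℝ} (h : ∀ x, HasDerivAt M (M' x) x) {a b : ℝ} (hab : a < b)
    (hM : M b < M a) : ∃ c, a < c ∧ c < b ∧ M' c < 0 := by
  obtain ⟨c, hc, he⟩ := exists_hasDerivAt_eq_slope M M' hab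
    (fun x _ => (h x).continuousAt.continuousWithinAt) (fun x _ => h x)
  refine ⟨c, hc.1, hc.2, ?_⟩
  rw [he]
  exact div_neg_of_neg_of_pos (by linarith) (by linarith)

theorem t_VC : S_VC := by
  intro φ hφ hVD α hα
  set ψ : ℝ → ℂ := fun ω : ℝ => φ ω / (1 + I * (ω : ℂ) / (α : ℂ)) with hψ
  have hM : Mom ψ := CLOSEpf.mom_close hφ α
  have hrel : ∀ (j : ℕ) (x : ℝ), RT ψ j x + RT ψ (j + 1) x / α = RT φ j x := by
    intro j x
    obtain ⟨-, a2, -, a4, -⟩ := t_TR ψ hM j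
    obtain ⟨-, b2, -, b4, -⟩ := t_TR ψ hM (j + 1)
    obtain ⟨-, c2, -, -, -⟩ := t_TR φ hφ j
    have h : Tr ψ j x + Tr ψ (j + 1) x / (α : ℂ) = Tr φ j x := by
      unfold Tr
      rw [← integral_div, ← integral_add (a4 x) ((b4 x).div_const _)]
      refine integral_congr_ae (ae_of_all _ fun ω => ?_)
      have h0 := CLOSEpf.den_ne α ω
      have h1 : φ ω = ψ ω * (1 + I * (ω : ℂ) / (α : ℂ)) := by
        rw [hψ]
        exact (div_mul_cancel₀ _ h0).symm
      simp only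
      rw [h1]
      ring
    rw [a2, b2, c2] at h
    exact_mod_cast h
  have hd : ∀ (j : ℕ) (x : ℝ), HasDerivAt (RT ψ j) (RT ψ (j + 1) x) x := fun j => (t_TR ψ hM j).1
  intro c0 c1 c2 c3 z0 z1 z2 z3 z4 h01 h12 h23 h34 p0 p1 p2 p3 p4
  -- the derivative of `LL ψ`
  have hH : ∀ x, HasDerivAt (LL ψ c0 c1 c2 c3)
      (c0 * RT ψ 1 x + c1 * RT ψ 2 x + c2 * RT ψ 3 x + c3 * RT ψ 4 x) x := by
    intro x
    unfold LL
    exact ((((hd 0 x).const_mul c0).add ((hd 1 x).const_mul c1)).add ((hd 2 x).const_mul c2)).add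
      ((hd 3 x).const_mul c3)
  have hF : ∀ x, LL φ c0 c1 c2 c3 x = LL ψ c0 c1 c2 c3 x +
      (c0 * RT ψ 1 x + c1 * RT ψ 2 x + c2 * RT ψ 3 x + c3 * RT ψ 4 x) / α := by
    intro x
    have r0 := hrel 0 x
    have r1 := hrel 1 x
    have r2 := hrel 2 x
    have r3 := hrel 3 x
    simp only [zero_add, Nat.reduceAdd] at r0 r1 r2 r3
    unfold LL
    rw [← r0, ← r1, ← r2, ← r3]
    ring
  set M : ℝ → ℝ := fun x => Real.exp (α * x) * LL ψ c0 c1 c2 c3 x with hMd
  have hM' : ∀ x, HasDerivAt M (α * (Real.exp (α * x) * LL φ c0 c1 c2 c3 x)) x := by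
    intro x
    have hexp : HasDerivAt (fun x : ℝ => Real.exp (α * x)) (Real.exp (α * x) * (α * 1)) x :=
      ((hasDerivAt_id x).const_mul α).exp
    refine (hexp.mul (hH x)).congr_deriv ?_
    rw [hF x]
    field_simp
  obtain ⟨C0, hC0⟩ := (t_TR ψ hM 0).2.2.1
  obtain ⟨C1, hC1⟩ := (t_TR ψ hM 1).2.2.1
  obtain ⟨C2, hC2⟩ := (t_TR ψ hM 2).2.2.1
  obtain ⟨C3, hC3⟩ := (t_TR ψ hM 3).2.2.1
  have hbd : ∃ C : ℝ, 0 < C ∧ ∀ x, |LL ψ c0 c1 c2 c3 x| ≤ C := by
    refine ⟨|c0| * C0 + |c1| * C1 + |c2| * C2 + |c3| * C3 + 1, ?_, fun x => ?_⟩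
    · have a0 := (abs_nonneg _).trans (hC0 0)
      have a1 := (abs_nonneg _).trans (hC1 0)
      have a2 := (abs_nonneg _).trans (hC2 0)
      have a3 := (abs_nonneg _).trans (hC3 0)
      positivity
    · unfold LL
      have b0 : |c0 * RT ψ 0 x| ≤ |c0| * C0 := by
        rw [abs_mul]; exact mul_le_mul_of_nonneg_left (hC0 x) (abs_nonneg _)
      have b1 : |c1 * RT ψ 1 x| ≤ |c1| * C1 := by
        rw [abs_mul]; exact mul_le_mul_of_nonneg_left (hC1 x) (abs_nonneg _)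
      have b2 : |c2 * RT ψ 2 x| ≤ |c2| * C2 := by
        rw [abs_mul]; exact mul_le_mul_of_nonneg_left (hC2 x) (abs_nonneg _)
      have b3 : |c3 * RT ψ 3 x| ≤ |c3| * C3 := by
        rw [abs_mul]; exact mul_le_mul_of_nonneg_left (hC3 x) (abs_nonneg _)
      rw [abs_le] at b0 b1 b2 b3 ⊢
      constructor <;> linarith [b0.1, b0.2, b1.1, b1.2, b2.1, b2.2, b3.1, b3.2]
  obtain ⟨C, hCpos, hC⟩ := hbd
  have hMb : ∀ x, |M x| ≤ Real.exp (α * x) * C := by
    intro x
    simp only [hMd]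
    rw [abs_mul, abs_of_pos (Real.exp_pos _)]
    exact mul_le_mul_of_nonneg_left (hC x) (Real.exp_pos _).le
  have hMpos : ∀ x, 0 < LL ψ c0 c1 c2 c3 x → 0 < M x := fun x hx => mul_pos (Real.exp_pos _) hx
  have hMneg : ∀ x, LL ψ c0 c1 c2 c3 x < 0 → M x < 0 := fun x hx =>
    mul_neg_of_pos_of_neg (Real.exp_pos _) hx
  have q0 := hMpos z0 p0
  have q1 := hMneg z1 p1
  have q2 := hMpos z2 p2
  have q3 := hMneg z3 p3
  have q4 := hMpos z4 p4
  -- exponential smallness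
  have hsmall : ∀ e : ℝ, 0 < e → ∀ z : ℝ, (0 < α → ∃ y, y < z ∧ M y < e) ∧
      (α < 0 → ∃ y, z < y ∧ M y < e) := by
    intro e he z
    have key : ∀ y : ℝ, α * y < Real.log (e / C) → M y < e := by
      intro y hy
      have h1 : Real.exp (α * y) < e / C := by
        rw [← Real.exp_log (div_pos he hCpos)]
        exact Real.exp_lt_exp.2 hy
      have h2 : Real.exp (α * y) * C < e := by
        rw [lt_div_iff₀ hCpos] at h1
        exact h1
      exact (le_abs_self _).trans_lt ((hMb y).trans_lt h2)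
    constructor
    · intro hpos
      refine ⟨min (z - 1) ((Real.log (e / C) - 1) / α), ?_, key _ ?_⟩
      · exact (min_le_left _ _).trans_lt (by linarith)
      · have h3 : α * min (z - 1) ((Real.log (e / C) - 1) / α) ≤ α * ((Real.log (e / C) - 1) / α) :=
          mul_le_mul_of_nonneg_left (min_le_right _ _) hpos.le
        rw [mul_div_cancel₀ _ hα] at h3
        linarith
    · intro hneg
      refine ⟨max (z + 1) ((Real.log (e / C) - 1) / α), ?_, key _ ?_⟩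
      · exact lt_of_lt_of_le (by linarith) (le_max_left _ _)
      · have h3 : α * max (z + 1) ((Real.log (e / C) - 1) / α) ≤ α * ((Real.log (e / C) - 1) / α) :=
          mul_le_mul_of_nonpos_left (le_max_right _ _) hneg.le
        rw [mul_div_cancel₀ _ hα] at h3
        linarith
  rcases lt_or_gt_of_ne hα with hneg | hpos
  · -- α < 0
    have sgn_pos : ∀ x, α * (Real.exp (α * x) * LL φ c0 c1 c2 c3 x) < 0 → 0 < LL φ c0 c1 c2 c3 x := by
      intro x hx
      by_contra hcon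
      push Not at hcon
      have h1 : Real.exp (α * x) * LL φ c0 c1 c2 c3 x ≤ 0 :=
        mul_nonpos_of_nonneg_of_nonpos (Real.exp_pos _).le hcon
      have h2 := mul_nonneg_of_nonpos_of_nonpos hneg.le h1
      linarith
    have sgn_neg : ∀ x, 0 < α * (Real.exp (α * x) * LL φ c0 c1 c2 c3 x) → LL φ c0 c1 c2 c3 x < 0 := by
      intro x hx
      by_contra hcon
      push Not at hcon
      have h1 : 0 ≤ Real.exp (α * x) * LL φ c0 c1 c2 c3 x := mul_nonneg (Real.exp_pos _).le hcon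
      have h2 := mul_nonpos_of_nonpos_of_nonneg hneg.le h1
      linarith
    obtain ⟨y, hy1, hy2⟩ := (hsmall (M z4) q4 z4).2 hneg
    obtain ⟨x0, a0, b0, s0⟩ := mvt_neg hM' h01 (by linarith)
    obtain ⟨x1, a1, b1, s1⟩ := mvt_pos hM' h12 (by linarith)
    obtain ⟨x2, a2, b2, s2⟩ := mvt_neg hM' h23 (by linarith)
    obtain ⟨x3, a3, b3, s3⟩ := mvt_pos hM' h34 (by linarith)
    obtain ⟨x4, a4, b4, s4⟩ := mvt_neg hM' hy1 hy2
    exact hVD c0 c1 c2 c3 x0 x1 x2 x3 x4 (by linarith) (by linarith) (by linarith) (by linarith)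
      (sgn_pos _ s0) (sgn_neg _ s1) (sgn_pos _ s2) (sgn_neg _ s3) (sgn_pos _ s4)
  · -- 0 < α
    have sgn_pos : ∀ x, 0 < α * (Real.exp (α * x) * LL φ c0 c1 c2 c3 x) → 0 < LL φ c0 c1 c2 c3 x := by
      intro x hx
      by_contra hcon
      push Not at hcon
      have h1 : Real.exp (α * x) * LL φ c0 c1 c2 c3 x ≤ 0 :=
        mul_nonpos_of_nonneg_of_nonpos (Real.exp_pos _).le hcon
      have h2 := mul_nonpos_of_nonneg_of_nonpos hpos.le h1
      linarith
    have sgn_neg : ∀ x, α * (Real.exp (α * x) * LL φ c0 c1 c2 c3 x) < 0 → LL φ c0 c1 c2 c3 x < 0 := by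
      intro x hx
      by_contra hcon
      push Not at hcon
      have h1 : 0 ≤ Real.exp (α * x) * LL φ c0 c1 c2 c3 x := mul_nonneg (Real.exp_pos _).le hcon
      have h2 := mul_nonneg hpos.le h1
      linarith
    obtain ⟨y, hy1, hy2⟩ := (hsmall (M z0) q0 z0).1 hpos
    obtain ⟨x0, a0, b0, s0⟩ := mvt_pos hM' hy1 hy2
    obtain ⟨x1, a1, b1, s1⟩ := mvt_neg hM' h01 (by linarith)
    obtain ⟨x2, a2, b2, s2⟩ := mvt_pos hM' h12 (by linarith)
    obtain ⟨x3, a3, b3, s3⟩ := mvt_neg hM' h23 (by linarith)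
    obtain ⟨x4, a4, b4, s4⟩ := mvt_pos hM' h34 (by linarith)
    exact hVD c0 c1 c2 c3 x0 x1 x2 x3 x4 (by linarith) (by linarith) (by linarith) (by linarith)
      (sgn_pos _ s0) (sgn_neg _ s1) (sgn_pos _ s2) (sgn_neg _ s3) (sgn_pos _ s4)

end Pool.Agent.H271.CV
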