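import Pool.Agent.H260.CV.Stm

set_option autoImplicit false

open Complex MeasureTheory Set Filter Topology

namespace Pool.Agent.H294.CV.VZC

open Pool.Agent.H260.CV (Phi)

/-- the primitive of an integrable continuous function -/
lemma prim {g : ℝ → ℝ} (hg : Continuous g) (hi : Integrable g) (x : ℝ) :
    HasDerivAt (fun x => ∫ t in Iic x, g t) (g x) x := by
  have h1 : ∀ y, ∫ t in Iic y, g t = (∫ t in Iic 0, g t) + ∫ t in (0:ℝ)..y, g t := by
    intro y
    rw [← intervalIntegral.integral_Iic_sub_Iic hi.integrableOn hi.integrableOn]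
    ring
  have h2 : HasDerivAt (fun y => (∫ t in Iic 0, g t) + ∫ t in (0:ℝ)..y, g t) (g x) x := by
    have := intervalIntegral.integral_hasDerivAt_right (hg.intervalIntegrable 0 x)
      (hg.stronglyMeasurableAtFilter _ _) hg.continuousAt
    exact this.const_add _
  exact h2.congr_of_eventuallyEq (Eventually.of_forall h1)

lemma prim_top {g : ℝ → ℝ} (hi : Integrable g) :
    Tendsto (fun x => ∫ t in Iic x, g t) atTop (𝓝 (∫ t, g t)) :=
  (aecover_Iic tendsto_id).integral_tendsto_of_countably_generated hi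

lemma prim_half {g : ℝ → ℝ} (hi : Integrable g) (he : ∀ x, g (-x) = g x) (h1 : ∫ x, g x = 1) :
    ∫ t in Iic 0, g t = 1 / 2 := by
  have h2 : ∫ t in Iic (0 : ℝ), g t + 0 = ∫ t in Iic (0 : ℝ), g t := by simp
  have h3 : ∫ t in Iic (0 : ℝ), g t = ∫ t in Ioi (0 : ℝ), g t := by
    have h4 := integral_comp_neg_Iic (0 : ℝ) g
    rw [neg_zero] at h4
    rw [← h4]
    exact setIntegral_congr_fun measurableSet_Iic (fun x _ => (he x).symm)
  have h4 := integral_add_compl (measurableSet_Iic (a := (0 : ℝ))) hi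
  rw [compl_Iic, ← h3, h1] at h4
  linarith

/-- the normal density -/
noncomputable def ph (t : ℝ) : ℝ := (Real.sqrt (2 * Real.pi))⁻¹ * Real.exp (-(t ^ 2) / 2)

lemma ph_cont : Continuous ph := by unfold ph; fun_prop

lemma c_pos : 0 < (Real.sqrt (2 * Real.pi))⁻¹ := by positivity

lemma ph_pos (t : ℝ) : 0 < ph t := mul_pos c_pos (Real.exp_pos _)

lemma ph_int : Integrable ph := by
  have h := (integrable_exp_neg_mul_sq (show (0 : ℝ) < 1 / 2 by norm_num)).const_mul
    (Real.sqrt (2 * Real.pi))⁻¹
  refine h.congr (Eventually.of_forall fun x => ?_)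
  show _ * Real.exp (-(1 / 2) * x ^ 2) = ph x
  unfold ph
  congr 2
  ring

lemma ph_one : ∫ t, ph t = 1 := by
  have h := integral_gaussian (1 / 2)
  have h1 : ∫ t, ph t = (Real.sqrt (2 * Real.pi))⁻¹ * ∫ x : ℝ, Real.exp (-(1 / 2) * x ^ 2) := by
    rw [← integral_const_mul]
    refine integral_congr_ae (Eventually.of_forall fun x => ?_)
    show ph x = _
    unfold ph
    congr 2
    ring
  rw [h1, h]
  have h2 : Real.pi / (1 / 2) = 2 * Real.pi := by ring
  rw [h2]
  exact inv_mul_cancel₀ (by positivity)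

lemma ph_even (x : ℝ) : ph (-x) = ph x := by unfold ph; congr 2; ring

lemma ph_der (x : ℝ) : HasDerivAt ph (-x * ph x) x := by
  unfold ph
  have h1 : HasDerivAt (fun t : ℝ => -(t ^ 2) / 2) (-x) x := by
    have := ((hasDerivAt_pow 2 x).neg).div_const 2
    have e : -(((2 : ℕ) : ℝ) * x ^ (2 - 1)) / 2 = -x := by norm_num; ring
    rw [e] at this
    exact this
  have h2 := (h1.exp).const_mul (Real.sqrt (2 * Real.pi))⁻¹
  have e : (Real.sqrt (2 * Real.pi))⁻¹ * (Real.exp (-(x ^ 2) / 2) * -x) =
    -x * ((Real.sqrt (2 * Real.pi))⁻¹ * Real.exp (-(x ^ 2) / 2)) := by ring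
  rw [e] at h2
  exact h2

lemma Phi_der (x : ℝ) : HasDerivAt Phi (ph x) x := prim ph_cont ph_int x

lemma Phi_mono : StrictMono Phi := by
  refine strictMono_of_deriv_pos fun x => ?_
  rw [(Phi_der x).deriv]
  exact ph_pos x

lemma Phi_zero : Phi 0 = 1 / 2 := prim_half ph_int ph_even ph_one

lemma Phi_top : Tendsto Phi atTop (𝓝 1) := by
  have := prim_top ph_int
  rw [ph_one] at this
  exact this

section
variable {f h S : ℝ → ℝ}

/-- continuity of the transform -/
lemma S_cont (hc : Continuous f) (hi : Integrable f)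
    (hS : ∀ w, Phi (S w) = ∫ t in Iic w, f t) : Continuous S := by
  rw [continuous_iff_continuousAt]
  intro w
  have hF : ContinuousAt (fun x => ∫ t in Iic x, f t) w := (prim hc hi w).continuousAt
  rw [Metric.continuousAt_iff']
  intro ε hε
  have h1 : Phi (S w - ε) < ∫ t in Iic w, f t := by
    rw [← hS]; exact Phi_mono (by linarith)
  have h2 : ∫ t in Iic w, f t < Phi (S w + ε) := by
    rw [← hS]; exact Phi_mono (by linarith)
  filter_upwards [hF.eventually_const_lt h1, hF.eventually_lt_const h2] with y hy1 hy2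
  rw [← hS y] at hy1 hy2
  have h3 := Phi_mono.lt_iff_lt.mp hy1
  have h4 := Phi_mono.lt_iff_lt.mp hy2
  rw [Real.dist_eq, abs_lt]
  constructor <;> linarith

/-- the derivative of the transform -/
lemma S_der (hc : Continuous f) (hi : Integrable f)
    (hS : ∀ w, Phi (S w) = ∫ t in Iic w, f t) (w : ℝ) : HasDerivAt S (f w / ph (S w)) w := by
  have hSc := (S_cont hc hi hS).continuousAt (x := w)
  have hF := prim hc hi w
  have h1 : ContinuousAt (dslope Phi (S w)) (S w) :=
    continuousAt_dslope_same.mpr (Phi_der (S w)).differentiableAt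
  have h2 : Tendsto (fun y => dslope Phi (S w) (S y)) (𝓝 w) (𝓝 (ph (S w))) := by
    have := h1.tendsto.comp hSc.tendsto
    rw [dslope_same, (Phi_der (S w)).deriv] at this
    exact this
  rw [hasDerivAt_iff_tendsto_slope] at hF ⊢
  have h3 := hF.div (h2.mono_left nhdsWithin_le_nhds) (ph_pos (S w)).ne'
  refine h3.congr' ?_
  have h4 : ∀ᶠ y in 𝓝[≠] w, dslope Phi (S w) (S y) ≠ 0 :=
    (h2.mono_left nhdsWithin_le_nhds).eventually_ne (ph_pos (S w)).ne'
  filter_upwards [h4, self_mem_nhdsWithin] with y hy hyw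
  have h5 : (S y - S w) * dslope Phi (S w) (S y) = Phi (S y) - Phi (S w) := by
    have := sub_smul_dslope Phi (S w) (S y)
    simpa [smul_eq_mul] using this
  show slope (fun x => ∫ t in Iic x, f t) w y / dslope Phi (S w) (S y) = slope S w y
  rw [slope_def_field, slope_def_field, ← hS y, ← hS w, ← h5]
  have h6 : y - w ≠ 0 := sub_ne_zero.mpr hyw
  field_simp

/-- the key inequality -/
lemma key (hf : ∀ x, HasDerivAt f (-(h x) * f x) x) (hp : ∀ x, 0 < f x)
    (he : ∀ x, f (-x) = f x) (hi : Integrable f) (h1 : ∫ x, f x = 1) (hhc : Continuous h)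
    (hcv : ConvexOn ℝ (Ici (0 : ℝ)) h) (hS : ∀ w, Phi (S w) = ∫ t in Iic w, f t)
    {w0 : ℝ} (hw0 : 0 < w0) : h w0 ≤ S w0 * (f w0 / ph (S w0)) := by
  by_contra hn
  push Not at hn
  have hc : Continuous f := continuous_iff_continuousAt.mpr fun x => (hf x).continuousAt
  obtain ⟨a, ha⟩ : ∃ a, a = f w0 / ph (S w0) := ⟨_, rfl⟩
  have ha0 : 0 < a := by rw [ha]; exact div_pos (hp w0) (ph_pos _)
  rw [← ha] at hn
  obtain ⟨s, hs⟩ : ∃ s, s = S w0 := ⟨_, rfl⟩
  rw [← hs] at hn ha
  -- the line
  let L : ℝ → ℝ := fun w => s + a * (w - w0)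
  have hL : ∀ w, HasDerivAt L a w := by
    intro w
    have := (((hasDerivAt_id w).sub_const w0).const_mul a).const_add s
    rw [mul_one] at this
    exact this
  have hLw0 : L w0 = s := by simp [L]
  -- the logarithm of the ratio
  let δ : ℝ → ℝ := fun w => Real.log (f w) - Real.log (a * ph (L w))
  have hφL : ∀ w, HasDerivAt (fun w => a * ph (L w)) (-(L w * a) * (a * ph (L w))) w := by
    intro w
    have := ((ph_der (L w)).comp w (hL w)).const_mul a
    have e : a * (-L w * ph (L w) * a) = -(L w * a) * (a * ph (L w)) := by ring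
    rw [e] at this
    exact this
  have hfLp : ∀ w, 0 < a * ph (L w) := fun w => mul_pos ha0 (ph_pos _)
  have hδ : ∀ w, HasDerivAt δ (a * L w - h w) w := by
    intro w
    have h2 := ((hf w).log (hp w).ne').sub ((hφL w).log (hfLp w).ne')
    have e : -(h w) * f w / f w - -(L w * a) * (a * ph (L w)) / (a * ph (L w)) = a * L w - h w := by
      rw [mul_div_assoc, div_self (hp w).ne', mul_div_assoc, div_self (hfLp w).ne']
      ring
    rw [e] at h2
    exact h2
  have hδ0 : δ w0 = 0 := by
    show Real.log (f w0) - Real.log (a * ph (L w0)) = 0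
    rw [hLw0, ha, div_mul_cancel₀ _ (ph_pos s).ne', sub_self]
  have hδlt : ∀ w, δ w < 0 → f w < a * ph (L w) := by
    intro w hw
    have : Real.log (f w) < Real.log (a * ph (L w)) := by
      have : Real.log (f w) - Real.log (a * ph (L w)) < 0 := hw
      linarith
    exact (Real.log_lt_log_iff (hp w) (hfLp w)).mp this
  have hδle : ∀ w, δ w ≤ 0 → f w ≤ a * ph (L w) := by
    intro w hw
    have : Real.log (f w) ≤ Real.log (a * ph (L w)) := by
      have : Real.log (f w) - Real.log (a * ph (L w)) ≤ 0 := hw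
      linarith
    exact (Real.log_le_log_iff (hp w) (hfLp w)).mp this
  have hδge : ∀ w, 0 ≤ δ w → a * ph (L w) ≤ f w := by
    intro w hw
    have : Real.log (a * ph (L w)) ≤ Real.log (f w) := by
      have : 0 ≤ Real.log (f w) - Real.log (a * ph (L w)) := hw
      linarith
    exact (Real.log_le_log_iff (hfLp w) (hp w)).mp this
  have hd0 : a * L w0 - h w0 < 0 := by rw [hLw0]; linarith
  have hdc : Continuous (fun w => a * L w - h w) := by
    have : Continuous L := by show Continuous (fun w => s + a * (w - w0)); fun_prop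
    exact (this.const_mul a).sub hhc
  have hδc : Continuous δ := continuous_iff_continuousAt.mpr fun w => (hδ w).continuousAt
  -- the difference of the distribution functions
  let G : ℝ → ℝ := fun w => Phi (L w) - ∫ t in Iic w, f t
  have hG : ∀ w, HasDerivAt G (a * ph (L w) - f w) w := by
    intro w
    have h2 := ((Phi_der (L w)).comp w (hL w)).sub (prim hc hi w)
    rw [mul_comm] at h2
    exact h2
  have hG0 : G w0 = 0 := by
    show Phi (L w0) - ∫ t in Iic w0, f t = 0
    rw [hLw0, ← hS, hs, sub_self]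
  have hGc : Continuous G := continuous_iff_continuousAt.mpr fun w => (hG w).continuousAt
  have hGtop : Tendsto G atTop (𝓝 0) := by
    have h2 : Tendsto L atTop atTop := by
      show Tendsto (fun w => s + a * (w - w0)) atTop atTop
      exact tendsto_atTop_add_const_left _ _
        ((tendsto_atTop_add_const_right _ (-w0) tendsto_id).const_mul_atTop ha0)
    have h3 := (Phi_top.comp h2).sub (prim_top hi)
    rw [h1, sub_self] at h3
    exact h3
  -- step 1: a point with positive derivative
  have step1 : ∃ w1, w0 < w1 ∧ 0 < a * L w1 - h w1 := by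
    by_contra hcon
    push Not at hcon
    have hanti : AntitoneOn δ (Ici w0) := by
      refine antitoneOn_of_deriv_nonpos (convex_Ici w0) hδc.continuousOn
        (fun x _ => (hδ x).differentiableAt.differentiableWithinAt) ?_
      intro x hx
      rw [interior_Ici] at hx
      rw [(hδ x).deriv]
      exact hcon x hx
    have hle : ∀ w, w0 ≤ w → δ w ≤ 0 := by
      intro w hw
      have := hanti (Set.mem_Ici.mpr le_rfl) hw hw
      rwa [hδ0] at this
    have hmono : MonotoneOn G (Ici w0) := by
      refine monotoneOn_of_deriv_nonneg (convex_Ici w0) hGc.continuousOn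
        (fun x _ => (hG x).differentiableAt.differentiableWithinAt) ?_
      intro x hx
      rw [interior_Ici] at hx
      rw [(hG x).deriv]
      have := hδle x (hle x (le_of_lt hx))
      linarith
    have hG2 : ∀ w, w0 ≤ w → G w = 0 := by
      intro w hw
      refine le_antisymm ?_ ?_
      · refine ge_of_tendsto hGtop ?_
        filter_upwards [eventually_ge_atTop w] with y hy
        exact hmono hw (hw.trans hy) hy
      · rw [← hG0]
        exact hmono (Set.mem_Ici.mpr le_rfl) hw hw
    -- strict decrease near `w0`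
    have hnear : ∀ᶠ w in 𝓝 w0, a * L w - h w < 0 := hdc.continuousAt.eventually_lt_const hd0
    obtain ⟨ε, hε, hball⟩ := Metric.eventually_nhds_iff.mp hnear
    have hsa : StrictAntiOn δ (Icc w0 (w0 + ε / 2)) := by
      refine strictAntiOn_of_deriv_neg (convex_Icc _ _) hδc.continuousOn ?_
      intro x hx
      rw [interior_Icc] at hx
      rw [(hδ x).deriv]
      refine hball ?_
      rw [Real.dist_eq, abs_lt]
      constructor <;> linarith [hx.1, hx.2]
    have h4 : δ (w0 + ε / 2) < 0 := by
      rw [← hδ0]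
      exact hsa ⟨le_rfl, by linarith⟩ ⟨by linarith, le_rfl⟩ (by linarith)
    have h5 := hδlt _ h4
    have h6 : HasDerivAt G 0 (w0 + ε / 2) := by
      refine (hasDerivAt_const (w0 + ε / 2) (0 : ℝ)).congr_of_eventuallyEq ?_
      filter_upwards [lt_mem_nhds (show w0 < w0 + ε / 2 by linarith)] with y hy
      exact hG2 y hy.le
    have h7 := h6.unique (hG _)
    linarith
  obtain ⟨w1, hw1, hw1'⟩ := step1
  -- step 2: concavity
  have step2 : ∀ w, 0 ≤ w → w ≤ w0 → a * L w - h w < 0 := by
    intro w hw hw'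
    rcases hw'.eq_or_lt with rfl | hlt
    · exact hd0
    by_contra hcon
    push Not at hcon
    -- `w0 = (1 - t) w + t w1`
    obtain ⟨t, ht⟩ : ∃ t, t = (w0 - w) / (w1 - w) := ⟨_, rfl⟩
    have hww : 0 < w1 - w := by linarith
    have ht0 : 0 < t := by rw [ht]; exact div_pos (by linarith) hww
    have ht1 : t < 1 := by rw [ht, div_lt_one hww]; linarith
    have hcomb : (1 - t) * w + t * w1 = w0 := by rw [ht]; field_simp; ring
    have h2 := hcv.2 (show w ∈ Ici (0 : ℝ) from hw) (show w1 ∈ Ici (0 : ℝ) from by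
      show (0 : ℝ) ≤ w1; linarith) (show 0 ≤ 1 - t by linarith) ht0.le (by ring)
    simp only [smul_eq_mul] at h2
    rw [hcomb] at h2
    have h3 : L w0 = (1 - t) * L w + t * L w1 := by
      show s + a * (w0 - w0) = (1 - t) * (s + a * (w - w0)) + t * (s + a * (w1 - w0))
      have : (1 - t) * (s + a * (w - w0)) + t * (s + a * (w1 - w0)) =
        s + a * (((1 - t) * w + t * w1) - w0) := by ring
      rw [this, hcomb]
    have h4 : 0 ≤ (1 - t) * (a * L w - h w) := mul_nonneg (by linarith) hcon
    have h5 : 0 < t * (a * L w1 - h w1) := mul_pos ht0 hw1'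
    have h6 : a * L w0 - h w0 ≥ (1 - t) * (a * L w - h w) + t * (a * L w1 - h w1) := by
      rw [h3]; nlinarith
    linarith
  -- step 3: comparison on `[0, w0]`
  have hh0 : h 0 = 0 := by
    have h2 : HasDerivAt (fun x => f (-x)) (-(-(h (-0)) * f (-0))) 0 := by
      have := (hf (-0)).comp (0 : ℝ) (hasDerivAt_neg (0 : ℝ))
      rw [mul_neg_one] at this
      exact this
    have h3 : (fun x => f (-x)) = f := funext he
    rw [h3, neg_zero] at h2
    have h4 := h2.unique (hf 0)
    have h5 := hp 0
    have h6 : h 0 * f 0 = 0 := by linarith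
    rcases mul_eq_zero.mp h6 with h7 | h7
    · exact h7
    · exact absurd h7 h5.ne'
  have hL0 : L 0 < 0 := by
    have h2 := step2 0 le_rfl hw0.le
    rw [hh0, sub_zero] at h2
    by_contra hcon
    push Not at hcon
    have : 0 ≤ a * L 0 := mul_nonneg ha0.le hcon
    linarith
  have hanti2 : AntitoneOn δ (Icc 0 w0) := by
    refine antitoneOn_of_deriv_nonpos (convex_Icc 0 w0) hδc.continuousOn
      (fun x _ => (hδ x).differentiableAt.differentiableWithinAt) ?_
    intro x hx
    rw [interior_Icc] at hx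
    rw [(hδ x).deriv]
    exact (step2 x hx.1.le hx.2.le).le
  have hanti3 : AntitoneOn G (Icc 0 w0) := by
    refine antitoneOn_of_deriv_nonpos (convex_Icc 0 w0) hGc.continuousOn
      (fun x _ => (hG x).differentiableAt.differentiableWithinAt) ?_
    intro x hx
    rw [interior_Icc] at hx
    rw [(hG x).deriv]
    have h2 : 0 ≤ δ x := by
      rw [← hδ0]
      exact hanti2 ⟨hx.1.le, hx.2.le⟩ ⟨hw0.le, le_rfl⟩ hx.2.le
    have := hδge x h2
    linarith
  have h8 : G w0 ≤ G 0 := hanti3 ⟨le_rfl, hw0.le⟩ ⟨hw0.le, le_rfl⟩ hw0.le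
  rw [hG0] at h8
  have h9 : Phi (L 0) < Phi 0 := Phi_mono hL0
  have h10 : G 0 = Phi (L 0) - 1 / 2 := by
    show Phi (L 0) - ∫ t in Iic 0, f t = _
    rw [prim_half hi he h1]
  rw [h10] at h8
  rw [Phi_zero] at h9
  linarith

theorem main (hf : ∀ x, HasDerivAt f (-(h x) * f x) x) (hp : ∀ x, 0 < f x)
    (he : ∀ x, f (-x) = f x) (hi : Integrable f) (h1 : ∫ x, f x = 1) (hhc : Continuous h)
    (hcv : ConvexOn ℝ (Ici (0 : ℝ)) h) (hS : ∀ w, Phi (S w) = ∫ t in Iic w, f t) :
    ConvexOn ℝ (Ici (0 : ℝ)) S := by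
  have hc : Continuous f := continuous_iff_continuousAt.mpr fun x => (hf x).continuousAt
  have hSd := S_der hc hi hS
  have hderiv : deriv S = fun w => f w / ph (S w) := funext fun w => (hSd w).deriv
  refine MonotoneOn.convexOn_of_deriv (convex_Ici 0) (S_cont hc hi hS).continuousOn
    (fun x _ => (hSd x).differentiableAt.differentiableWithinAt) ?_
  rw [hderiv, interior_Ici]
  have hd2 : ∀ w, HasDerivAt (fun w => f w / ph (S w))
      ((f w / ph (S w)) * (S w * (f w / ph (S w)) - h w)) w := by
    intro w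
    have h2 := (ph_der (S w)).comp w (hSd w)
    have h3 := (hf w).div h2 (ph_pos (S w)).ne'
    have h4 := (ph_pos (S w)).ne'
    have e : (-(h w) * f w * (ph ∘ S) w - f w * (-S w * ph (S w) * (f w / ph (S w)))) /
        (ph ∘ S) w ^ 2 = (f w / ph (S w)) * (S w * (f w / ph (S w)) - h w) := by
      simp only [Function.comp]
      field_simp
      ring
    rw [e] at h3
    exact h3
  refine monotoneOn_of_deriv_nonneg (convex_Ioi 0)
    (fun x _ => (hd2 x).continuousAt.continuousWithinAt)
    (fun x _ => (hd2 x).differentiableAt.differentiableWithinAt) ?_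
  intro x hx
  rw [interior_Ioi] at hx
  rw [(hd2 x).deriv]
  have h2 := key hf hp he hi h1 hhc hcv hS hx
  have h3 : 0 < f x / ph (S x) := div_pos (hp x) (ph_pos _)
  exact mul_nonneg h3.le (by linarith)

end

end Pool.Agent.H294.CV.VZC

namespace Pool.Agent.H294.CV

theorem t_VZC : Pool.Agent.H260.CV.S_VZC := by
  intro f h hf hp he hi h1 hhc hcv S hS
  exact VZC.main hf hp he hi h1 hhc hcv hS

end Pool.Agent.H294.CV
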