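import Pool.Agent.H260.CV.Stm

/-! # CV-VZE: existence and uniqueness of the normal transform (helper30) -/

set_option autoImplicit false

open MeasureTheory Set Filter Topology

namespace Pool.Agent.H30.CV

open Pool.Agent.H260.CV

/-- the standard normal density -/
noncomputable def ndens (t : ℝ) : ℝ := (Real.sqrt (2 * Real.pi))⁻¹ * Real.exp (-(t ^ 2) / 2)

theorem Phi_eq (x : ℝ) : Phi x = ∫ t in Set.Iic x, ndens t := rfl

theorem ndens_pos (t : ℝ) : 0 < ndens t := by
  unfold ndens
  have := Real.pi_pos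
  positivity

theorem ndens_neg (t : ℝ) : ndens (-t) = ndens t := by
  unfold ndens
  rw [neg_sq]

theorem ndens_continuous : Continuous ndens := by
  unfold ndens
  fun_prop

theorem ndens_integrable : Integrable ndens := by
  unfold ndens
  refine Integrable.const_mul ?_ _
  have h := integrable_exp_neg_mul_sq (b := 1 / 2) (by norm_num)
  refine h.congr (Eventually.of_forall fun t => ?_)
  simp only
  congr 1
  ring

theorem ndens_integral : ∫ t, ndens t = 1 := by
  unfold ndens
  rw [integral_const_mul]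
  have h := integral_gaussian (1 / 2)
  have h2 : ∫ t : ℝ, Real.exp (-(t ^ 2) / 2) = ∫ t : ℝ, Real.exp (-(1 / 2) * t ^ 2) := by
    congr 1
    funext t
    congr 1
    ring
  rw [h2, h]
  have h3 : Real.pi / (1 / 2) = 2 * Real.pi := by ring
  rw [h3]
  exact inv_mul_cancel₀ (Real.sqrt_ne_zero'.2 (by have := Real.pi_pos; positivity))

theorem Phi_sub (a b : ℝ) : Phi b - Phi a = ∫ t in a..b, ndens t := by
  rw [Phi_eq, Phi_eq]
  exact intervalIntegral.integral_Iic_sub_Iic ndens_integrable.integrableOn
    ndens_integrable.integrableOn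

theorem hasDerivAt_Phi (x : ℝ) :
    HasDerivAt Phi ((Real.sqrt (2 * Real.pi))⁻¹ * Real.exp (-(x ^ 2) / 2)) x := by
  have h1 : HasDerivAt (fun u => ∫ t in (0 : ℝ)..u, ndens t) (ndens x) x :=
    (ndens_continuous.integral_hasStrictDerivAt 0 x).hasDerivAt
  have h2 : Phi = fun u => (∫ t in (0 : ℝ)..u, ndens t) + Phi 0 := by
    funext u
    rw [← Phi_sub]
    ring
  rw [h2]
  exact h1.add_const _

theorem Phi_continuous : Continuous Phi :=
  continuous_iff_continuousAt.2 fun x => (hasDerivAt_Phi x).continuousAt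

theorem Phi_strictMono : StrictMono Phi := by
  intro a b hab
  have h := intervalIntegral.intervalIntegral_pos_of_pos
    (ndens_continuous.intervalIntegrable a b) ndens_pos hab
  rw [← Phi_sub] at h
  linarith

theorem Phi_tendsto_atTop : Tendsto Phi atTop (𝓝 1) := by
  have h := tendsto_setIntegral_of_monotone (μ := volume) (f := ndens) (s := fun x : ℝ => Set.Iic x)
    (fun _ => measurableSet_Iic) (fun _ _ hab => Set.Iic_subset_Iic.2 hab)
    ndens_integrable.integrableOn
  have h2 : (⋃ n : ℝ, Set.Iic n) = Set.univ := by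
    ext y
    simp only [Set.mem_iUnion, Set.mem_Iic, Set.mem_univ, iff_true]
    exact ⟨y, le_rfl⟩
  rw [h2, Measure.restrict_univ, ndens_integral] at h
  exact h

theorem Phi_neg (x : ℝ) : Phi (-x) = 1 - Phi x := by
  have h1 : Phi (-x) = ∫ t in Set.Ioi x, ndens t := by
    have h := integral_comp_neg_Iic (-x) ndens
    rw [neg_neg] at h
    rw [← h, Phi_eq]
    congr 1
    funext t
    rw [ndens_neg]
  have h2 := intervalIntegral.integral_Iic_add_Ioi (b := x) (f := ndens) (μ := volume)
    ndens_integrable.integrableOn ndens_integrable.integrableOn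
  rw [ndens_integral, ← Phi_eq, ← h1] at h2
  linarith

theorem Phi_tendsto_atBot : Tendsto Phi atBot (𝓝 0) := by
  have h1 : Tendsto (fun x : ℝ => 1 - Phi (-x)) atBot (𝓝 (1 - 1)) :=
    (Phi_tendsto_atTop.comp tendsto_neg_atBot_atTop).const_sub 1
  rw [sub_self] at h1
  refine h1.congr fun x => ?_
  rw [Phi_neg]
  ring

theorem Phi_zero : Phi 0 = 1 / 2 := by
  have h := Phi_neg 0
  rw [neg_zero] at h
  linarith

theorem Phi_lt_one (x : ℝ) : Phi x < 1 := by
  have h1 : Phi x < Phi (x + 1) := Phi_strictMono (by linarith)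
  have h2 : Phi (x + 1) ≤ 1 := Phi_strictMono.monotone.ge_of_tendsto Phi_tendsto_atTop _
  linarith

theorem Phi_pos (x : ℝ) : 0 < Phi x := by
  have h1 := Phi_lt_one (-x)
  rw [Phi_neg] at h1
  linarith

/-- the values of `Phi` are the numbers between `0` and `1` -/
theorem exists_Phi_eq {c : ℝ} (h0 : 0 < c) (h1 : c < 1) : ∃ x, Phi x = c := by
  have ha : ∃ a, Phi a ≤ c :=
    ((Phi_tendsto_atBot.eventually (gt_mem_nhds h0)).exists).imp fun _ h => h.le
  have hb : ∃ b, c ≤ Phi b :=
    ((Phi_tendsto_atTop.eventually (lt_mem_nhds h1)).exists).imp fun _ h => h.le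
  exact mem_range_of_exists_le_of_exists_ge Phi_continuous ha hb

/-- the integral of a positive function over a set of positive measure -/
theorem setIntegral_pos' {f : ℝ → ℝ} (hf : ∀ x, 0 < f x) (hi : Integrable f) {s : Set ℝ}
    (hs : 0 < volume s) : 0 < ∫ t in s, f t := by
  rw [setIntegral_pos_iff_support_of_nonneg_ae (Eventually.of_forall fun x => (hf x).le)
    hi.integrableOn]
  have h : Function.support f = Set.univ := by
    ext x
    simp only [Function.mem_support, Set.mem_univ, iff_true]
    exact (hf x).ne'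
  rw [h, Set.univ_inter]
  exact hs

theorem t_VZE : Pool.Agent.H260.CV.S_VZE := by
  intro f hf hi h1
  have hval : ∀ w : ℝ, 0 < (∫ t in Iic w, f t) ∧ (∫ t in Iic w, f t) < 1 := by
    intro w
    have e1 : 0 < ∫ t in Iic w, f t := setIntegral_pos' hf hi (by rw [Real.volume_Iic]; simp)
    have e2 : 0 < ∫ t in Ioi w, f t := setIntegral_pos' hf hi (by rw [Real.volume_Ioi]; simp)
    have e3 := intervalIntegral.integral_Iic_add_Ioi (b := w) (f := f) (μ := volume)
      hi.integrableOn hi.integrableOn
    rw [h1] at e3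
    exact ⟨e1, by linarith⟩
  have hex : ∀ w : ℝ, ∃ x, Phi x = ∫ t in Iic w, f t := fun w =>
    exists_Phi_eq (hval w).1 (hval w).2
  choose S hS using hex
  refine ⟨S, hS, fun S' hS' => ?_⟩
  funext w
  exact Phi_strictMono.injective ((hS' w).trans (hS w).symm)

end Pool.Agent.H30.CV
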