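import Pool.Agent.H260.CV.Stm
import Pool.Agent.H260.CH.Fin

set_option autoImplicit false

open Complex MeasureTheory Set Filter Topology
open Pool.Agent.H140R2.FR (Ai)
open Pool.Agent.R748.CH
open Pool.Agent.H260.CV

namespace Pool.Agent.H353.CVWR

lemma om_eq : om = ((-(1 / 2) : ℝ) : ℂ) + ((Real.sqrt 3 / 2 : ℝ) : ℂ) * I := by
  unfold om
  have h1 : (2 * (Real.pi : ℂ) * I / 3) = ((Real.pi - Real.pi / 3 : ℝ) : ℂ) * I := by
    push_cast
    ring
  rw [h1, Complex.exp_mul_I, ← Complex.ofReal_cos, ← Complex.ofReal_sin, Real.cos_pi_sub,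
    Real.sin_pi_sub, Real.cos_pi_div_three, Real.sin_pi_div_three]

lemma s3 : ((Real.sqrt 3 : ℝ) : ℂ) ^ 2 = 3 := by
  rw [← Complex.ofReal_pow, Real.sq_sqrt (by norm_num)]
  norm_num

lemma om_sq : om ^ 2 = ((-(1 / 2) : ℝ) : ℂ) - ((Real.sqrt 3 / 2 : ℝ) : ℂ) * I := by
  rw [om_eq]
  have h := s3
  have hI := Complex.I_sq
  push_cast
  linear_combination (1 / 4 : ℂ) * ((Real.sqrt 3 : ℝ) : ℂ) ^ 2 * hI - (1 / 4 : ℂ) * h

lemma om_cube : om ^ 3 = 1 := by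
  have h1 : om ^ 3 = om ^ 2 * om := by ring
  rw [h1, om_sq, om_eq]
  have h := s3
  have hI := Complex.I_sq
  push_cast
  linear_combination -(1 / 4 : ℂ) * ((Real.sqrt 3 : ℝ) : ℂ) ^ 2 * hI + (1 / 4 : ℂ) * h

lemma hAi (z : ℂ) : HasDerivAt Ai (deriv Ai z) z :=
  (Pool.Agent.H140R2.FR.Ai_differentiable z).hasDerivAt

lemma hAi' (z : ℂ) : HasDerivAt (deriv Ai) (z * Ai z) z := by
  have h1 : Differentiable ℂ (deriv Ai) :=
    (Pool.Agent.H140R2.FR.Ai_differentiable.contDiff (n := 2)).differentiable_deriv_two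
  have h2 := (h1 z).hasDerivAt
  rwa [Pool.Agent.H140R2.FR.Ai_ode] at h2

/-- the Wronskian -/
noncomputable def WW (s : ℂ) : ℂ :=
  Ai s * (om ^ 2 * deriv Ai (om ^ 2 * s)) - deriv Ai s * Ai (om ^ 2 * s)

lemma WW_deriv (s : ℂ) : HasDerivAt WW 0 s := by
  have hl : HasDerivAt (fun s : ℂ => om ^ 2 * s) (om ^ 2) s := by
    simpa using (hasDerivAt_id s).const_mul (om ^ 2)
  have h1 : HasDerivAt (fun s => Ai (om ^ 2 * s)) (deriv Ai (om ^ 2 * s) * om ^ 2) s :=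
    (hAi (om ^ 2 * s)).comp s hl
  have h2 : HasDerivAt (fun s => deriv Ai (om ^ 2 * s))
      ((om ^ 2 * s) * Ai (om ^ 2 * s) * om ^ 2) s := (hAi' (om ^ 2 * s)).comp s hl
  have h3 := ((hAi s).mul (h2.const_mul (om ^ 2))).sub ((hAi' s).mul h1)
  refine h3.congr_deriv ?_
  have h4 : om ^ 6 = 1 := by
    have : om ^ 6 = (om ^ 3) ^ 2 := by ring
    rw [this, om_cube, one_pow]
  linear_combination Ai s * s * Ai (om ^ 2 * s) * h4

lemma WW_const (s : ℂ) : WW s = (om ^ 2 - 1) * (Ai 0 * deriv Ai 0) := by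
  have h1 : Differentiable ℂ WW := fun s => (WW_deriv s).differentiableAt
  have h2 : WW s = WW 0 := is_const_of_deriv_eq_zero h1 (fun s => (WW_deriv s).deriv) s 0
  rw [h2]
  unfold WW
  rw [mul_zero]
  ring

lemma Ai_ne (ω : ℝ) : Ai (I * (ω : ℂ)) ≠ 0 :=
  Pool.Agent.H140R2.FR.Ai_ne_zero _ (Or.inr (by simp))

lemma ratio_deriv (y : ℝ) : HasDerivAt (fun y : ℝ => Ai (om ^ 2 * (I * (y : ℂ))) / Ai (I * (y : ℂ)))
    (I * ((om ^ 2 - 1) * (Ai 0 * deriv Ai 0)) * ph0 y ^ 2) y := by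
  have hy : HasDerivAt (fun y : ℝ => I * (y : ℂ)) I y := by
    have h := (Complex.ofRealCLM.hasDerivAt (x := y)).const_mul I
    simpa using h
  have hl : HasDerivAt (fun s : ℂ => om ^ 2 * s) (om ^ 2) (I * (y : ℂ)) := by
    simpa using (hasDerivAt_id (I * (y : ℂ))).const_mul (om ^ 2)
  have h1 : HasDerivAt (fun s => Ai (om ^ 2 * s)) (deriv Ai (om ^ 2 * (I * (y : ℂ))) * om ^ 2)
      (I * (y : ℂ)) := (hAi (om ^ 2 * (I * (y : ℂ)))).comp _ hl
  have h2 := h1.div (hAi (I * (y : ℂ))) (Ai_ne y)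
  have h3 := h2.scomp y hy
  refine HasDerivAt.congr_deriv h3 ?_
  have h4 := WW_const (I * (y : ℂ))
  unfold WW at h4
  rw [← h4]
  have h5 := Ai_ne y
  unfold ph0
  rw [smul_eq_mul]
  field_simp

lemma ph0_sq_int : Integrable (fun ω : ℝ => ph0 ω ^ 2) := by
  obtain ⟨C, hC, h⟩ := Pool.Agent.H260.CH.hDECAY 0 0 le_rfl le_rfl
  have hb : ∀ ω : ℝ, ‖ph0 ω‖ ≤ C := by
    intro ω
    have h1 := h 0 ω le_rfl le_rfl
    simpa [ph0] using h1
  have hint : Integrable ph0 := by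
    have h1 := Pool.Agent.H260.CH.hPH.1.mom 0
    simp only [pow_zero, one_mul] at h1
    exact (integrable_norm_iff Pool.Agent.H260.CH.hPH.1.cont.aestronglyMeasurable).1 h1
  have h2 : (fun ω : ℝ => ph0 ω ^ 2) = fun ω => ph0 ω * ph0 ω := by
    funext ω
    ring
  rw [h2]
  exact hint.bdd_mul Pool.Agent.H260.CH.hPH.1.cont.aestronglyMeasurable
    (Filter.Eventually.of_forall hb)

theorem t_WR (h1 : S_WR1) (h2 : S_WR2) : S_WR := by
  unfold S_WR
  set W : ℂ := (om ^ 2 - 1) * (Ai 0 * deriv Ai 0) with hW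
  have hWe : W = ((Real.sqrt 3 / (4 * Real.pi) : ℝ) : ℂ) + ((1 / (4 * Real.pi) : ℝ) : ℂ) * I := by
    rw [hW, h1, om_sq]
    have h := s3
    have hpi : (Real.pi : ℂ) ≠ 0 := by exact_mod_cast Real.pi_ne_zero
    have h3 : ((Real.sqrt 3 : ℝ) : ℂ) ≠ 0 := by
      intro h4
      rw [h4] at h
      norm_num at h
    push_cast
    field_simp
    linear_combination (-4 : ℂ) * h
  have hI1 : IntegrableOn (fun y : ℝ => I * W * ph0 y ^ 2) (Ioi 0) :=
    (ph0_sq_int.const_mul (I * W)).integrableOn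
  have key := integral_Ioi_of_hasDerivAt_of_tendsto (a := (0 : ℝ))
    (f := fun y : ℝ => Ai (om ^ 2 * (I * (y : ℂ))) / Ai (I * (y : ℂ)))
    (f' := fun y : ℝ => I * W * ph0 y ^ 2)
    (ratio_deriv 0).continuousAt.continuousWithinAt (fun y _ => ratio_deriv y) hI1 h2
  have h0 : Ai (om ^ 2 * (I * ((0 : ℝ) : ℂ))) / Ai (I * ((0 : ℝ) : ℂ)) = 1 := by
    have h3 := Ai_ne 0
    have h4 : om ^ 2 * (I * ((0 : ℝ) : ℂ)) = I * ((0 : ℝ) : ℂ) := by simp
    rw [h4, div_self h3]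
  rw [h0, integral_const_mul] at key
  set J := ∫ y in Ioi (0 : ℝ), ph0 y ^ 2 with hJ
  have hconj : ∫ y in Iic (0 : ℝ), ph0 y ^ 2 = (starRingEnd ℂ) J := by
    rw [hJ, ← integral_conj]
    have h3 := integral_comp_neg_Ioi (0 : ℝ) (fun y => ph0 y ^ 2)
    rw [neg_zero] at h3
    rw [← h3]
    refine setIntegral_congr_fun measurableSet_Ioi fun y _ => ?_
    rw [Pool.Agent.H260.CH.hPH.1.sym, map_pow]
  have htot : ∫ y : ℝ, ph0 y ^ 2 = (starRingEnd ℂ) J + J := by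
    rw [← hconj, hJ]
    exact (intervalIntegral.integral_Iic_add_Ioi ph0_sq_int.integrableOn
      ph0_sq_int.integrableOn).symm
  rw [htot]
  have hJe : J = ((Real.pi : ℝ) : ℂ) + ((Real.sqrt 3 * Real.pi : ℝ) : ℂ) * I := by
    have hW0 : I * W ≠ 0 := by
      intro h3
      rw [h3] at key
      norm_num at key
    apply mul_left_cancel₀ hW0
    have hpi : (Real.pi : ℂ) ≠ 0 := by exact_mod_cast Real.pi_ne_zero
    have h := s3
    have hI := Complex.I_sq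
    have e1 : I * W * (((Real.pi : ℝ) : ℂ) + ((Real.sqrt 3 * Real.pi : ℝ) : ℂ) * I) = -1 := by
      rw [hWe]
      push_cast
      field_simp
      linear_combination (1 + ((Real.sqrt 3 : ℝ) : ℂ) ^ 2 + I * ((Real.sqrt 3 : ℝ) : ℂ)) * hI - h
    rw [key, e1]
    norm_num
  rw [hJe, map_add, map_mul, Complex.conj_ofReal, Complex.conj_ofReal, Complex.conj_I]
  push_cast
  ring

end Pool.Agent.H353.CVWR
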