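import Pool.Agent.H260.CV.Stm
import Pool.Graph.R_seed8.H140R2.FR.T01Airy

set_option autoImplicit false

open Complex MeasureTheory Set Filter Topology

namespace Pool.Agent.H390.CVW

open Pool.Agent.H260.CV
open Pool.Agent.H140R2.FR
open Pool.Agent.H140R2.FR.T01

/-- the integrand `(i w)^n e^{i w³/3}` -/
noncomputable def hf (n : ℕ) (w : ℂ) : ℂ := (I * w) ^ n * gz 0 w

theorem hf_diff (n : ℕ) : Differentiable ℂ (hf n) := by
  intro w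
  have h1 : DifferentiableAt ℂ (gz 0) w := (hasDerivAt_gz 0 w).differentiableAt
  have h2 : DifferentiableAt ℂ (fun w : ℂ => (I * w) ^ n) w := by fun_prop
  exact h2.mul h1

theorem norm_hf (n : ℕ) (w : ℂ) : ‖hf n w‖ = ‖w‖ ^ n * Real.exp (w.im ^ 3 / 3 - w.im * w.re ^ 2) := by
  unfold hf
  rw [norm_mul, norm_pow, norm_mul, Complex.norm_I, one_mul, norm_gz]
  simp

/-- on a ray `w = r u` with `u³ = i` -/
theorem hf_ray (n : ℕ) (u : ℂ) (hu : u ^ 3 = I) (r : ℝ) :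
    hf n ((r : ℂ) * u) = (I * u) ^ n * ((r ^ n * Real.exp (-(r ^ 3) / 3) : ℝ) : ℂ) := by
  unfold hf gz
  have h1 : I * (((r : ℂ) * u) ^ 3 / 3 + 0 * ((r : ℂ) * u)) = ((-(r ^ 3) / 3 : ℝ) : ℂ) := by
    rw [mul_pow, hu]
    push_cast
    have : I * ((r : ℂ) ^ 3 * I / 3 + 0 * ((r : ℂ) * u)) = (I * I) * ((r : ℂ) ^ 3 / 3) := by ring
    rw [this, Complex.I_mul_I]
    ring
  rw [h1]
  push_cast
  ring

/-- `∫_0^∞ r^n e^{-r³/3} dr` -/
noncomputable def Mn (n : ℕ) : ℝ := ∫ r in Ioi (0 : ℝ), r ^ n * Real.exp (-(r ^ 3) / 3)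

theorem ray_integrable (n : ℕ) :
    IntegrableOn (fun r : ℝ => r ^ n * Real.exp (-(r ^ 3) / 3)) (Ioi (0 : ℝ)) := by
  have h1 := integrableOn_rpow_mul_exp_neg_mul_rpow (p := 3) (s := (n : ℝ)) (b := 1 / 3)
    (by have : (0 : ℝ) ≤ (n : ℝ) := Nat.cast_nonneg n
        linarith) (by norm_num) (by norm_num)
  refine h1.congr_fun (fun r hr => ?_) measurableSet_Ioi
  have hr0 : (0 : ℝ) < r := hr
  have e3 : (3 : ℝ) = ((3 : ℕ) : ℝ) := by norm_num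
  simp only
  rw [Real.rpow_natCast, e3, Real.rpow_natCast]
  congr 2
  push_cast
  ring

theorem Mn_eq (n : ℕ) : Mn n = (1 / 3 : ℝ) ^ (-((n : ℝ) + 1) / 3) * (1 / 3) *
    Real.Gamma (((n : ℝ) + 1) / 3) := by
  have h1 := _root_.integral_rpow_mul_exp_neg_mul_rpow (p := 3) (q := (n : ℝ)) (b := 1 / 3)
    (by norm_num) (by have : (0 : ℝ) ≤ (n : ℝ) := Nat.cast_nonneg n
                      linarith) (by norm_num)
  rw [← h1]
  unfold Mn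
  refine setIntegral_congr_fun measurableSet_Ioi (fun r hr => ?_)
  have hr0 : (0 : ℝ) < r := hr
  have e3 : (3 : ℝ) = ((3 : ℕ) : ℝ) := by norm_num
  rw [Real.rpow_natCast, e3, Real.rpow_natCast]
  congr 2
  push_cast
  ring

theorem Mn_prod : Mn 0 * Mn 1 = 2 * Real.pi / (3 * Real.sqrt 3) := by
  rw [Mn_eq, Mn_eq]
  have h1 : Real.Gamma (1 / 3) * Real.Gamma (1 - 1 / 3) = Real.pi / Real.sin (Real.pi * (1 / 3)) :=
    Real.Gamma_mul_Gamma_one_sub (1 / 3)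
  have h2 : Real.sin (Real.pi * (1 / 3)) = Real.sqrt 3 / 2 := by
    rw [show Real.pi * (1 / 3) = Real.pi / 3 by ring, Real.sin_pi_div_three]
  rw [h2] at h1
  have h3 : ((0 : ℕ) : ℝ) + 1 = 1 := by norm_num
  have h4 : (((1 : ℕ) : ℝ) + 1) / 3 = 1 - 1 / 3 := by norm_num
  have h5 : (1 / 3 : ℝ) ^ (-(((0 : ℕ) : ℝ) + 1) / 3) * (1 / 3 : ℝ) ^ (-(((1 : ℕ) : ℝ) + 1) / 3) = 3 := by
    rw [← Real.rpow_add (by norm_num)]
    have : -(((0 : ℕ) : ℝ) + 1) / 3 + -(((1 : ℕ) : ℝ) + 1) / 3 = -1 := by norm_num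
    rw [this, Real.rpow_neg_one]
    norm_num
  rw [h4, h3]
  rw [h3] at h5
  have h6 : (1 / 3 : ℝ) ^ (-(1 : ℝ) / 3) * (1 / 3) * Real.Gamma (1 / 3) *
      ((1 / 3 : ℝ) ^ (-(((1 : ℕ) : ℝ) + 1) / 3) * (1 / 3) * Real.Gamma (1 - 1 / 3)) =
      ((1 / 3 : ℝ) ^ (-(1 : ℝ) / 3) * (1 / 3 : ℝ) ^ (-(((1 : ℕ) : ℝ) + 1) / 3)) * (1 / 9) *
        (Real.Gamma (1 / 3) * Real.Gamma (1 - 1 / 3)) := by ring
  rw [h6, h5, h1]
  have h7 : Real.sqrt 3 ≠ 0 := (Real.sqrt_pos.2 (by norm_num)).ne'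
  field_simp
  norm_num

/-- the integral of `hf n` over a segment, for a primitive `G` -/
theorem seg (n : ℕ) (G : ℂ → ℂ) (hG : ∀ z, HasDerivAt G (hf n z) z) (a b : ℂ) (p q : ℝ) :
    ∫ y in p..q, b * hf n (a + (y : ℂ) * b) = G (a + (q : ℂ) * b) - G (a + (p : ℂ) * b) := by
  have hd : ∀ y : ℝ, HasDerivAt (fun y : ℝ => G (a + (y : ℂ) * b)) (b * hf n (a + (y : ℂ) * b)) y := by
    intro y
    have h1 : HasDerivAt (fun z : ℂ => a + z * b) (1 * b) (y : ℂ) :=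
      ((hasDerivAt_id (y : ℂ)).mul_const b).const_add a
    have h2 : HasDerivAt (fun z : ℂ => G (a + z * b)) (hf n (a + (y : ℂ) * b) * (1 * b)) (y : ℂ) :=
      HasDerivAt.comp (y : ℂ) (hG (a + (y : ℂ) * b)) h1
    have h3 := h2.comp_ofReal
    have e : hf n (a + (y : ℂ) * b) * (1 * b) = b * hf n (a + (y : ℂ) * b) := by ring
    rwa [e] at h3
  have hc : Continuous (fun y : ℝ => b * hf n (a + (y : ℂ) * b)) := by
    have := (hf_diff n).continuous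
    fun_prop
  exact intervalIntegral.integral_eq_sub_of_hasDerivAt (fun y _ => hd y)
    (hc.intervalIntegrable p q)

theorem err (n : ℕ) (c : ℝ) (hc : c ^ 2 = 3) :
    Tendsto (fun t : ℝ => ∫ y in (1 : ℝ)..t, I * hf n (((c * t : ℝ) : ℂ) + (y : ℂ) * I)) atTop
      (𝓝 0) := by
  have hb : ∀ t : ℝ, 1 ≤ t →
      ‖∫ y in (1 : ℝ)..t, I * hf n (((c * t : ℝ) : ℂ) + (y : ℂ) * I)‖ ≤
        (2 * t) ^ n * Real.exp (-(8 / 3) * t) * t := by
    intro t ht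
    have h1 : ∀ y ∈ Set.uIoc (1 : ℝ) t, ‖I * hf n (((c * t : ℝ) : ℂ) + (y : ℂ) * I)‖ ≤
        (2 * t) ^ n * Real.exp (-(8 / 3) * t) := by
      intro y hy
      rw [Set.uIoc_of_le ht] at hy
      obtain ⟨hy1, hy2⟩ := hy
      rw [norm_mul, Complex.norm_I, one_mul, norm_hf]
      have e1 : (((c * t : ℝ) : ℂ) + (y : ℂ) * I).re = c * t := by simp
      have e2 : (((c * t : ℝ) : ℂ) + (y : ℂ) * I).im = y := by simp
      rw [e1, e2]
      have h2 : ‖((c * t : ℝ) : ℂ) + (y : ℂ) * I‖ ≤ 2 * t := by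
        have h3 : ‖((c * t : ℝ) : ℂ) + (y : ℂ) * I‖ ^ 2 = 3 * t ^ 2 + y ^ 2 := by
          rw [← Complex.normSq_eq_norm_sq, Complex.normSq_apply, e1, e2]
          nlinarith
        have h4 : ‖((c * t : ℝ) : ℂ) + (y : ℂ) * I‖ ^ 2 ≤ (2 * t) ^ 2 := by
          rw [h3]
          nlinarith
        exact le_of_sq_le_sq h4 (by linarith)
      have h5 : y ^ 3 / 3 - y * (c * t) ^ 2 ≤ -(8 / 3) * t := by
        have h6 : (c * t) ^ 2 = 3 * t ^ 2 := by rw [mul_pow, hc]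
        rw [h6]
        have h7 : y ^ 2 ≤ t ^ 2 := by nlinarith
        have h8 : y * (3 * t ^ 2 - y ^ 2 / 3) ≥ 1 * (3 * t ^ 2 - y ^ 2 / 3) := by
          have : 0 ≤ 3 * t ^ 2 - y ^ 2 / 3 := by nlinarith
          nlinarith
        nlinarith
      have h9 := Real.exp_le_exp.2 h5
      have h10 : ‖((c * t : ℝ) : ℂ) + (y : ℂ) * I‖ ^ n ≤ (2 * t) ^ n :=
        pow_le_pow_left₀ (norm_nonneg _) h2 n
      exact mul_le_mul h10 h9 (Real.exp_pos _).le (by positivity)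
    have h2 := intervalIntegral.norm_integral_le_of_norm_le_const h1
    refine h2.trans ?_
    have h3 : |t - 1| ≤ t := by
      rw [abs_of_nonneg (by linarith)]
      linarith
    have h4 : 0 ≤ (2 * t) ^ n * Real.exp (-(8 / 3) * t) := by positivity
    exact mul_le_mul_of_nonneg_left h3 h4
  have hlim : Tendsto (fun t : ℝ => (2 * t) ^ n * Real.exp (-(8 / 3) * t) * t) atTop (𝓝 0) := by
    have h1 : Tendsto (fun t : ℝ => 2 ^ n * (t ^ (n + 1) * Real.exp (-t))) atTop (𝓝 (2 ^ n * 0)) :=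
      (Real.tendsto_pow_mul_exp_neg_atTop_nhds_zero (n + 1)).const_mul _
    rw [mul_zero] at h1
    refine squeeze_zero' ?_ ?_ h1
    · filter_upwards [eventually_ge_atTop (1 : ℝ)] with t ht
      positivity
    · filter_upwards [eventually_ge_atTop (1 : ℝ)] with t ht
      have h2 : Real.exp (-(8 / 3) * t) ≤ Real.exp (-t) := by
        apply Real.exp_le_exp.2
        linarith
      calc (2 * t) ^ n * Real.exp (-(8 / 3) * t) * t ≤ (2 * t) ^ n * Real.exp (-t) * t := by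
            gcongr
        _ = 2 ^ n * (t ^ (n + 1) * Real.exp (-t)) := by ring
  exact squeeze_zero_norm' (by
    filter_upwards [eventually_ge_atTop (1 : ℝ)] with t ht
    exact hb t ht) hlim

theorem ray_lim (n : ℕ) (u : ℂ) (hu : u ^ 3 = I) :
    Tendsto (fun t : ℝ => ∫ r in (0 : ℝ)..(2 * t), u * hf n (0 + (r : ℂ) * u)) atTop
      (𝓝 (u * ((I * u) ^ n * (Mn n : ℂ)))) := by
  have h1 : ∀ t : ℝ, ∫ r in (0 : ℝ)..(2 * t), u * hf n (0 + (r : ℂ) * u) =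
      u * ((I * u) ^ n * ((∫ r in (0 : ℝ)..(2 * t), r ^ n * Real.exp (-(r ^ 3) / 3) : ℝ) : ℂ)) := by
    intro t
    rw [← intervalIntegral.integral_ofReal, ← intervalIntegral.integral_const_mul,
      ← intervalIntegral.integral_const_mul]
    refine intervalIntegral.integral_congr (fun r _ => ?_)
    rw [zero_add, hf_ray n u hu r]
  simp_rw [h1]
  refine Tendsto.const_mul _ (Tendsto.const_mul _ ?_)
  refine (Complex.continuous_ofReal.tendsto _).comp ?_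
  have h2 : Tendsto (fun t : ℝ => 2 * t) atTop atTop :=
    tendsto_id.const_mul_atTop (by norm_num)
  exact intervalIntegral_tendsto_integral_Ioi 0 (ray_integrable n) h2

/-- the two rays -/
noncomputable def u1 : ℂ := ((Real.sqrt 3 : ℝ) + I) / 2
noncomputable def u2 : ℂ := (-(Real.sqrt 3 : ℝ) + I) / 2

theorem sqrt3_sq : ((Real.sqrt 3 : ℝ) : ℂ) ^ 2 = 3 := by
  rw [← Complex.ofReal_pow, Real.sq_sqrt (by norm_num)]
  norm_num

theorem u1_cube : u1 ^ 3 = I := by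
  unfold u1
  have h := sqrt3_sq
  have hI : I ^ 2 = -1 := Complex.I_sq
  have e : (((Real.sqrt 3 : ℝ) : ℂ) + I) ^ 3 =
      ((Real.sqrt 3 : ℝ) : ℂ) ^ 2 * ((Real.sqrt 3 : ℝ) : ℂ) + 3 * ((Real.sqrt 3 : ℝ) : ℂ) ^ 2 * I +
        3 * ((Real.sqrt 3 : ℝ) : ℂ) * I ^ 2 + I ^ 2 * I := by ring
  rw [div_pow, e, h, hI]
  ring

theorem u2_cube : u2 ^ 3 = I := by
  unfold u2
  have h := sqrt3_sq
  have hI : I ^ 2 = -1 := Complex.I_sq
  have e : (-((Real.sqrt 3 : ℝ) : ℂ) + I) ^ 3 =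
      -(((Real.sqrt 3 : ℝ) : ℂ) ^ 2 * ((Real.sqrt 3 : ℝ) : ℂ)) + 3 * ((Real.sqrt 3 : ℝ) : ℂ) ^ 2 * I -
        3 * ((Real.sqrt 3 : ℝ) : ℂ) * I ^ 2 + I ^ 2 * I := by ring
  rw [div_pow, e, h, hI]
  ring

theorem Ak_zero (n : ℕ) : Ak n 0 = u1 * ((I * u1) ^ n * (Mn n : ℂ)) -
    u2 * ((I * u2) ^ n * (Mn n : ℂ)) := by
  obtain ⟨G, hG⟩ := (hf_diff n).isExactOn_univ
  replace hG : ∀ z, HasDerivAt G (hf n z) z := fun z => hG z (mem_univ z)
  have h3 : (0 : ℝ) < Real.sqrt 3 := Real.sqrt_pos.2 (by norm_num)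
  have hid : ∀ t : ℝ, (∫ s in (-(Real.sqrt 3 * t))..(Real.sqrt 3 * t),
      (I * ((s : ℂ) + I)) ^ n * gz 0 ((s : ℂ) + I)) =
      (∫ r in (0 : ℝ)..(2 * t), u1 * hf n (0 + (r : ℂ) * u1)) -
      (∫ r in (0 : ℝ)..(2 * t), u2 * hf n (0 + (r : ℂ) * u2)) -
      (∫ y in (1 : ℝ)..t, I * hf n (((Real.sqrt 3 * t : ℝ) : ℂ) + (y : ℂ) * I)) +
      ∫ y in (1 : ℝ)..t, I * hf n (((-Real.sqrt 3 * t : ℝ) : ℂ) + (y : ℂ) * I) := by
    intro t
    have e0 : (∫ s in (-(Real.sqrt 3 * t))..(Real.sqrt 3 * t),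
      (I * ((s : ℂ) + I)) ^ n * gz 0 ((s : ℂ) + I)) =
        ∫ s in (-(Real.sqrt 3 * t))..(Real.sqrt 3 * t), 1 * hf n (I + (s : ℂ) * 1) := by
      refine intervalIntegral.integral_congr (fun s _ => ?_)
      rw [one_mul, mul_one, add_comm I, hf]
    rw [e0, seg n G hG, seg n G hG, seg n G hG, seg n G hG, seg n G hG]
    have a1 : (0 : ℂ) + ((2 * t : ℝ) : ℂ) * u1 = ((Real.sqrt 3 * t : ℝ) : ℂ) + (t : ℂ) * I := by
      unfold u1
      push_cast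
      ring
    have a2 : (0 : ℂ) + ((2 * t : ℝ) : ℂ) * u2 = ((-Real.sqrt 3 * t : ℝ) : ℂ) + (t : ℂ) * I := by
      unfold u2
      push_cast
      ring
    have a3 : ((Real.sqrt 3 * t : ℝ) : ℂ) + ((1 : ℝ) : ℂ) * I =
        I + ((Real.sqrt 3 * t : ℝ) : ℂ) * 1 := by
      push_cast
      ring
    have a4 : ((-Real.sqrt 3 * t : ℝ) : ℂ) + ((1 : ℝ) : ℂ) * I =
        I + ((-(Real.sqrt 3 * t) : ℝ) : ℂ) * 1 := by
      push_cast
      ring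
    have a5 : (0 : ℂ) + ((0 : ℝ) : ℂ) * u1 = 0 + ((0 : ℝ) : ℂ) * u2 := by simp
    rw [a1, a2, a3, a4, a5]
    ring
  have hl : Tendsto (fun t : ℝ => ∫ s in (-(Real.sqrt 3 * t))..(Real.sqrt 3 * t),
      (I * ((s : ℂ) + I)) ^ n * gz 0 ((s : ℂ) + I)) atTop (𝓝 (Ak n 0)) := by
    have h2 : Tendsto (fun t : ℝ => Real.sqrt 3 * t) atTop atTop :=
      tendsto_id.const_mul_atTop h3
    exact intervalIntegral_tendsto_integral (Ak_integrable n 0) (tendsto_neg_atTop_atBot.comp h2) h2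
  have hr := (((ray_lim n u1 u1_cube).sub (ray_lim n u2 u2_cube)).sub
    (err n (Real.sqrt 3) (Real.sq_sqrt (by norm_num)))).add
    (err n (-Real.sqrt 3) (by rw [neg_sq]; exact Real.sq_sqrt (by norm_num)))
  simp_rw [hid] at hl
  have := tendsto_nhds_unique hl hr
  rw [this]
  ring

theorem t_WR1 : S_WR1 := by
  unfold S_WR1
  have h1 : Ai 0 = ((1 / (2 * Real.pi) : ℝ) : ℂ) * ((Real.sqrt 3 : ℝ) * (Mn 0 : ℂ)) := by
    rw [Ai_eq, Ak_zero]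
    congr 1
    unfold u1 u2
    ring
  have h2 : deriv Ai 0 = ((1 / (2 * Real.pi) : ℝ) : ℂ) * (-(Real.sqrt 3 : ℝ) * (Mn 1 : ℂ)) := by
    rw [deriv_Ai]
    simp only
    rw [Ak_zero]
    congr 1
    unfold u1 u2
    have hI : I ^ 2 = -1 := Complex.I_sq
    have e : ((Real.sqrt 3 : ℝ) + I) / 2 * ((I * (((Real.sqrt 3 : ℝ) + I) / 2)) ^ 1 * (Mn 1 : ℂ)) -
        (-(Real.sqrt 3 : ℝ) + I) / 2 * ((I * ((-(Real.sqrt 3 : ℝ) + I) / 2)) ^ 1 * (Mn 1 : ℂ)) =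
        I ^ 2 * ((Real.sqrt 3 : ℝ) : ℂ) * (Mn 1 : ℂ) := by ring
    rw [e, hI]
    ring
  rw [h1, h2]
  have h3 := Mn_prod
  have h4 : ((1 / (2 * Real.pi) : ℝ) : ℂ) * ((Real.sqrt 3 : ℝ) * (Mn 0 : ℂ)) *
      (((1 / (2 * Real.pi) : ℝ) : ℂ) * (-(Real.sqrt 3 : ℝ) * (Mn 1 : ℂ))) =
      ((-((1 / (2 * Real.pi)) ^ 2 * (Real.sqrt 3 ^ 2 * (Mn 0 * Mn 1))) : ℝ) : ℂ) := by
    push_cast
    ring
  rw [h4, h3, Real.sq_sqrt (by norm_num)]
  congr 1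
  have h7 : Real.sqrt 3 ≠ 0 := (Real.sqrt_pos.2 (by norm_num)).ne'
  have h8 : Real.pi ≠ 0 := Real.pi_ne_zero
  field_simp

end Pool.Agent.H390.CVW
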