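import Pool.Agent.H260.CV.Stm
import Pool.Graph.R_seed8.R748.CH.DECAY
import Pool.Graph.R_seed8.R748.CH.AILOW
import Pool.Graph.R_seed8.H140R2.FR.T02Bbasic

/-!
# CV-WR2: `Ai(om² iy)/Ai(iy) → 0` as `y → +∞`
-/

set_option autoImplicit false

open Complex MeasureTheory Set Filter Topology
open Pool.Agent.H140R2.FR (Ai cA Ai_sq cA_norm_le)
open Pool.Agent.R748.CH

namespace Pool.Agent.H282.CV

open Pool.Agent.H260.CV

/-- `√(om² i y)` -/
noncomputable def wp (y : ℝ) : ℂ := ((Real.sqrt y : ℝ) : ℂ) * cexp (((-(Real.pi / 12) : ℝ) : ℂ) * I)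

lemma om_sq : om ^ 2 * I = cexp (((-(Real.pi / 6) : ℝ) : ℂ) * I) := by
  have h1 : om ^ 2 = cexp (4 * (Real.pi : ℂ) * I / 3) := by
    unfold om
    rw [← Complex.exp_nat_mul]
    congr 1
    push_cast
    ring
  have h2 : I = cexp ((Real.pi : ℂ) / 2 * I) := Complex.exp_pi_div_two_mul_I.symm
  have h3 : om ^ 2 * I = cexp (4 * (Real.pi : ℂ) * I / 3) * cexp ((Real.pi : ℂ) / 2 * I) := by
    rw [h1, ← h2]
  rw [h3, ← Complex.exp_add]
  have h4 : 4 * (Real.pi : ℂ) * I / 3 + (Real.pi : ℂ) / 2 * I =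
      ((-(Real.pi / 6) : ℝ) : ℂ) * I + 2 * (Real.pi : ℂ) * I := by
    push_cast
    ring
  rw [h4, Complex.exp_add, Complex.exp_two_pi_mul_I, mul_one]

lemma wp_sq {y : ℝ} (hy : 0 ≤ y) : wp y ^ 2 = om ^ 2 * (I * (y : ℂ)) := by
  have e2 : om ^ 2 * (I * (y : ℂ)) = cexp (((-(Real.pi / 6) : ℝ) : ℂ) * I) * (y : ℂ) := by
    rw [← mul_assoc, om_sq]
  rw [e2]
  unfold wp
  rw [mul_pow, ← Complex.exp_nat_mul, ← Complex.ofReal_pow, Real.sq_sqrt hy]
  have h1 : ((2 : ℕ) : ℂ) * (((-(Real.pi / 12) : ℝ) : ℂ) * I) =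
      ((-(Real.pi / 6) : ℝ) : ℂ) * I := by
    push_cast
    ring
  rw [h1, mul_comm]

lemma wp_re (y : ℝ) : (wp y).re = Real.sqrt y * Real.cos (Real.pi / 12) := by
  unfold wp
  rw [Complex.re_ofReal_mul, Complex.exp_ofReal_mul_I_re, Real.cos_neg]

lemma wp_cube_re (y : ℝ) : (wp y ^ 3).re = Real.sqrt y ^ 3 * Real.cos (Real.pi / 4) := by
  unfold wp
  have h1 : ((3 : ℕ) : ℂ) * (((-(Real.pi / 12) : ℝ) : ℂ) * I) =
      ((-(Real.pi / 4) : ℝ) : ℂ) * I := by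
    push_cast
    ring
  rw [mul_pow, ← Complex.exp_nat_mul, ← Complex.ofReal_pow, h1, Complex.re_ofReal_mul,
    Complex.exp_ofReal_mul_I_re, Real.cos_neg]

lemma cos_pos12 : 1 / 2 ≤ Real.cos (Real.pi / 12) := by
  rw [← Real.cos_pi_div_three]
  apply Real.cos_le_cos_of_nonneg_of_le_pi
  · have := Real.pi_pos; positivity
  · have := Real.pi_pos; linarith
  · have := Real.pi_pos; linarith

/-- the numerator is bounded -/
lemma num_le {y : ℝ} (hy : 1 ≤ y) :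
    ‖Ai (om ^ 2 * (I * (y : ℂ)))‖ ≤ Real.sqrt (2 * Real.pi) := by
  have hπ := Real.pi_pos
  have hs : 1 ≤ Real.sqrt y := by rw [← Real.sqrt_one]; exact Real.sqrt_le_sqrt hy
  have hre : 1 / 2 ≤ (wp y).re := by
    rw [wp_re]
    nlinarith [cos_pos12]
  have hre0 : 0 < (wp y).re := by linarith
  rw [← wp_sq (by linarith), Ai_sq _ hre0, norm_mul, norm_mul, Complex.norm_exp]
  have h1 : ‖((1 / (2 * Real.pi) : ℝ) : ℂ)‖ ≤ 1 := by
    rw [Complex.norm_real, Real.norm_eq_abs, abs_of_pos (by positivity),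
      div_le_one (by positivity)]
    linarith [Real.pi_gt_three]
  have h2 : Real.exp ((-(2 / 3) * wp y ^ 3).re) ≤ 1 := by
    rw [Real.exp_le_one_iff]
    have e1 : (-(2 / 3) * wp y ^ 3).re = -(2 / 3) * (wp y ^ 3).re := by
      have : (-(2 / 3) : ℂ) = ((-(2 / 3) : ℝ) : ℂ) := by push_cast; ring
      rw [this, Complex.re_ofReal_mul]
    rw [e1, wp_cube_re]
    have h3 : 0 ≤ Real.sqrt y ^ 3 * Real.cos (Real.pi / 4) := by
      apply mul_nonneg (by positivity)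
      rw [Real.cos_pi_div_four]
      positivity
    linarith
  have h4 : ‖cA (wp y)‖ ≤ Real.sqrt (2 * Real.pi) := by
    refine (cA_norm_le _ hre0).trans (Real.sqrt_le_sqrt ?_)
    rw [div_le_iff₀ hre0]
    nlinarith
  have h5 : 0 ≤ Real.sqrt (2 * Real.pi) := Real.sqrt_nonneg _
  calc ‖((1 / (2 * Real.pi) : ℝ) : ℂ)‖ * Real.exp ((-(2 / 3) * wp y ^ 3).re) * ‖cA (wp y)‖
      ≤ 1 * 1 * Real.sqrt (2 * Real.pi) := by
        apply mul_le_mul _ h4 (norm_nonneg _) (by norm_num)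
        exact mul_le_mul h1 h2 (Real.exp_pos _).le zero_le_one
    _ = Real.sqrt (2 * Real.pi) := by ring

theorem t_WR2 : Pool.Agent.H260.CV.S_WR2 := by
  obtain ⟨C, hC, hdec⟩ := t_DECAY t_AILOW 0 1 le_rfl zero_le_one
  unfold Pool.Agent.H260.CV.S_WR2
  have hlim : Tendsto (fun y : ℝ => Real.sqrt (2 * Real.pi) * (C * Real.exp (-y))) atTop (𝓝 0) := by
    have h1 : Tendsto (fun y : ℝ => Real.exp (-y)) atTop (𝓝 0) :=
      Real.tendsto_exp_neg_atTop_nhds_zero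
    have h2 := (h1.const_mul C).const_mul (Real.sqrt (2 * Real.pi))
    simpa using h2
  refine squeeze_zero_norm' ?_ hlim
  filter_upwards [eventually_ge_atTop (1 : ℝ)] with y hy
  rw [div_eq_mul_inv, norm_mul]
  have h3 := hdec 0 y le_rfl le_rfl
  rw [Complex.ofReal_zero, zero_add, one_mul, abs_of_nonneg (by linarith : (0 : ℝ) ≤ y)] at h3
  exact mul_le_mul (num_le hy) h3 (norm_nonneg _) (Real.sqrt_nonneg _)

end Pool.Agent.H282.CV
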