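import Pool.Agent.H260.CV.K4
import Pool.Agent.H260.CV.Logf
import Pool.Agent.H260.CV.Hada
import Pool.Agent.H260.CV.Cross
import Pool.Agent.H260.CV.MZ
import Pool.Agent.H260.CV.WR2
import Pool.Agent.H260.CV.VZC
import Pool.Agent.H260.CV.VZE
import Pool.Agent.H260.CV.WR
import Pool.Agent.H260.CV.Mass
import Pool.Agent.H260.CV.Sgn
import Pool.Agent.H260.CV.Ker
import Pool.Agent.H260.CV.VC
import Pool.Agent.H260.CV.Parts
import Pool.Agent.H260.CV.VG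
import Pool.Agent.H260.CV.V
import Pool.Agent.H260.CV.Sum
import Pool.Agent.H260.CV.WR1

/-! Project CV: assembly -/

set_option autoImplicit false

open Complex MeasureTheory Set Filter Topology
open Pool.Agent.R748.CH

namespace Pool.Agent.H260.CV

theorem h_K4 : S_K4 :=
  t_K4 (t_V Pool.Agent.H784.CV.t_VG Pool.Agent.H271.CV.t_VC) Pool.Agent.H870.CV.t_SGN
    Pool.Agent.H390.CVC.t_CROSS Pool.Agent.H271.CVK.t_KER t_HADA Pool.Agent.H603.CVS.t_SUM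
    (Pool.Agent.H740.CVP.t_PARTS Pool.Agent.H187.CV.t_MZ)

theorem h_MASS : S_MASS :=
  Pool.Agent.H687.CV.t_MASS
    (Pool.Agent.H353.CVWR.t_WR Pool.Agent.H390.CVW.t_WR1 Pool.Agent.H282.CV.t_WR2)

/-- the logarithmic derivative of `fZ` -/
theorem deriv_log_fZ (t : ℝ) : -(deriv (fun s => Real.log (fZ s)) t) = hZ t := by
  have h := (hasDeriv_fZ t).log (fZ_pos t).ne'
  rw [h.deriv]
  have := (fZ_pos t).ne'
  field_simp

theorem concl :
    (∀ t, 0 < fZ t) ∧ (∀ t, fZ (-t) = fZ t) ∧ Integrable fZ ∧ ∫ t, fZ t = 1 ∧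
    ConvexOn ℝ (Ici (0 : ℝ)) (fun t => -(deriv (fun s => Real.log (fZ s)) t)) ∧
    (∃! T : ℝ → ℝ, ∀ w, Phi (T w) = ∫ t in Iic w, fZ t) ∧
    ∀ T : ℝ → ℝ, (∀ w, Phi (T w) = ∫ t in Iic w, fZ t) → ConvexOn ℝ (Ici (0 : ℝ)) T := by
  have hK4 : S_K4 := h_K4
  have hMass : S_MASS := h_MASS
  refine ⟨fZ_pos, fZ_even, hMass.1, hMass.2, ?_,
    Pool.Agent.H30.CV.t_VZE fZ fZ_pos hMass.1 hMass.2, ?_⟩
  · have e : (fun t => -(deriv (fun s => Real.log (fZ s)) t)) = hZ := funext deriv_log_fZ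
    rw [e]
    exact hZ_convex hK4
  · exact Pool.Agent.H294.CV.t_VZC fZ hZ hasDeriv_fZ fZ_pos fZ_even hMass.1 hMass.2
      (continuous_iff_continuousAt.2 fun x => (hasDeriv_hZ x).continuousAt) (hZ_convex hK4)

end Pool.Agent.H260.CV
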