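import Pool.Agent.H260.CH.Fou
import Pool.Agent.H260.CV.Stm

/-! Project CV: the fourth derivative of `log p` is nonpositive -/

set_option autoImplicit false

open Complex MeasureTheory Set Filter Topology Polynomial
open Pool.Agent.H140R2.FR (Ai)
open Pool.Agent.R748.CH

namespace Pool.Agent.H260.CV

theorem hasDeriv_LL {φ : ℝ → ℂ} (hφ : Mom φ) (c0 c1 c2 c3 x : ℝ) :
    HasDerivAt (LL φ c0 c1 c2 c3)
      (c0 * RT φ 1 x + c1 * RT φ 2 x + c2 * RT φ 3 x + c3 * RT φ 4 x) x := by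
  have h := fun j => (t_TR φ hφ j).1 x
  exact ((((h 0).const_mul c0).add ((h 1).const_mul c1)).add ((h 2).const_mul c2)).add
    ((h 3).const_mul c3)

theorem t_K4 (hV : S_V) (hS : S_SGN) (hC : S_CROSS) (hK : S_KER) (hH : S_HADA) (hSum : S_SUM)
    (hP : S_PARTS) : S_K4 := by
  intro y
  by_contra hcon
  rw [not_le] at hcon
  have hM : Mom ph0 := Pool.Agent.H260.CH.hPH.1
  have hp0 : 0 < RT ph0 0 y := Pool.Agent.H260.CH.hGG.1 y
  set p0 := RT ph0 0 y with hp0d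
  set p1 := RT ph0 1 y with hp1d
  set p2 := RT ph0 2 y with hp2d
  set p3 := RT ph0 3 y with hp3d
  set p4 := RT ph0 4 y with hp4d
  set c2 : ℝ := -3 * (p1 / p0) with hc2
  set c1 : ℝ := 3 * (2 * (p1 / p0) ^ 2 - p2 / p0) with hc1
  set c0 : ℝ := -6 * (p1 / p0) ^ 3 + 6 * (p1 / p0) * (p2 / p0) - p3 / p0 with hc0
  have hne : p0 ≠ 0 := hp0.ne'
  have hF0 : LL ph0 c0 c1 c2 1 y = 0 := by
    unfold LL
    rw [← hp0d, ← hp1d, ← hp2d, ← hp3d, hc0, hc1, hc2]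
    field_simp
    ring
  have hF1 : c0 * p1 + c1 * p2 + c2 * p3 + 1 * p4 = (p0 ^ 3 * p4 - 4 * p0 ^ 2 * p1 * p3 -
      3 * p0 ^ 2 * p2 ^ 2 + 12 * p0 * p1 ^ 2 * p2 - 6 * p1 ^ 4) / p0 ^ 3 := by
    rw [hc0, hc1, hc2]
    field_simp
    ring
  have hF' : 0 < c0 * p1 + c1 * p2 + c2 * p3 + 1 * p4 := by
    rw [hF1]
    exact div_pos hcon (by positivity)
  have hder : ∀ x, HasDerivAt (LL ph0 c0 c1 c2 1)
      (c0 * RT ph0 1 x + c1 * RT ph0 2 x + c2 * RT ph0 3 x + 1 * RT ph0 4 x) x :=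
    hasDeriv_LL hM c0 c1 c2 1
  have hcont : Continuous (LL ph0 c0 c1 c2 1) :=
    continuous_iff_continuousAt.2 fun x => (hder x).continuousAt
  obtain ⟨xs, hxs, hpos, hneg⟩ := hC (LL ph0 c0 c1 c2 1) y _ hcont (hder y) hF' hF0
    (hS c0 c1 c2) (fun z0 z1 z2 z3 z4 => hV c0 c1 c2 1 z0 z1 z2 z3 z4)
  obtain ⟨S, m, hSa, hB, h1, h2⟩ := hH
  have hsum := hSum S m hSa hB h1 h2
  have hL1 : Tendsto (fun N => ∑ a ∈ S N, (m N a : ℝ) * (LL (d1 a) c0 c1 c2 1 y / a)) atTop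
      (𝓝 (LL Z1 c0 c1 c2 1 y)) := by
    have h := (((((hsum 0 y).1).const_mul c0).add (((hsum 1 y).1).const_mul c1)).add
      (((hsum 2 y).1).const_mul c2)).add (((hsum 3 y).1).const_mul 1)
    refine h.congr fun N => ?_
    rw [Finset.mul_sum, Finset.mul_sum, Finset.mul_sum, Finset.mul_sum,
      ← Finset.sum_add_distrib, ← Finset.sum_add_distrib, ← Finset.sum_add_distrib]
    refine Finset.sum_congr rfl fun a ha => ?_
    have e : c0 * ((m N a : ℝ) * (RT (d1 a) 0 y / a - RT ph0 0 y / a)) +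
        c1 * ((m N a : ℝ) * (RT (d1 a) 1 y / a - RT ph0 1 y / a)) +
        c2 * ((m N a : ℝ) * (RT (d1 a) 2 y / a - RT ph0 2 y / a)) +
        1 * ((m N a : ℝ) * (RT (d1 a) 3 y / a - RT ph0 3 y / a)) =
        (m N a : ℝ) * (LL (d1 a) c0 c1 c2 1 y / a) - (m N a : ℝ) * (LL ph0 c0 c1 c2 1 y / a) := by
      unfold LL
      ring
    rw [e, hF0]
    ring
  have hL2 : Tendsto (fun N => ∑ a ∈ S N, (m N a : ℝ) * (LL (d2 a) c0 c1 c2 1 y / a ^ 2)) atTop
      (𝓝 (LL Z2 c0 c1 c2 1 y)) := by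
    have h := (((((hsum 0 y).2).const_mul c0).add (((hsum 1 y).2).const_mul c1)).add
      (((hsum 2 y).2).const_mul c2)).add (((hsum 3 y).2).const_mul 1)
    refine h.congr fun N => ?_
    rw [Finset.mul_sum, Finset.mul_sum, Finset.mul_sum, Finset.mul_sum,
      ← Finset.sum_add_distrib, ← Finset.sum_add_distrib, ← Finset.sum_add_distrib]
    refine Finset.sum_congr rfl fun a ha => ?_
    unfold LL
    ring
  have hle : (y - xs) * LL Z1 c0 c1 c2 1 y ≤ LL Z2 c0 c1 c2 1 y := by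
    refine le_of_tendsto_of_tendsto' (hL1.const_mul (y - xs)) hL2 fun N => ?_
    rw [Finset.mul_sum]
    refine Finset.sum_le_sum fun a ha => ?_
    have hk := hK c0 c1 c2 a xs y (hSa N a ha) hxs.le hpos hneg
    have hm : (0 : ℝ) ≤ (m N a : ℝ) := Nat.cast_nonneg _
    calc (y - xs) * ((m N a : ℝ) * (LL (d1 a) c0 c1 c2 1 y / a))
        = (m N a : ℝ) * ((y - xs) * (LL (d1 a) c0 c1 c2 1 y / a)) := by ring
      _ ≤ _ := mul_le_mul_of_nonneg_left hk hm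
  have hI : LL Z1 c0 c1 c2 1 y = 0 := by
    have e0 := (hP 0 y).1
    have e1 := (hP 1 y).1
    have e2 := (hP 2 y).1
    have e3 := (hP 3 y).1
    simp only [Nat.reduceSub, zero_tsub, ← hp0d, ← hp1d, ← hp2d, ← hp3d, tsub_self] at e0 e1 e2 e3
    push_cast at e0 e1 e2 e3
    have hF0' : c0 * p0 + c1 * p1 + c2 * p2 + 1 * p3 = 0 := hF0
    have hC1 : c1 * p0 + 2 * c2 * p1 + 3 * p2 = 0 := by
      rw [hc1, hc2]
      field_simp
      ring
    unfold LL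
    rw [e0, e1, e2, e3]
    linear_combination (y - (qA 0).re) * hF0' + hC1
  have hJ : LL Z2 c0 c1 c2 1 y = -(c0 * p1 + c1 * p2 + c2 * p3 + 1 * p4) / 2 := by
    have e0 := (hP 0 y).2
    have e1 := (hP 1 y).2
    have e2 := (hP 2 y).2
    have e3 := (hP 3 y).2
    simp only [Nat.reduceSub, Nat.reduceAdd, zero_tsub, zero_add, ← hp0d, ← hp1d, ← hp2d, ← hp3d,
      ← hp4d, tsub_self] at e0 e1 e2 e3
    push_cast at e0 e1 e2 e3
    have hF0' : c0 * p0 + c1 * p1 + c2 * p2 + 1 * p3 = 0 := hF0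
    have hC1 : c1 * p0 + 2 * c2 * p1 + 3 * p2 = 0 := by
      rw [hc1, hc2]
      field_simp
      ring
    have hC2 : 2 * c2 * p0 + 6 * p1 = 0 := by
      rw [hc2]
      field_simp
      ring
    unfold LL
    rw [e0, e1, e2, e3]
    linear_combination (y ^ 2 / 2) * hF0' + y * hC1 + hC2 / 2
  rw [hI, hJ, mul_zero] at hle
  linarith

end Pool.Agent.H260.CV
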