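import Pool.Agent.H260.CV.Stm
import Pool.Graph.R_seed8.R748.CH.GAUSS
import Pool.Graph.R_seed8.R748.CH.TR

/-!
# Project CV (helper260), task VG: the Gaussian base
-/

set_option autoImplicit false

open Complex MeasureTheory Set Filter Topology Polynomial

namespace Pool.Agent.H784.CV

open Pool.Agent.R748.CH Pool.Agent.H260.CV

/-- a cubic has no five alternating signs -/
theorem cubic (a0 a1 a2 a3 z0 z1 z2 z3 z4 : ℝ) (h01 : z0 < z1) (h12 : z1 < z2) (h23 : z2 < z3)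
    (h34 : z3 < z4) (p0 : 0 < a0 + a1 * z0 + a2 * z0 ^ 2 + a3 * z0 ^ 3)
    (p1 : a0 + a1 * z1 + a2 * z1 ^ 2 + a3 * z1 ^ 3 < 0)
    (p2 : 0 < a0 + a1 * z2 + a2 * z2 ^ 2 + a3 * z2 ^ 3)
    (p3 : a0 + a1 * z3 + a2 * z3 ^ 2 + a3 * z3 ^ 3 < 0)
    (p4 : 0 < a0 + a1 * z4 + a2 * z4 ^ 2 + a3 * z4 ^ 3) : False := by
  have d01 : 0 < z1 - z0 := by linarith
  have d02 : 0 < z2 - z0 := by linarith
  have d03 : 0 < z3 - z0 := by linarith
  have d04 : 0 < z4 - z0 := by linarith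
  have d12 : 0 < z2 - z1 := by linarith
  have d13 : 0 < z3 - z1 := by linarith
  have d14 : 0 < z4 - z1 := by linarith
  have d23 : 0 < z3 - z2 := by linarith
  have d24 : 0 < z4 - z2 := by linarith
  have d34 : 0 < z4 - z3 := by linarith
  have v0 : 0 < (z2 - z1) * (z3 - z1) * (z4 - z1) * (z3 - z2) * (z4 - z2) * (z4 - z3) := by
    positivity
  have v1 : 0 < (z2 - z0) * (z3 - z0) * (z4 - z0) * (z3 - z2) * (z4 - z2) * (z4 - z3) := by
    positivity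
  have v2 : 0 < (z1 - z0) * (z3 - z0) * (z4 - z0) * (z3 - z1) * (z4 - z1) * (z4 - z3) := by
    positivity
  have v3 : 0 < (z1 - z0) * (z2 - z0) * (z4 - z0) * (z2 - z1) * (z4 - z1) * (z4 - z2) := by
    positivity
  have v4 : 0 < (z1 - z0) * (z2 - z0) * (z3 - z0) * (z2 - z1) * (z3 - z1) * (z3 - z2) := by
    positivity
  have key : (a0 + a1 * z0 + a2 * z0 ^ 2 + a3 * z0 ^ 3) *
      ((z2 - z1) * (z3 - z1) * (z4 - z1) * (z3 - z2) * (z4 - z2) * (z4 - z3)) -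
      (a0 + a1 * z1 + a2 * z1 ^ 2 + a3 * z1 ^ 3) *
      ((z2 - z0) * (z3 - z0) * (z4 - z0) * (z3 - z2) * (z4 - z2) * (z4 - z3)) +
      (a0 + a1 * z2 + a2 * z2 ^ 2 + a3 * z2 ^ 3) *
      ((z1 - z0) * (z3 - z0) * (z4 - z0) * (z3 - z1) * (z4 - z1) * (z4 - z3)) -
      (a0 + a1 * z3 + a2 * z3 ^ 2 + a3 * z3 ^ 3) *
      ((z1 - z0) * (z2 - z0) * (z4 - z0) * (z2 - z1) * (z4 - z1) * (z4 - z2)) +
      (a0 + a1 * z4 + a2 * z4 ^ 2 + a3 * z4 ^ 3) *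
      ((z1 - z0) * (z2 - z0) * (z3 - z0) * (z2 - z1) * (z3 - z1) * (z3 - z2)) = 0 := by
    ring
  have q0 := mul_pos p0 v0
  have q1 := mul_neg_of_neg_of_pos p1 v1
  have q2 := mul_pos p2 v2
  have q3 := mul_neg_of_neg_of_pos p3 v3
  have q4 := mul_pos p4 v4
  linarith

theorem t_VG : Pool.Agent.H260.CV.S_VG := by
  intro δ hδ
  set φ : ℝ → ℂ := fun ω : ℝ => cexp (-(δ : ℂ) * (ω : ℂ) ^ 2) with hφ
  have hM : Mom φ := GAUSSpf.mom_gauss hδ
  have hTR := t_TR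
  set c : ℝ := (Real.pi / δ) ^ ((1 : ℝ) / 2) with hc
  have hc0 : 0 < c := Real.rpow_pos_of_pos (by positivity) _
  have hf : ∀ x, RT φ 0 x = c * Real.exp (-x ^ 2 / (4 * δ)) := GAUSSpf.tr_gauss hδ
  have hfun : RT φ 0 = fun x => c * Real.exp (-x ^ 2 / (4 * δ)) := funext hf
  have hexp : ∀ x : ℝ, HasDerivAt (fun x : ℝ => Real.exp (-x ^ 2 / (4 * δ)))
      (Real.exp (-x ^ 2 / (4 * δ)) * (-(x / (2 * δ)))) x := by
    intro x
    have h1 : HasDerivAt (fun x : ℝ => -x ^ 2 / (4 * δ)) (-(x / (2 * δ))) x := by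
      have h2 := ((hasDerivAt_pow 2 x).neg).div_const (4 * δ)
      refine h2.congr_deriv ?_
      field_simp
      norm_num
      ring
    exact h1.exp
  have h1 : ∀ x, RT φ 1 x = -(x / (2 * δ)) * (c * Real.exp (-x ^ 2 / (4 * δ))) := by
    intro x
    have a := (hTR φ hM 0).1 x
    rw [hfun] at a
    have b := (hexp x).const_mul c
    rw [show (0 + 1 : ℕ) = 1 from rfl] at a
    rw [a.unique b]
    ring
  have h1fun : RT φ 1 = fun x => -(x / (2 * δ)) * (c * Real.exp (-x ^ 2 / (4 * δ))) := funext h1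
  have h2 : ∀ x, RT φ 2 x = (x ^ 2 / (4 * δ ^ 2) - 1 / (2 * δ)) *
      (c * Real.exp (-x ^ 2 / (4 * δ))) := by
    intro x
    have a := (hTR φ hM 1).1 x
    rw [h1fun] at a
    have b1 : HasDerivAt (fun x : ℝ => -(x / (2 * δ))) (-(1 / (2 * δ))) x :=
      ((hasDerivAt_id x).div_const _).neg
    have b := b1.mul ((hexp x).const_mul c)
    rw [show (1 + 1 : ℕ) = 2 from rfl] at a
    rw [a.unique b]
    field_simp
    ring
  have h2fun : RT φ 2 = fun x => (x ^ 2 / (4 * δ ^ 2) - 1 / (2 * δ)) *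
      (c * Real.exp (-x ^ 2 / (4 * δ))) := funext h2
  have h3 : ∀ x, RT φ 3 x = (3 * x / (4 * δ ^ 2) - x ^ 3 / (8 * δ ^ 3)) *
      (c * Real.exp (-x ^ 2 / (4 * δ))) := by
    intro x
    have a := (hTR φ hM 2).1 x
    rw [h2fun] at a
    have b1 : HasDerivAt (fun x : ℝ => x ^ 2 / (4 * δ ^ 2) - 1 / (2 * δ)) (2 * x / (4 * δ ^ 2)) x := by
      have h4 := ((hasDerivAt_pow 2 x).div_const (4 * δ ^ 2)).sub_const (1 / (2 * δ))
      refine h4.congr_deriv ?_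
      norm_num
    have b := b1.mul ((hexp x).const_mul c)
    rw [show (2 + 1 : ℕ) = 3 from rfl] at a
    rw [a.unique b]
    field_simp
    ring
  have hLL : ∀ c0 c1 c2 c3 x : ℝ, LL φ c0 c1 c2 c3 x =
      ((c0 - c2 / (2 * δ)) + (-(c1 / (2 * δ)) + 3 * c3 / (4 * δ ^ 2)) * x +
        (c2 / (4 * δ ^ 2)) * x ^ 2 + (-(c3 / (8 * δ ^ 3))) * x ^ 3) *
        (c * Real.exp (-x ^ 2 / (4 * δ))) := by
    intro c0 c1 c2 c3 x
    unfold LL
    rw [hf, h1, h2, h3]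
    field_simp
    ring
  intro c0 c1 c2 c3 z0 z1 z2 z3 z4 h01 h12 h23 h34 p0 p1 p2 p3 p4
  have hpos : ∀ x : ℝ, 0 < c * Real.exp (-x ^ 2 / (4 * δ)) := fun x =>
    mul_pos hc0 (Real.exp_pos _)
  rw [hLL] at p0 p1 p2 p3 p4
  refine cubic _ _ _ _ z0 z1 z2 z3 z4 h01 h12 h23 h34
    (pos_of_mul_pos_left p0 (hpos z0).le) ?_ (pos_of_mul_pos_left p2 (hpos z2).le) ?_
    (pos_of_mul_pos_left p4 (hpos z4).le)
  · by_contra h
    exact absurd p1 (not_lt.2 (mul_nonneg (not_lt.1 h) (hpos z1).le))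
  · by_contra h
    exact absurd p3 (not_lt.2 (mul_nonneg (not_lt.1 h) (hpos z3).le))

end Pool.Agent.H784.CV
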